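import Mathlib

/-!
Left-normed commutator subgroups, symmetric commutator products and the retraction argument.
-/

namespace Pool.Agent.Lib.MP_a6d6d3_gt

open Subgroup
open scoped commutatorElement

set_option linter.unusedSectionVars false
set_option linter.style.haveILetI false

/-- The left-normed commutator subgroup `[[A₁, A₂], …, A_k]` of a list of subgroups (`[A]` is `A`,
the empty list gives the whole group). -/
def leftNormed {G : Type*} [Group G] : List (Subgroup G) → Subgroup G
  | [] => ⊤
  | A :: l => l.foldl (fun X Y => ⁅X, Y⁆) A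

/-- The symmetric commutator product `[R₁, …, R_n]_S`: the product over all permutations `σ` of the
left-normed commutator subgroups `[[R_σ(1), R_σ(2)], …, R_σ(n)]` (for normal subgroups the product
of the subgroups is their supremum). -/
def symmetricCommutator {G : Type*} [Group G] {n : ℕ} (R : Fin n → Subgroup G) : Subgroup G :=
  ⨆ σ : Equiv.Perm (Fin n), leftNormed (List.ofFn fun i => R (σ i))

section
variable {G : Type*} [Group G] {ι : Type*} [DecidableEq ι]

theorem leftNormed_snoc (l : List (Subgroup G)) (hl : l ≠ []) (A : Subgroup G) :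
    leftNormed (l ++ [A]) = ⁅leftNormed l, A⁆ := by
  cases l with
  | nil => exact absurd rfl hl
  | cons B l => simp [leftNormed, List.foldl_append]

/-- The commutator subgroup of a list of indices. -/
def cc (R : ι → Subgroup G) (l : List ι) : Subgroup G := leftNormed (l.map R)

theorem cc_single (R : ι → Subgroup G) (i : ι) : cc R [i] = R i := by
  simp [cc, leftNormed]

theorem cc_snoc (R : ι → Subgroup G) (l : List ι) (hl : l ≠ []) (i : ι) :
    cc R (l ++ [i]) = ⁅cc R l, R i⁆ := by
  unfold cc
  rw [List.map_append, List.map_singleton, leftNormed_snoc _ (by simpa using hl)]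

theorem cc_normal (R : ι → Subgroup G) [h : ∀ i, (R i).Normal] (l : List ι) :
    (cc R l).Normal := by
  induction l using List.reverseRecOn with
  | nil => simp only [cc, List.map_nil, leftNormed]; infer_instance
  | append_singleton l i ih =>
    by_cases hl : l = []
    · subst hl
      simpa [cc_single] using h i
    · rw [cc_snoc R l hl]
      haveI := ih
      infer_instance

theorem cc_le (R : ι → Subgroup G) [h : ∀ i, (R i).Normal] (l : List ι) :
    ∀ i ∈ l, cc R l ≤ R i := by
  induction l using List.reverseRecOn with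
  | nil => intro i hi; simp at hi
  | append_singleton l j ih =>
    intro i hi
    by_cases hl : l = []
    · subst hl
      simp only [List.nil_append, List.mem_singleton] at hi
      subst hi
      simp [cc_single]
    · rw [cc_snoc R l hl]
      haveI := cc_normal R l
      rw [List.mem_append, List.mem_singleton] at hi
      rcases hi with hi | rfl
      · exact (commutator_le_left _ _).trans (ih i hi)
      · exact commutator_le_right _ _

/-- The symmetric commutator product over a finite set of indices. -/
def ss (R : ι → Subgroup G) (I : Finset ι) : Subgroup G :=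
  ⨆ l : {l : List ι // l.Nodup ∧ l.toFinset = I}, cc R l.1

theorem cc_le_ss (R : ι → Subgroup G) (I : Finset ι) (l : List ι) (h1 : l.Nodup)
    (h2 : l.toFinset = I) : cc R l ≤ ss R I :=
  le_iSup (fun l : {l : List ι // l.Nodup ∧ l.toFinset = I} => cc R l.1) ⟨l, h1, h2⟩

theorem ss_le (R : ι → Subgroup G) (I : Finset ι) (H : Subgroup G)
    (h : ∀ l : List ι, l.Nodup → l.toFinset = I → cc R l ≤ H) : ss R I ≤ H :=
  iSup_le fun l => h l.1 l.2.1 l.2.2

theorem ss_normal (R : ι → Subgroup G) [h : ∀ i, (R i).Normal] (I : Finset ι) :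
    (ss R I).Normal := by
  unfold ss
  haveI : ∀ l : {l : List ι // l.Nodup ∧ l.toFinset = I}, (cc R l.1).Normal :=
    fun l => cc_normal R l.1
  infer_instance

/-- `[A, B] ≤ N` in terms of images in the quotient commuting. -/
theorem commutator_le_iff_map (A B N : Subgroup G) [N.Normal] :
    ⁅A, B⁆ ≤ N ↔ ∀ a ∈ A, ∀ b ∈ B, Commute (QuotientGroup.mk' N a) (QuotientGroup.mk' N b) := by
  rw [commutator_le]
  refine forall₂_congr fun a _ => forall₂_congr fun b _ => ?_
  rw [← QuotientGroup.eq_one_iff (N := N)]
  change QuotientGroup.mk' N ⁅a, b⁆ = 1 ↔ _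
  rw [map_commutatorElement, commutatorElement_eq_one_iff_commute]

theorem iSup_commutator_le {κ : Sort*} (A : κ → Subgroup G) (B N : Subgroup G) [N.Normal]
    (h : ∀ k, ⁅A k, B⁆ ≤ N) : ⁅⨆ k, A k, B⁆ ≤ N := by
  rw [commutator_le_iff_map]
  intro a ha b hb
  have hle : (⨆ k, A k) ≤ (Subgroup.centralizer {QuotientGroup.mk' N b}).comap
      (QuotientGroup.mk' N) := by
    refine iSup_le fun k x hx => ?_
    rw [Subgroup.mem_comap, Subgroup.mem_centralizer_singleton_iff]
    exact ((commutator_le_iff_map _ _ _).1 (h k) x hx b hb).eq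
  have := hle ha
  rw [Subgroup.mem_comap, Subgroup.mem_centralizer_singleton_iff] at this
  exact this

/-- Three subgroups lemma modulo a normal subgroup. -/
theorem three_subgroups (A B C N : Subgroup G) [hN : N.Normal] (h1 : ⁅⁅B, C⁆, A⁆ ≤ N)
    (h2 : ⁅⁅C, A⁆, B⁆ ≤ N) : ⁅⁅A, B⁆, C⁆ ≤ N := by
  have hker : N = (QuotientGroup.mk' N).ker := (QuotientGroup.ker_mk' N).symm
  have key : ∀ H : Subgroup G, H ≤ N ↔ H.map (QuotientGroup.mk' N) = ⊥ := by
    intro H
    rw [Subgroup.map_eq_bot_iff, QuotientGroup.ker_mk']
  rw [key, map_commutator, map_commutator] at h1 h2 ⊢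
  exact commutator_commutator_eq_bot_of_rotate h1 h2

end

end Pool.Agent.Lib.MP_a6d6d3_gt
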