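import Pool.Agent.Lib.MP_a6d6d3_gt.Wreath

/-!
The group of the 2 × 2 grid link: two parallel copies of each component of the Hopf link.
-/

namespace Pool.Agent.Lib.MP_a6d6d3_gt

open Subgroup
open scoped commutatorElement

set_option linter.unusedSectionVars false
set_option linter.style.haveILetI false

/-- The free generators. -/
abbrev gx (i : Fin 4) : FreeGroup (Fin 4) := FreeGroup.of i

/-- The relators: `x₀x₂` commutes with `x₁` and `x₃`, and `x₁x₃` commutes with `x₀` and `x₂`. -/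
def gridRels : Set (FreeGroup (Fin 4)) :=
  {⁅gx 0 * gx 2, gx 1⁆,
   ⁅gx 0 * gx 2, gx 3⁆,
   ⁅gx 1 * gx 3, gx 0⁆,
   ⁅gx 1 * gx 3, gx 2⁆}

/-- The group of the 2 × 2 grid link. -/
abbrev GridGroup : Type := PresentedGroup gridRels

/-- The meridians of the 2 × 2 grid link. -/
def gridMer : Fin 4 → GridGroup := PresentedGroup.of

theorem grid_rel {r : FreeGroup (Fin 4)} (h : r ∈ gridRels) :
    PresentedGroup.mk gridRels r = 1 :=
  (QuotientGroup.eq_one_iff _).2 (Subgroup.subset_normalClosure h)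

theorem grid_comm021 : Commute (gridMer 0 * gridMer 2) (gridMer 1) := by
  have h := grid_rel (r := ⁅gx 0 * gx 2, gx 1⁆) (Or.inl rfl)
  rw [map_commutatorElement, commutatorElement_eq_one_iff_commute, map_mul] at h
  exact h

theorem grid_comm023 : Commute (gridMer 0 * gridMer 2) (gridMer 3) := by
  have h := grid_rel (r := ⁅gx 0 * gx 2, gx 3⁆)
    (Or.inr (Or.inl rfl))
  rw [map_commutatorElement, commutatorElement_eq_one_iff_commute, map_mul] at h
  exact h

theorem grid_comm130 : Commute (gridMer 1 * gridMer 3) (gridMer 0) := by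
  have h := grid_rel (r := ⁅gx 1 * gx 3, gx 0⁆)
    (Or.inr (Or.inr (Or.inl rfl)))
  rw [map_commutatorElement, commutatorElement_eq_one_iff_commute, map_mul] at h
  exact h

theorem grid_comm132 : Commute (gridMer 1 * gridMer 3) (gridMer 2) := by
  have h := grid_rel (r := ⁅gx 1 * gx 3, gx 2⁆)
    (Or.inr (Or.inr (Or.inr rfl)))
  rw [map_commutatorElement, commutatorElement_eq_one_iff_commute, map_mul] at h
  exact h

section
variable {G : Type*} [Group G]

theorem grid_lift_aux (f : Fin 4 → G) (h1 : Commute (f 0 * f 2) (f 1))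
    (h2 : Commute (f 0 * f 2) (f 3)) (h3 : Commute (f 1 * f 3) (f 0))
    (h4 : Commute (f 1 * f 3) (f 2)) : ∀ r ∈ gridRels, FreeGroup.lift f r = 1 := by
  rintro r (rfl | rfl | rfl | rfl)
  · rw [map_commutatorElement, commutatorElement_eq_one_iff_commute]
    simpa using h1
  · rw [map_commutatorElement, commutatorElement_eq_one_iff_commute]
    simpa using h2
  · rw [map_commutatorElement, commutatorElement_eq_one_iff_commute]
    simpa using h3
  · rw [map_commutatorElement, commutatorElement_eq_one_iff_commute]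
    simpa using h4

/-- The universal property. -/
def gridLift (f : Fin 4 → G) (h1 : Commute (f 0 * f 2) (f 1))
    (h2 : Commute (f 0 * f 2) (f 3)) (h3 : Commute (f 1 * f 3) (f 0))
    (h4 : Commute (f 1 * f 3) (f 2)) : GridGroup →* G :=
  PresentedGroup.toGroup (grid_lift_aux f h1 h2 h3 h4)

theorem gridLift_mer (f : Fin 4 → G) (h1 : Commute (f 0 * f 2) (f 1))
    (h2 : Commute (f 0 * f 2) (f 3)) (h3 : Commute (f 1 * f 3) (f 0))
    (h4 : Commute (f 1 * f 3) (f 2)) (i : Fin 4) :
    gridLift f h1 h2 h3 h4 (gridMer i) = f i :=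
  PresentedGroup.toGroup.of _

theorem grid_hom_ext {f g : GridGroup →* G} (h : ∀ i, f (gridMer i) = g (gridMer i)) :
    f = g := PresentedGroup.ext h

theorem comm_sup_le (A B C N : Subgroup G) [N.Normal] (h1 : ⁅A, C⁆ ≤ N) (h2 : ⁅B, C⁆ ≤ N) :
    ⁅A ⊔ B, C⁆ ≤ N := by
  rw [commutator_le_iff_map] at h1 h2 ⊢
  intro a ha c hc
  have hle : A ⊔ B ≤ (Subgroup.centralizer {QuotientGroup.mk' N c}).comap
      (QuotientGroup.mk' N) := by
    refine sup_le (fun x hx => ?_) (fun x hx => ?_)
    · rw [Subgroup.mem_comap, Subgroup.mem_centralizer_singleton_iff]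
      exact (h1 x hx c hc).eq
    · rw [Subgroup.mem_comap, Subgroup.mem_centralizer_singleton_iff]
      exact (h2 x hx c hc).eq
  have := hle ha
  rw [Subgroup.mem_comap, Subgroup.mem_centralizer_singleton_iff] at this
  exact this

theorem comm_sup_le' (A B C N : Subgroup G) [N.Normal] (h1 : ⁅C, A⁆ ≤ N) (h2 : ⁅C, B⁆ ≤ N) :
    ⁅C, A ⊔ B⁆ ≤ N := by
  rw [commutator_comm] at h1 h2 ⊢
  exact comm_sup_le A B C N h1 h2

end

theorem ss_mono' {G ι : Type*} [Group G] [DecidableEq ι] (R : ι → Subgroup G)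
    [h : ∀ i, (R i).Normal] (I J : Finset ι) (hI : I.Nonempty) (hIJ : I ⊆ J) :
    ss R J ≤ ss R I := by
  have key : ∀ K : Finset ι, Disjoint K I → ss R (K ∪ I) ≤ ss R I := by
    intro K
    induction K using Finset.induction_on with
    | empty => intro _; simp
    | insert k K hk ih =>
      intro hd
      rw [Finset.disjoint_insert_left] at hd
      rw [Finset.insert_union]
      have h1 : k ∉ K ∪ I := by
        rw [Finset.mem_union]
        tauto
      have h2 : (K ∪ I).Nonempty := hI.mono Finset.subset_union_right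
      exact ((ss_insert_le R k (K ∪ I) h2 h1).trans inf_le_left).trans (ih hd.2)
  have h3 := key (J \ I) Finset.sdiff_disjoint
  rwa [Finset.sdiff_union_of_subset hIJ] at h3

/-- The normal closures of the meridians. -/
abbrev gR (i : Fin 4) : Subgroup GridGroup := mer gridMer i

theorem gmem (i : Fin 4) : gridMer i ∈ gR i := Subgroup.subset_normalClosure rfl

/-- The symmetric commutator product. -/
def gN : Subgroup GridGroup := symmetricCommutator (mer gridMer)

instance : gN.Normal := by unfold gN; infer_instance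

/-- The basic commutator. -/
def gw : GridGroup := ⁅gridMer 0, gridMer 1⁆

theorem gw_mem01 : gw ∈ ⁅gR 0, gR 1⁆ := commutator_mem_commutator (gmem 0) (gmem 1)

theorem gw_eq21 : gw = (gridMer 0 * gridMer 2) * ⁅(gridMer 2)⁻¹, gridMer 1⁆ *
    (gridMer 0 * gridMer 2)⁻¹ := by
  have h := grid_comm021.inv_right.eq
  have e : (gridMer 0 * gridMer 2) * ⁅(gridMer 2)⁻¹, gridMer 1⁆ * (gridMer 0 * gridMer 2)⁻¹ =
      gridMer 0 * gridMer 1 * (gridMer 2 * ((gridMer 1)⁻¹ * (gridMer 0 * gridMer 2)⁻¹)) := by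
    rw [commutatorElement_def]; group
  have h' : (gridMer 1)⁻¹ * (gridMer 0 * gridMer 2)⁻¹ =
      (gridMer 0 * gridMer 2)⁻¹ * (gridMer 1)⁻¹ := (grid_comm021.inv_inv).symm.eq
  rw [e, h', gw, commutatorElement_def]
  group

theorem gw_mem21 : gw ∈ ⁅gR 2, gR 1⁆ := by
  rw [gw_eq21]
  exact (inferInstance : (⁅gR 2, gR 1⁆ : Subgroup _).Normal).conj_mem _
    (commutator_mem_commutator (inv_mem (gmem 2)) (gmem 1)) _

theorem gw_eq03 : gw = (gridMer 1 * gridMer 3) * ⁅gridMer 0, (gridMer 3)⁻¹⁆ *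
    (gridMer 1 * gridMer 3)⁻¹ := by
  have h' : gridMer 0 * (gridMer 1 * gridMer 3) = (gridMer 1 * gridMer 3) * gridMer 0 :=
    grid_comm130.symm.eq
  have e : gw = gridMer 0 * (gridMer 1 * gridMer 3) * (gridMer 3)⁻¹ * (gridMer 0)⁻¹ *
      (gridMer 1)⁻¹ := by
    rw [gw, commutatorElement_def]; group
  rw [e, h', commutatorElement_def]
  group

theorem gw_mem03 : gw ∈ ⁅gR 0, gR 3⁆ := by
  rw [gw_eq03]
  exact (inferInstance : (⁅gR 0, gR 3⁆ : Subgroup _).Normal).conj_mem _
    (commutator_mem_commutator (gmem 0) (inv_mem (gmem 3))) _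

theorem gw_mem23 : gw ∈ ⁅gR 2, gR 3⁆ := by
  have h : gridMer 2 * (gridMer 1 * gridMer 3) = (gridMer 1 * gridMer 3) * gridMer 2 :=
    grid_comm132.symm.eq
  have e1 : ⁅(gridMer 2)⁻¹, gridMer 1⁆ = (gridMer 1 * gridMer 3) *
      ⁅(gridMer 2)⁻¹, (gridMer 3)⁻¹⁆ * (gridMer 1 * gridMer 3)⁻¹ := by
    have h' : (gridMer 2)⁻¹ * (gridMer 1 * gridMer 3) =
        (gridMer 1 * gridMer 3) * (gridMer 2)⁻¹ := grid_comm132.symm.inv_left.eq
    have e : ⁅(gridMer 2)⁻¹, gridMer 1⁆ = (gridMer 2)⁻¹ * (gridMer 1 * gridMer 3) *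
        (gridMer 3)⁻¹ * (gridMer 2)⁻¹⁻¹ * (gridMer 1)⁻¹ := by
      rw [commutatorElement_def]; group
    rw [e, h', commutatorElement_def]
    group
  have hn : (⁅gR 2, gR 3⁆ : Subgroup _).Normal := inferInstance
  rw [gw_eq21, e1]
  exact hn.conj_mem _ (hn.conj_mem _
    (commutator_mem_commutator (inv_mem (gmem 2)) (inv_mem (gmem 3))) _) _

/-- The normal closure of the basic commutator. -/
def gD : Subgroup GridGroup := Subgroup.normalClosure {gw}

instance : gD.Normal := by unfold gD; infer_instance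

theorem gw_mem_gD : gw ∈ gD := Subgroup.subset_normalClosure rfl

theorem gD_le {N : Subgroup GridGroup} [N.Normal] (h : gw ∈ N) : gD ≤ N :=
  Subgroup.normalClosure_le_normal (by simpa using h)

/-- Quadruple commutators lie in the symmetric commutator product. -/
theorem quad_le (i j k l : Fin 4) (h : ([i, j, k, l] : List (Fin 4)).Nodup) :
    ⁅⁅⁅gR i, gR j⁆, gR k⁆, gR l⁆ ≤ gN := by
  rw [gN, symmetricCommutator_eq_ss]
  have h4 : cc (mer gridMer) [i, j, k, l] = ⁅⁅⁅gR i, gR j⁆, gR k⁆, gR l⁆ := by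
    simp [cc, leftNormed]
  rw [← h4]
  refine cc_le_ss _ _ _ h ?_
  have hc : ([i, j, k, l] : List (Fin 4)).toFinset.card = 4 := by
    rw [List.toFinset_card_of_nodup h]
    rfl
  exact Finset.eq_univ_of_card _ hc

theorem gD_quad (k l : Fin 4) (hk : k = 0 ∨ k = 2) (hl : l = 1 ∨ l = 3) :
    ⁅⁅gD, gR l⁆, gR k⁆ ≤ gN ∧ ⁅⁅gD, gR k⁆, gR l⁆ ≤ gN := by
  rcases hk with rfl | rfl <;> rcases hl with rfl | rfl
  · exact ⟨(commutator_mono (commutator_mono (gD_le gw_mem23) le_rfl) le_rfl).trans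
      (quad_le 2 3 1 0 (by decide)),
      (commutator_mono (commutator_mono (gD_le gw_mem23) le_rfl) le_rfl).trans
      (quad_le 2 3 0 1 (by decide))⟩
  · exact ⟨(commutator_mono (commutator_mono (gD_le gw_mem21) le_rfl) le_rfl).trans
      (quad_le 2 1 3 0 (by decide)),
      (commutator_mono (commutator_mono (gD_le gw_mem21) le_rfl) le_rfl).trans
      (quad_le 2 1 0 3 (by decide))⟩
  · exact ⟨(commutator_mono (commutator_mono (gD_le gw_mem03) le_rfl) le_rfl).trans
      (quad_le 0 3 1 2 (by decide)),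
      (commutator_mono (commutator_mono (gD_le gw_mem03) le_rfl) le_rfl).trans
      (quad_le 0 3 2 1 (by decide))⟩
  · exact ⟨(commutator_mono (commutator_mono (gD_le gw_mem01) le_rfl) le_rfl).trans
      (quad_le 0 1 3 2 (by decide)),
      (commutator_mono (commutator_mono (gD_le gw_mem01) le_rfl) le_rfl).trans
      (quad_le 0 1 2 3 (by decide))⟩

/-- `[[D, R₁R₃], R₀R₂] ≤ N`. -/
theorem gD_key : ⁅⁅gD, gR 1 ⊔ gR 3⁆, gR 0 ⊔ gR 2⁆ ≤ gN := by
  have h1 : ⁅gD, gR 1 ⊔ gR 3⁆ ≤ ⁅gD, gR 1⁆ ⊔ ⁅gD, gR 3⁆ :=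
    comm_sup_le' _ _ _ _ le_sup_left le_sup_right
  refine (commutator_mono h1 le_rfl).trans ?_
  refine comm_sup_le' _ _ _ _ (comm_sup_le _ _ _ _ ?_ ?_) (comm_sup_le _ _ _ _ ?_ ?_)
  · exact (gD_quad 0 1 (Or.inl rfl) (Or.inl rfl)).1
  · exact (gD_quad 0 3 (Or.inl rfl) (Or.inr rfl)).1
  · exact (gD_quad 2 1 (Or.inr rfl) (Or.inl rfl)).1
  · exact (gD_quad 2 3 (Or.inr rfl) (Or.inr rfl)).1

/-- `D` is abelian modulo `N`. -/
theorem gD_comm : ⁅gD, gD⁆ ≤ gN := by
  refine (commutator_mono (gD_le gw_mem01) (gD_le gw_mem23)).trans ?_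
  rw [commutator_comm]
  refine three_subgroups (gR 2) (gR 3) ⁅gR 0, gR 1⁆ _ ?_ ?_
  · rw [commutator_comm (gR 3)]
    exact quad_le 0 1 3 2 (by decide)
  · exact quad_le 0 1 2 3 (by decide)

/-- The free group on two generators. -/
abbrev F2 : Type := FreeGroup (Fin 2)

/-- The projection killing `x₁` and `x₃`. -/
def gpA : GridGroup →* F2 := gridLift ![FreeGroup.of 0, 1, FreeGroup.of 1, 1]
  (by simp) (by simp) (by simp) (by simp)

/-- The projection killing `x₀` and `x₂`. -/
def gpB : GridGroup →* F2 := gridLift ![1, FreeGroup.of 0, 1, FreeGroup.of 1]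
  (by simp) (by simp) (by simp) (by simp)

theorem gpA_0 : gpA (gridMer 0) = FreeGroup.of 0 := gridLift_mer _ _ _ _ _ 0
theorem gpA_1 : gpA (gridMer 1) = 1 := gridLift_mer _ _ _ _ _ 1
theorem gpA_2 : gpA (gridMer 2) = FreeGroup.of 1 := gridLift_mer _ _ _ _ _ 2
theorem gpA_3 : gpA (gridMer 3) = 1 := gridLift_mer _ _ _ _ _ 3
theorem gpB_0 : gpB (gridMer 0) = 1 := gridLift_mer _ _ _ _ _ 0
theorem gpB_1 : gpB (gridMer 1) = FreeGroup.of 0 := gridLift_mer _ _ _ _ _ 1
theorem gpB_2 : gpB (gridMer 2) = 1 := gridLift_mer _ _ _ _ _ 2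
theorem gpB_3 : gpB (gridMer 3) = FreeGroup.of 1 := gridLift_mer _ _ _ _ _ 3

/-- The section words. -/
def gsA : F2 →* GridGroup := FreeGroup.lift ![gridMer 0, gridMer 2]

/-- The section words. -/
def gsB : F2 →* GridGroup := FreeGroup.lift ![gridMer 1, gridMer 3]

theorem gsA_mem (f : F2) : gsA f ∈ gR 0 ⊔ gR 2 := by
  have h : gsA.range ≤ gR 0 ⊔ gR 2 := by
    rw [gsA, FreeGroup.range_lift_eq_closure, Subgroup.closure_le]
    rintro x ⟨i, rfl⟩
    fin_cases i
    · exact (le_sup_left : gR 0 ≤ _) (gmem 0)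
    · exact (le_sup_right : gR 2 ≤ gR 0 ⊔ gR 2) (gmem 2)
  exact h ⟨f, rfl⟩

theorem gsB_mem (f : F2) : gsB f ∈ gR 1 ⊔ gR 3 := by
  have h : gsB.range ≤ gR 1 ⊔ gR 3 := by
    rw [gsB, FreeGroup.range_lift_eq_closure, Subgroup.closure_le]
    rintro x ⟨i, rfl⟩
    fin_cases i
    · exact (le_sup_left : gR 1 ≤ _) (gmem 1)
    · exact (le_sup_right : gR 3 ≤ gR 1 ⊔ gR 3) (gmem 3)
  exact h ⟨f, rfl⟩

theorem gpA_gsA (f : F2) : gpA (gsA f) = f := by
  have h : gpA.comp gsA = MonoidHom.id F2 := by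
    refine FreeGroup.ext_hom _ _ fun i => ?_
    fin_cases i
    · simp [gsA, gpA_0]
    · simp [gsA, gpA_2]
  exact DFunLike.congr_fun h f

theorem gpB_gsB (f : F2) : gpB (gsB f) = f := by
  have h : gpB.comp gsB = MonoidHom.id F2 := by
    refine FreeGroup.ext_hom _ _ fun i => ?_
    fin_cases i
    · simp [gsB, gpB_1]
    · simp [gsB, gpB_3]
  exact DFunLike.congr_fun h f

theorem gpA_gsB (f : F2) : gpA (gsB f) = 1 := by
  have h : gpA.comp gsB = 1 := by
    refine FreeGroup.ext_hom _ _ fun i => ?_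
    fin_cases i
    · simp [gsB, gpA_1]
    · simp [gsB, gpA_3]
  exact DFunLike.congr_fun h f

theorem gpB_gsA (f : F2) : gpB (gsA f) = 1 := by
  have h : gpB.comp gsA = 1 := by
    refine FreeGroup.ext_hom _ _ fun i => ?_
    fin_cases i
    · simp [gsA, gpB_0]
    · simp [gsA, gpB_2]
  exact DFunLike.congr_fun h f

/-- Modulo `D` every element is determined by its two projections. -/
theorem decomp (g : GridGroup) : (gsA (gpA g) * gsB (gpB g))⁻¹ * g ∈ gD := by
  let q := QuotientGroup.mk' gD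
  have c01 : Commute (q (gridMer 0)) (q (gridMer 1)) := by
    have h2 : q gw = 1 := (QuotientGroup.eq_one_iff _).2 gw_mem_gD
    rw [gw, map_commutatorElement, commutatorElement_eq_one_iff_commute] at h2
    exact h2
  have c21 : Commute (q (gridMer 2)) (q (gridMer 1)) := by
    have h := grid_comm021.map q
    rw [map_mul] at h
    have e : q (gridMer 2) = (q (gridMer 0))⁻¹ * (q (gridMer 0) * q (gridMer 2)) := by group
    rw [e]
    exact c01.inv_left.mul_left h
  have c03 : Commute (q (gridMer 0)) (q (gridMer 3)) := by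
    have h := (grid_comm130.map q).symm
    rw [map_mul] at h
    have e : q (gridMer 3) = (q (gridMer 1))⁻¹ * (q (gridMer 1) * q (gridMer 3)) := by group
    rw [e]
    exact c01.inv_right.mul_right h
  have c23 : Commute (q (gridMer 2)) (q (gridMer 3)) := by
    have h := (grid_comm132.map q).symm
    rw [map_mul] at h
    have e : q (gridMer 3) = (q (gridMer 1))⁻¹ * (q (gridMer 1) * q (gridMer 3)) := by group
    rw [e]
    exact c21.inv_right.mul_right h
  have hcomm : ∀ f f' : F2, Commute ((q.comp gsA) f) ((q.comp gsB) f') := by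
    have h1 : ∀ i : Fin 2, ∀ f' : F2, Commute ((q.comp gsA) (FreeGroup.of i))
        ((q.comp gsB) f') := by
      intro i f'
      have h4 : (q.comp gsB).range ≤ Subgroup.centralizer {(q.comp gsA) (FreeGroup.of i)} := by
        have : q.comp gsB = FreeGroup.lift ![q (gridMer 1), q (gridMer 3)] := by
          refine FreeGroup.ext_hom _ _ fun i => ?_
          fin_cases i <;> simp [gsB]
        rw [this, FreeGroup.range_lift_eq_closure, Subgroup.closure_le]
        rintro x ⟨j, rfl⟩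
        change _ ∈ Subgroup.centralizer _
        rw [Subgroup.mem_centralizer_singleton_iff]
        fin_cases i <;> fin_cases j <;> simp only [gsA, MonoidHom.comp_apply,
          FreeGroup.lift_apply_of]
        · exact c01.symm.eq
        · exact c03.symm.eq
        · exact c21.symm.eq
        · exact c23.symm.eq
      have h5 := h4 ⟨f', rfl⟩
      rw [Subgroup.mem_centralizer_singleton_iff] at h5
      exact Commute.symm h5
    intro f f'
    have h4 : (q.comp gsA).range ≤ Subgroup.centralizer {(q.comp gsB) f'} := by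
      rintro _ ⟨f, rfl⟩
      induction f using FreeGroup.induction_on with
      | C1 => rw [map_one]; exact one_mem _
      | of i =>
        rw [Subgroup.mem_centralizer_singleton_iff]
        exact (h1 i f').eq
      | inv_of i ih => rw [map_inv]; exact inv_mem ih
      | mul f g hf hg => rw [map_mul]; exact mul_mem hf hg
    have h5 := h4 ⟨f, rfl⟩
    rw [Subgroup.mem_centralizer_singleton_iff] at h5
    exact h5
  let Φ : F2 × F2 →* GridGroup ⧸ gD := MonoidHom.noncommCoprod (q.comp gsA) (q.comp gsB) hcomm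
  have h : Φ.comp (gpA.prod gpB) = q := by
    refine grid_hom_ext fun i => ?_
    have e : ∀ g : GridGroup, (Φ.comp (gpA.prod gpB)) g = q (gsA (gpA g)) * q (gsB (gpB g)) :=
      fun g => rfl
    rw [e]
    fin_cases i
    · change q (gsA (gpA (gridMer 0))) * q (gsB (gpB (gridMer 0))) = q (gridMer 0)
      rw [gpA_0, gpB_0]
      simp [gsA]
    · change q (gsA (gpA (gridMer 1))) * q (gsB (gpB (gridMer 1))) = q (gridMer 1)
      rw [gpA_1, gpB_1]
      simp [gsB]
    · change q (gsA (gpA (gridMer 2))) * q (gsB (gpB (gridMer 2))) = q (gridMer 2)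
      rw [gpA_2, gpB_2]
      simp [gsA]
    · change q (gsA (gpA (gridMer 3))) * q (gsB (gpB (gridMer 3))) = q (gridMer 3)
      rw [gpA_3, gpB_3]
      simp [gsB]
  refine QuotientGroup.eq.1 ?_
  have h2 := DFunLike.congr_fun h g
  change q (gsA (gpA g) * gsB (gpB g)) = q g
  rw [map_mul]
  exact h2

theorem gR_ker (i : Fin 4) : (i = 1 ∨ i = 3 → gR i ≤ gpA.ker) ∧ (i = 0 ∨ i = 2 → gR i ≤ gpB.ker) := by
  have key : ∀ (j : Fin 4) (p : GridGroup →* F2), p (gridMer j) = 1 → gR j ≤ p.ker := by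
    intro j p h
    refine Subgroup.normalClosure_le_normal ?_
    rw [Set.singleton_subset_iff]
    exact h
  refine ⟨?_, ?_⟩
  · rintro (rfl | rfl)
    · exact key 1 gpA gpA_1
    · exact key 3 gpA gpA_3
  · rintro (rfl | rfl)
    · exact key 0 gpB gpB_0
    · exact key 2 gpB gpB_2

/-- The intersection of the four normal closures is the normal closure of the commutator. -/
theorem iInf_eq_gD : ⨅ i, mer gridMer i = gD := by
  refine le_antisymm ?_ ?_
  · intro g hg
    rw [Subgroup.mem_iInf] at hg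
    have h1 : gpA g = 1 := (gR_ker 1).1 (Or.inl rfl) (hg 1)
    have h2 : gpB g = 1 := (gR_ker 0).2 (Or.inl rfl) (hg 0)
    have h3 := decomp g
    rw [h1, h2, map_one, map_one, one_mul, inv_one, one_mul] at h3
    exact h3
  · refine le_iInf fun i => ?_
    fin_cases i
    · exact gD_le (commutator_le_left _ _ gw_mem01)
    · exact gD_le (commutator_le_right _ _ gw_mem01)
    · exact gD_le (commutator_le_left _ _ gw_mem21)
    · exact gD_le (commutator_le_right _ _ gw_mem03)

end Pool.Agent.Lib.MP_a6d6d3_gt
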