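import Pool.Agent.Lib.MP_a6d6d3_gt.Grid

/-!
The group `G(L)` of the 2 × 2 grid link.
-/

namespace Pool.Agent.Lib.MP_a6d6d3_gt

open Subgroup
open scoped commutatorElement

set_option linter.unusedSectionVars false
set_option linter.style.haveILetI false

/-- The wreath product of the integers by the free group of rank two. -/
abbrev WW : Type := Multiplicative ℤ ≀ᵣ F2

/-- The element of the wreath product with the Kronecker function. -/
noncomputable def gdel : F2 → Multiplicative ℤ := Pi.mulSingle 1 (Multiplicative.ofAdd 1)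

/-- The Fox derivative as a homomorphism. -/
noncomputable def Lam : F2 →* WW :=
  FreeGroup.lift ![⟨gdel, FreeGroup.of 0⟩,
    (⟨gdel, FreeGroup.of 0⟩ : WW)⁻¹ * RegularWreathProduct.inl (FreeGroup.of 0 * FreeGroup.of 1)]

theorem Lam_0 : Lam (FreeGroup.of 0) = ⟨gdel, FreeGroup.of 0⟩ := by
  simp [Lam]

theorem Lam_01 : Lam (FreeGroup.of 0 * FreeGroup.of 1) =
    RegularWreathProduct.inl (FreeGroup.of 0 * FreeGroup.of 1) := by
  rw [map_mul, Lam_0]
  have : Lam (FreeGroup.of 1) = (⟨gdel, FreeGroup.of 0⟩ : WW)⁻¹ *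
      RegularWreathProduct.inl (FreeGroup.of 0 * FreeGroup.of 1) := by
    simp [Lam]
  rw [this]
  group

theorem Lam_right (g : F2) : (Lam g).right = g := by
  have h : RegularWreathProduct.rightHom.comp Lam = MonoidHom.id F2 := by
    refine FreeGroup.ext_hom _ _ fun i => ?_
    fin_cases i
    · simp [Lam]
    · simp [Lam]
  exact DFunLike.congr_fun h g

/-- The function with Fox derivative coboundary. -/
noncomputable def chi (x : F2) : Multiplicative ℤ := (Lam x⁻¹).left 1

theorem chi_mul (g x : F2) : chi (g⁻¹ * x) = chi x * (Lam g).left x := by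
  rw [chi, mul_inv_rev, inv_inv, map_mul, RegularWreathProduct.mul_left, Pi.mul_apply, Lam_right,
    mul_one, inv_inv]
  rfl

/-- The element of the base group. -/
def Bs (u : F2 → Multiplicative ℤ) : WW := ⟨u, 1⟩

theorem Bs_mul (u v : F2 → Multiplicative ℤ) : Bs u * Bs v = Bs (u * v) := by
  ext q
  · simp [Bs]
  · simp [Bs]

theorem Bs_inv (u : F2 → Multiplicative ℤ) : (Bs u)⁻¹ = Bs u⁻¹ := by
  ext q
  · simp [Bs]
  · simp [Bs]

theorem conj_Bs (x : WW) (u : F2 → Multiplicative ℤ) :
    x * Bs u * x⁻¹ = Bs (fun y => u (x.right⁻¹ * y)) := by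
  refine RegularWreathProduct.ext ?_ ?_
  · funext q
    simp only [Bs, RegularWreathProduct.mul_left, RegularWreathProduct.inv_left, Pi.mul_apply,
      RegularWreathProduct.mul_right, mul_one, Pi.inv_apply, mul_inv_cancel_left]
    rw [mul_comm (x.left q), mul_inv_cancel_right]
  · simp [Bs]

theorem chi_01 : Commute (RegularWreathProduct.inl (FreeGroup.of 0 * FreeGroup.of 1) : WW)
    (Bs chi) := by
  have h := conj_Bs (RegularWreathProduct.inl (FreeGroup.of 0 * FreeGroup.of 1)) chi
  have h2 : (fun y => chi ((RegularWreathProduct.inl (FreeGroup.of 0 * FreeGroup.of 1) :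
      WW).right⁻¹ * y)) = chi := by
    funext y
    rw [RegularWreathProduct.right_inl, chi_mul, Lam_01]
    simp
  rw [h2] at h
  rw [Commute, SemiconjBy]
  rwa [mul_inv_eq_iff_eq_mul] at h

theorem chi_0 : (fun y => chi ((FreeGroup.of 0 : F2)⁻¹ * y)) = chi * gdel := by
  funext y
  rw [chi_mul, Lam_0]
  rfl

/-- The first coordinate homomorphism. -/
noncomputable def psA : GridGroup →* WW :=
  gridLift ![RegularWreathProduct.inl (FreeGroup.of 0), Bs chi,
    RegularWreathProduct.inl (FreeGroup.of 1), Bs chi⁻¹]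
    (by
      change Commute (RegularWreathProduct.inl (FreeGroup.of 0) *
        RegularWreathProduct.inl (FreeGroup.of 1)) (Bs chi)
      rw [← map_mul]
      exact chi_01)
    (by
      change Commute (RegularWreathProduct.inl (FreeGroup.of 0) *
        RegularWreathProduct.inl (FreeGroup.of 1)) (Bs chi⁻¹)
      rw [← map_mul, ← Bs_inv]
      exact chi_01.inv_right)
    (by
      change Commute (Bs chi * Bs chi⁻¹) _
      rw [← Bs_inv, mul_inv_cancel]
      exact Commute.one_left _)
    (by
      change Commute (Bs chi * Bs chi⁻¹) _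
      rw [← Bs_inv, mul_inv_cancel]
      exact Commute.one_left _)

/-- The second coordinate homomorphism. -/
noncomputable def psB : GridGroup →* WW :=
  gridLift ![Bs chi⁻¹, RegularWreathProduct.inl (FreeGroup.of 0), Bs chi,
    RegularWreathProduct.inl (FreeGroup.of 1)]
    (by
      change Commute (Bs chi⁻¹ * Bs chi) _
      rw [← Bs_inv, inv_mul_cancel]
      exact Commute.one_left _)
    (by
      change Commute (Bs chi⁻¹ * Bs chi) _
      rw [← Bs_inv, inv_mul_cancel]
      exact Commute.one_left _)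
    (by
      change Commute (RegularWreathProduct.inl (FreeGroup.of 0) *
        RegularWreathProduct.inl (FreeGroup.of 1)) (Bs chi⁻¹)
      rw [← map_mul, ← Bs_inv]
      exact chi_01.inv_right)
    (by
      change Commute (RegularWreathProduct.inl (FreeGroup.of 0) *
        RegularWreathProduct.inl (FreeGroup.of 1)) (Bs chi)
      rw [← map_mul]
      exact chi_01)

theorem psA_0 : psA (gridMer 0) = RegularWreathProduct.inl (FreeGroup.of 0) :=
  gridLift_mer _ _ _ _ _ 0
theorem psA_1 : psA (gridMer 1) = Bs chi := gridLift_mer _ _ _ _ _ 1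
theorem psA_2 : psA (gridMer 2) = RegularWreathProduct.inl (FreeGroup.of 1) :=
  gridLift_mer _ _ _ _ _ 2
theorem psA_3 : psA (gridMer 3) = Bs chi⁻¹ := gridLift_mer _ _ _ _ _ 3
theorem psB_0 : psB (gridMer 0) = Bs chi⁻¹ := gridLift_mer _ _ _ _ _ 0
theorem psB_1 : psB (gridMer 1) = RegularWreathProduct.inl (FreeGroup.of 0) :=
  gridLift_mer _ _ _ _ _ 1
theorem psB_2 : psB (gridMer 2) = Bs chi := gridLift_mer _ _ _ _ _ 2
theorem psB_3 : psB (gridMer 3) = RegularWreathProduct.inl (FreeGroup.of 1) :=
  gridLift_mer _ _ _ _ _ 3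

theorem psA_gw : psA gw = Bs gdel := by
  rw [gw, map_commutatorElement, psA_0, psA_1, commutatorElement_def, conj_Bs,
    RegularWreathProduct.right_inl, chi_0, Bs_inv, Bs_mul]
  congr 1
  rw [mul_comm chi, mul_inv_cancel_right]

theorem psB_gw : psB gw = Bs gdel := by
  rw [gw, map_commutatorElement, psB_0, psB_1, commutatorElement_def]
  have e : Bs chi⁻¹ * RegularWreathProduct.inl (FreeGroup.of 0) * (Bs chi⁻¹)⁻¹ *
      (RegularWreathProduct.inl (FreeGroup.of 0) : WW)⁻¹ = Bs chi⁻¹ *
      (RegularWreathProduct.inl (FreeGroup.of 0) * Bs chi *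
        (RegularWreathProduct.inl (FreeGroup.of 0))⁻¹) := by
    rw [Bs_inv, inv_inv]; group
  rw [e, conj_Bs, RegularWreathProduct.right_inl, chi_0, Bs_mul]
  congr 1
  rw [inv_mul_cancel_left]

theorem psA_right (g : GridGroup) : (psA g).right = gpA g := by
  have h : RegularWreathProduct.rightHom.comp psA = gpA := by
    refine grid_hom_ext fun i => ?_
    fin_cases i
    · change (psA (gridMer 0)).right = gpA (gridMer 0)
      rw [psA_0, gpA_0]; rfl
    · change (psA (gridMer 1)).right = gpA (gridMer 1)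
      rw [psA_1, gpA_1]; rfl
    · change (psA (gridMer 2)).right = gpA (gridMer 2)
      rw [psA_2, gpA_2]; rfl
    · change (psA (gridMer 3)).right = gpA (gridMer 3)
      rw [psA_3, gpA_3]; rfl
  exact DFunLike.congr_fun h g

theorem psB_right (g : GridGroup) : (psB g).right = gpB g := by
  have h : RegularWreathProduct.rightHom.comp psB = gpB := by
    refine grid_hom_ext fun i => ?_
    fin_cases i
    · change (psB (gridMer 0)).right = gpB (gridMer 0)
      rw [psB_0, gpB_0]; rfl
    · change (psB (gridMer 1)).right = gpB (gridMer 1)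
      rw [psB_1, gpB_1]; rfl
    · change (psB (gridMer 2)).right = gpB (gridMer 2)
      rw [psB_2, gpB_2]; rfl
    · change (psB (gridMer 3)).right = gpB (gridMer 3)
      rw [psB_3, gpB_3]; rfl
  exact DFunLike.congr_fun h g

/-- The Kronecker function at `f`. -/
theorem gdel_shift (f : F2) : (fun y => gdel (f⁻¹ * y)) =
    Pi.mulSingle f (Multiplicative.ofAdd (1 : ℤ)) := by
  funext y
  rw [gdel, Pi.mulSingle_apply, Pi.mulSingle_apply]
  have h : f⁻¹ * y = 1 ↔ y = f := by rw [inv_mul_eq_one, eq_comm]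
  simp only [h]

theorem psA_conj (g : GridGroup) : psA (g * gw * g⁻¹) =
    Bs (Pi.mulSingle (gpA g) (Multiplicative.ofAdd (1 : ℤ))) := by
  rw [map_mul, map_mul, map_inv, psA_gw, conj_Bs, psA_right, gdel_shift]

theorem psB_conj (g : GridGroup) : psB (g * gw * g⁻¹) =
    Bs (Pi.mulSingle (gpB g) (Multiplicative.ofAdd (1 : ℤ))) := by
  rw [map_mul, map_mul, map_inv, psB_gw, conj_Bs, psB_right, gdel_shift]

/-- Elements of the base group of finite support. -/
def Fin0 : Subgroup WW where
  carrier := {x | x.right = 1 ∧ {q | x.left q ≠ 1}.Finite}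
  one_mem' := by simp
  mul_mem' := by
    rintro x y ⟨hx1, hx⟩ ⟨hy1, hy⟩
    exact ⟨by simp [hx1, hy1], (fsupp (Multiplicative ℤ) F2).mul_mem hx hy⟩
  inv_mem' := by
    rintro x ⟨hx1, hx⟩
    exact ⟨by simp [hx1], (fsupp (Multiplicative ℤ) F2).inv_mem hx⟩

theorem gD_le_Fin0 (ψ : GridGroup →* WW) (p : GridGroup →* F2)
    (h : ∀ g, ψ (g * gw * g⁻¹) = Bs (Pi.mulSingle (p g) (Multiplicative.ofAdd (1 : ℤ)))) :
    gD ≤ Fin0.comap ψ := by
  rw [gD, Subgroup.normalClosure, Subgroup.closure_le]
  intro x hx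
  rw [Group.mem_conjugatesOfSet_iff] at hx
  obtain ⟨y, hy, hxy⟩ := hx
  rw [Set.mem_singleton_iff] at hy
  subst hy
  rw [isConj_iff] at hxy
  obtain ⟨g, rfl⟩ := hxy
  change ψ (g * gw * g⁻¹) ∈ Fin0
  rw [h]
  refine ⟨rfl, (Set.finite_singleton (p g)).subset ?_⟩
  intro q hq
  by_contra hne
  exact hq (Pi.mulSingle_eq_of_ne hne _)

/-- The coordinates of an element of `D`. -/
noncomputable def gth (ψ : GridGroup →* WW) (hψ : gD ≤ Fin0.comap ψ) :
    gD →* Multiplicative (F2 →₀ ℤ) where
  toFun w := Multiplicative.ofAdd (Finsupp.ofSupportFinite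
    (fun q => Multiplicative.toAdd ((ψ w).left q)) ((hψ w.2).2.subset (by
      intro q hq
      rw [Function.mem_support] at hq
      intro h
      exact hq (by rw [h]; rfl))))
  map_one' := by
    refine congrArg Multiplicative.ofAdd ?_
    ext q
    change Multiplicative.toAdd ((ψ (1 : gD)).left q) = 0
    simp
  map_mul' w w' := by
    refine congrArg Multiplicative.ofAdd ?_
    ext q
    change Multiplicative.toAdd ((ψ ((w * w' : gD) : GridGroup)).left q) =
      Multiplicative.toAdd ((ψ w).left q) + Multiplicative.toAdd ((ψ w').left q)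
    rw [Subgroup.coe_mul, map_mul, RegularWreathProduct.mul_left, Pi.mul_apply, (hψ w.2).1,
      inv_one, one_mul, toAdd_mul]

theorem gth_conj (ψ : GridGroup →* WW) (p : GridGroup →* F2)
    (h : ∀ g, ψ (g * gw * g⁻¹) = Bs (Pi.mulSingle (p g) (Multiplicative.ofAdd (1 : ℤ))))
    (hψ : gD ≤ Fin0.comap ψ) (g : GridGroup) (w : gD) (hw : (w : GridGroup) = g * gw * g⁻¹) :
    gth ψ hψ w = Multiplicative.ofAdd (Finsupp.single (p g) 1) := by
  classical
  refine congrArg Multiplicative.ofAdd ?_
  ext q
  change Multiplicative.toAdd ((ψ (w : GridGroup)).left q) = _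
  rw [hw, h, Finsupp.single_apply]
  change Multiplicative.toAdd ((Pi.mulSingle (p g) (Multiplicative.ofAdd (1 : ℤ)) :
    F2 → Multiplicative ℤ) q) = _
  rw [Pi.mulSingle_apply]
  by_cases hq : q = p g
  · rw [if_pos hq, if_pos hq.symm]
    rfl
  · rw [if_neg hq, if_neg (fun h => hq h.symm)]
    rfl

/-- The symmetric product is killed by homomorphisms mapping two of the normal closures to the base
group. -/
theorem gN_le_ker (ψ : GridGroup →* WW) (i j : Fin 4) (hij : i ≠ j)
    (hi : (ψ (gridMer i)).right = 1) (hj : (ψ (gridMer j)).right = 1) : gN ≤ ψ.ker := by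
  -- the base group
  let Bg : Subgroup WW := RegularWreathProduct.rightHom.ker
  have hBg : ∀ x ∈ Bg, ∀ y ∈ Bg, x * y = y * x := by
    intro x hx y hy
    have hx' : x.right = 1 := hx
    have hy' : y.right = 1 := hy
    refine RegularWreathProduct.ext ?_ ?_
    · funext q
      rw [RegularWreathProduct.mul_left, RegularWreathProduct.mul_left, Pi.mul_apply,
        Pi.mul_apply, hx', hy', inv_one, one_mul, mul_comm]
    · rw [RegularWreathProduct.mul_right, RegularWreathProduct.mul_right, hx', hy']
  have hR : ∀ k : Fin 4, (ψ (gridMer k)).right = 1 → gR k ≤ Bg.comap ψ := by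
    intro k hk
    refine Subgroup.normalClosure_le_normal ?_
    rw [Set.singleton_subset_iff]
    exact hk
  have hc : ∀ A B : Subgroup GridGroup, A ≤ Bg.comap ψ → B ≤ Bg.comap ψ → ⁅A, B⁆ ≤ ψ.ker := by
    intro A B hA hB
    rw [commutator_le]
    intro a ha b hb
    rw [MonoidHom.mem_ker, map_commutatorElement, commutatorElement_eq_one_iff_mul_comm]
    exact hBg _ (hA ha) _ (hB hb)
  have h1 : gN ≤ ss (mer gridMer) {i, j} := by
    rw [gN, symmetricCommutator_eq_ss]
    exact ss_mono' _ _ _ (by simp) (Finset.subset_univ _)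
  refine h1.trans ?_
  have h2 := symmetricCommutator_comp (mer gridMer) ![i, j] (by
    intro a b hab
    fin_cases a <;> fin_cases b
    · rfl
    · exact absurd hab hij
    · exact absurd hab hij.symm
    · rfl) {i, j} (by
    intro x
    simp only [Finset.mem_insert, Finset.mem_singleton]
    constructor
    · rintro (rfl | rfl)
      · exact ⟨0, rfl⟩
      · exact ⟨1, rfl⟩
    · rintro ⟨a, rfl⟩
      fin_cases a
      · exact Or.inl rfl
      · exact Or.inr rfl)
  rw [← h2]
  refine iSup_le fun σ => ?_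
  have h3 : leftNormed (List.ofFn fun a => mer gridMer (![i, j] (σ a))) =
      ⁅mer gridMer (![i, j] (σ 0)), mer gridMer (![i, j] (σ 1))⁆ := by
    simp [leftNormed, List.ofFn_succ]
  rw [h3]
  have h4 : ∀ a : Fin 2, mer gridMer (![i, j] a) ≤ Bg.comap ψ := by
    intro a
    fin_cases a
    · exact hR i hi
    · exact hR j hj
  exact hc _ _ (h4 _) (h4 _)

end Pool.Agent.Lib.MP_a6d6d3_gt
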