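import Pool.Agent.Lib.MP_a6d6d3_gt.Grid2

/-!
The group `G(L)` of the 2 × 2 grid link, conclusion.
-/

namespace Pool.Agent.Lib.MP_a6d6d3_gt

open Subgroup
open scoped commutatorElement

set_option linter.unusedSectionVars false
set_option linter.style.haveILetI false

/-! ### Exponent sums in free groups -/

/-- The exponent sums of a word. -/
noncomputable def abX (X : Type*) : FreeGroup X →* Multiplicative (X →₀ ℤ) :=
  FreeGroup.lift fun x => Multiplicative.ofAdd (Finsupp.single x 1)

theorem abX_of {X : Type*} (x : X) : abX X (FreeGroup.of x) =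
    Multiplicative.ofAdd (Finsupp.single x 1) := by simp [abX]

theorem abX_eq (X : Type*) : abX X = (AddMonoidHom.toMultiplicative
    (FreeAbelianGroup.equivFinsupp X).toAddMonoidHom).comp
      (Abelianization.of : FreeGroup X →* Abelianization (FreeGroup X)) := by
  refine FreeGroup.ext_hom _ _ fun q => ?_
  rw [abX_of]
  change _ = Multiplicative.ofAdd (FreeAbelianGroup.toFinsupp (FreeAbelianGroup.of q))
  rw [FreeAbelianGroup.toFinsupp_of]

theorem abX_surjective (X : Type*) : Function.Surjective (abX X) := by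
  rw [abX_eq]
  intro x
  obtain ⟨y, hy⟩ := (FreeAbelianGroup.equivFinsupp X).surjective (Multiplicative.toAdd x)
  obtain ⟨f, hf⟩ := QuotientGroup.mk_surjective (show Abelianization (FreeGroup X) from y)
  refine ⟨f, ?_⟩
  exact (congrArg (fun y : FreeAbelianGroup X =>
    Multiplicative.ofAdd (FreeAbelianGroup.equivFinsupp X y)) hf).trans
      (congrArg Multiplicative.ofAdd hy)

theorem abX_ker {X : Type*} (f : FreeGroup X) (hf : abX X f = 1) :
    f ∈ commutator (FreeGroup X) := by
  rw [abX_eq] at hf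
  have h1 : (FreeAbelianGroup.equivFinsupp X)
      (show FreeAbelianGroup X from Additive.ofMul (Abelianization.of f)) = 0 := hf
  rw [map_eq_zero_iff _ (FreeAbelianGroup.equivFinsupp X).injective] at h1
  have h2 : (Abelianization.of f : Abelianization (FreeGroup X)) = 1 := h1
  rw [← Abelianization.ker_of]
  exact h2

/-- The augmentation. -/
noncomputable def augX (X : Type*) : (X →₀ ℤ) →+ ℤ := Finsupp.liftAddHom fun _ => AddMonoidHom.id ℤ

theorem augX_apply {X : Type*} (f : X →₀ ℤ) : augX X f = f.sum fun _ n => n := rfl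

theorem augX_single {X : Type*} (x : X) (n : ℤ) : augX X (Finsupp.single x n) = n := by
  simp [augX]

/-! ### Generation of `D` modulo the symmetric product -/

/-- The conjugates of the commutator by words in `x₀, x₂`. -/
def gA : FreeGroup F2 →* GridGroup := FreeGroup.lift fun f => gsA f * gw * (gsA f)⁻¹

/-- The conjugates of the commutator by words in `x₁, x₃`. -/
def gB : FreeGroup F2 →* GridGroup := FreeGroup.lift fun f => gsB f * gw * (gsB f)⁻¹

theorem gA_of (f : F2) : gA (FreeGroup.of f) = gsA f * gw * (gsA f)⁻¹ := by simp [gA]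
theorem gB_of (f : F2) : gB (FreeGroup.of f) = gsB f * gw * (gsB f)⁻¹ := by simp [gB]

theorem conj_mem_gD (g : GridGroup) : g * gw * g⁻¹ ∈ gD :=
  (inferInstance : gD.Normal).conj_mem _ gw_mem_gD g

theorem gA_mem (α : FreeGroup F2) : gA α ∈ gD := by
  have h : gA.range ≤ gD := by
    rw [gA, FreeGroup.range_lift_eq_closure, Subgroup.closure_le]
    rintro x ⟨f, rfl⟩
    exact conj_mem_gD _
  exact h ⟨α, rfl⟩

theorem gB_mem (α : FreeGroup F2) : gB α ∈ gD := by
  have h : gB.range ≤ gD := by
    rw [gB, FreeGroup.range_lift_eq_closure, Subgroup.closure_le]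
    rintro x ⟨f, rfl⟩
    exact conj_mem_gD _
  exact h ⟨α, rfl⟩

theorem gD_commute (x y : GridGroup) (hx : x ∈ gD) (hy : y ∈ gD) :
    Commute (QuotientGroup.mk' gN x) (QuotientGroup.mk' gN y) :=
  (commutator_le_iff_map gD gD gN).1 gD_comm x hx y hy

/-- The formula for the conjugates of the commutator. -/
theorem conj_formula (g : GridGroup) :
    QuotientGroup.mk' gN (g * gw * g⁻¹) =
      QuotientGroup.mk' gN (gsA (gpA g) * gw * (gsA (gpA g))⁻¹) *
        (QuotientGroup.mk' gN gw)⁻¹ *
          QuotientGroup.mk' gN (gsB (gpB g) * gw * (gsB (gpB g))⁻¹) := by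
  set q := QuotientGroup.mk' gN with hq
  set R := gsA (gpA g) with hR
  set S := gsB (gpB g) with hS
  have hd : (R * S)⁻¹ * g ∈ gD := decomp g
  set d := (R * S)⁻¹ * g with hd'
  have hg : g = R * S * d := by rw [hd']; group
  -- `D` acts trivially
  have h1 : q (d * gw * d⁻¹) = q gw := by
    have h := gD_commute d gw hd gw_mem_gD
    rw [← hq] at h
    rw [map_mul, map_mul, map_inv, h.eq]
    group
  have h2 : q (g * gw * g⁻¹) = q (R * S * gw * (R * S)⁻¹) := by
    have e : g * gw * g⁻¹ = (R * S) * (d * gw * d⁻¹) * (R * S)⁻¹ := by rw [hg]; group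
    rw [e, map_mul, map_mul, h1, ← map_mul, ← map_mul]
  -- the words in `x₀, x₂` commute with `[S, w]`
  have h3 : Commute (q ⁅gw, S⁆) (q R) := by
    refine (commutator_le_iff_map _ _ gN).1 gD_key _ ?_ _ (gsA_mem _)
    exact commutator_mem_commutator gw_mem_gD (gsB_mem _)
  have h4 : q (R * S * gw * (R * S)⁻¹) = q (⁅gw, S⁆⁻¹) * q (R * gw * R⁻¹) := by
    have e : R * S * gw * (R * S)⁻¹ = (R * ⁅gw, S⁆⁻¹ * R⁻¹) * (R * gw * R⁻¹) := by
      rw [commutatorElement_def]; group
    rw [e, map_mul]
    congr 1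
    rw [map_mul, map_mul, map_inv, map_inv, ← h3.inv_left.eq]
    group
  have h5 : q (⁅gw, S⁆⁻¹) = q (S * gw * S⁻¹) * (q gw)⁻¹ := by
    rw [← map_inv q gw, ← map_mul]
    congr 1
    rw [commutatorElement_def]; group
  have c1 := gD_commute (S * gw * S⁻¹) (R * gw * R⁻¹) (conj_mem_gD _) (conj_mem_gD _)
  have c2 := gD_commute gw (R * gw * R⁻¹) gw_mem_gD (conj_mem_gD _)
  have c3 := gD_commute gw (S * gw * S⁻¹) gw_mem_gD (conj_mem_gD _)
  rw [← hq] at c1 c2 c3
  rw [h2, h4, h5]
  calc q (S * gw * S⁻¹) * (q gw)⁻¹ * q (R * gw * R⁻¹)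
      = q (S * gw * S⁻¹) * (q (R * gw * R⁻¹) * (q gw)⁻¹) := by
        rw [mul_assoc, (c2.inv_left).eq]
    _ = q (R * gw * R⁻¹) * q (S * gw * S⁻¹) * (q gw)⁻¹ := by
        rw [← mul_assoc, c1.eq]
    _ = q (R * gw * R⁻¹) * (q gw)⁻¹ * q (S * gw * S⁻¹) := by
        rw [mul_assoc, ← (c3.inv_left).eq, ← mul_assoc]

/-- Every element of `D` is a product of words `gA α`, `gB β` modulo the symmetric product. -/
theorem exists_AB (d : GridGroup) (hd : d ∈ gD) :
    ∃ α β : FreeGroup F2, QuotientGroup.mk' gN d =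
      QuotientGroup.mk' gN (gA α) * QuotientGroup.mk' gN (gB β) := by
  set q := QuotientGroup.mk' gN with hq
  have hc : ∀ α β : FreeGroup F2, Commute (q (gA α)) (q (gB β)) :=
    fun α β => gD_commute _ _ (gA_mem α) (gB_mem β)
  let T : Subgroup GridGroup :=
    { carrier := {d | ∃ α β : FreeGroup F2, q d = q (gA α) * q (gB β)}
      one_mem' := ⟨1, 1, by simp⟩
      mul_mem' := by
        rintro x y ⟨α, β, h⟩ ⟨α', β', h'⟩
        refine ⟨α * α', β * β', ?_⟩
        rw [map_mul, h, h', map_mul gA, map_mul gB, map_mul q, map_mul q]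
        calc q (gA α) * q (gB β) * (q (gA α') * q (gB β'))
            = q (gA α) * (q (gB β) * q (gA α')) * q (gB β') := by group
          _ = q (gA α) * (q (gA α') * q (gB β)) * q (gB β') := by rw [(hc α' β).symm.eq]
          _ = q (gA α) * q (gA α') * (q (gB β) * q (gB β')) := by group
      inv_mem' := by
        rintro x ⟨α, β, h⟩
        refine ⟨α⁻¹, β⁻¹, ?_⟩
        rw [map_inv, h, map_inv gA, map_inv gB, map_inv q, map_inv q, mul_inv_rev,
          ((hc α β).inv_inv).eq] }
  have hT : gD ≤ T := by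
    rw [gD, Subgroup.normalClosure, Subgroup.closure_le]
    intro x hx
    rw [Group.mem_conjugatesOfSet_iff] at hx
    obtain ⟨y, hy, hxy⟩ := hx
    rw [Set.mem_singleton_iff] at hy
    subst hy
    rw [isConj_iff] at hxy
    obtain ⟨g, rfl⟩ := hxy
    refine ⟨FreeGroup.of (gpA g) * (FreeGroup.of 1)⁻¹, FreeGroup.of (gpB g), ?_⟩
    have h := conj_formula g
    rw [← hq] at h
    rw [h, map_mul gA, map_inv gA, gA_of, gA_of, gB_of, map_mul q, map_inv q]
    simp
  exact hT hd

theorem gA_comm_mem (α : FreeGroup F2) (h : α ∈ commutator (FreeGroup F2)) : gA α ∈ gN := by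
  have hle : commutator (FreeGroup F2) ≤ gN.comap gA := by
    rw [commutator_def, commutator_le]
    intro a _ b _
    change gA ⁅a, b⁆ ∈ gN
    rw [map_commutatorElement]
    exact gD_comm (commutator_mem_commutator (gA_mem a) (gA_mem b))
  exact hle h

theorem gB_comm_mem (α : FreeGroup F2) (h : α ∈ commutator (FreeGroup F2)) : gB α ∈ gN := by
  have hle : commutator (FreeGroup F2) ≤ gN.comap gB := by
    rw [commutator_def, commutator_le]
    intro a _ b _
    change gB ⁅a, b⁆ ∈ gN
    rw [map_commutatorElement]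
    exact gD_comm (commutator_mem_commutator (gB_mem a) (gB_mem b))
  exact hle h

/-! ### The coordinates -/

theorem hA_Fin0 : gD ≤ Fin0.comap psA := gD_le_Fin0 psA gpA psA_conj
theorem hB_Fin0 : gD ≤ Fin0.comap psB := gD_le_Fin0 psB gpB psB_conj

/-- The pair of coordinates. -/
noncomputable def gTh : gD →* Multiplicative ((F2 →₀ ℤ) × (F2 →₀ ℤ)) where
  toFun w := Multiplicative.ofAdd (Multiplicative.toAdd (gth psA hA_Fin0 w),
    Multiplicative.toAdd (gth psB hB_Fin0 w))
  map_one' := by
    rw [map_one (gth psA hA_Fin0), map_one (gth psB hB_Fin0)]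
    rfl
  map_mul' w w' := by
    rw [map_mul (gth psA hA_Fin0), map_mul (gth psB hB_Fin0)]
    rfl

theorem gth_gA_A (α : FreeGroup F2) :
    gth psA hA_Fin0 ⟨gA α, gA_mem α⟩ = abX F2 α := by
  have h : (gth psA hA_Fin0).comp (gA.codRestrict gD gA_mem) = abX F2 := by
    refine FreeGroup.ext_hom _ _ fun f => ?_
    rw [abX_of]
    refine (gth_conj psA gpA psA_conj hA_Fin0 (gsA f) _ ?_).trans ?_
    · exact gA_of f
    · rw [gpA_gsA]
  exact DFunLike.congr_fun h α

theorem gth_gB_B (α : FreeGroup F2) :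
    gth psB hB_Fin0 ⟨gB α, gB_mem α⟩ = abX F2 α := by
  have h : (gth psB hB_Fin0).comp (gB.codRestrict gD gB_mem) = abX F2 := by
    refine FreeGroup.ext_hom _ _ fun f => ?_
    rw [abX_of]
    refine (gth_conj psB gpB psB_conj hB_Fin0 (gsB f) _ ?_).trans ?_
    · exact gB_of f
    · rw [gpB_gsB]
  exact DFunLike.congr_fun h α

theorem gth_gA_B (α : FreeGroup F2) :
    gth psB hB_Fin0 ⟨gA α, gA_mem α⟩ = Multiplicative.ofAdd
      (Finsupp.single (1 : F2) (augX F2 (Multiplicative.toAdd (abX F2 α)))) := by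
  have h : (gth psB hB_Fin0).comp (gA.codRestrict gD gA_mem) =
      (AddMonoidHom.toMultiplicative ((Finsupp.singleAddHom (1 : F2)).comp (augX F2))).comp
        (abX F2) := by
    refine FreeGroup.ext_hom _ _ fun f => ?_
    rw [MonoidHom.comp_apply, MonoidHom.comp_apply, abX_of]
    refine (gth_conj psB gpB psB_conj hB_Fin0 (gsA f) _ ?_).trans ?_
    · exact gA_of f
    · rw [gpB_gsA]
      change _ = Multiplicative.ofAdd (Finsupp.single (1 : F2)
        (augX F2 (Finsupp.single f 1)))
      rw [augX_single]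
  exact DFunLike.congr_fun h α

theorem gth_gB_A (α : FreeGroup F2) :
    gth psA hA_Fin0 ⟨gB α, gB_mem α⟩ = Multiplicative.ofAdd
      (Finsupp.single (1 : F2) (augX F2 (Multiplicative.toAdd (abX F2 α)))) := by
  have h : (gth psA hA_Fin0).comp (gB.codRestrict gD gB_mem) =
      (AddMonoidHom.toMultiplicative ((Finsupp.singleAddHom (1 : F2)).comp (augX F2))).comp
        (abX F2) := by
    refine FreeGroup.ext_hom _ _ fun f => ?_
    rw [MonoidHom.comp_apply, MonoidHom.comp_apply, abX_of]
    refine (gth_conj psA gpA psA_conj hA_Fin0 (gsB f) _ ?_).trans ?_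
    · exact gB_of f
    · rw [gpA_gsB]
      change _ = Multiplicative.ofAdd (Finsupp.single (1 : F2)
        (augX F2 (Finsupp.single f 1)))
      rw [augX_single]
  exact DFunLike.congr_fun h α

theorem gN_le_gD : gN ≤ gD := by
  rw [← iInf_eq_gD]
  exact symmetricCommutator_le_iInf _

theorem gth_gN_A (w : gD) (h : (w : GridGroup) ∈ gN) : gth psA hA_Fin0 w = 1 := by
  have h1 : psA (w : GridGroup) = 1 := by
    refine gN_le_ker psA 1 3 (by decide) ?_ ?_ h
    · rw [psA_1]; rfl
    · rw [psA_3]; rfl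
  refine congrArg Multiplicative.ofAdd ?_
  ext q
  change Multiplicative.toAdd ((psA (w : GridGroup)).left q) = 0
  rw [h1]
  rfl

theorem gth_gN_B (w : gD) (h : (w : GridGroup) ∈ gN) : gth psB hB_Fin0 w = 1 := by
  have h1 : psB (w : GridGroup) = 1 := by
    refine gN_le_ker psB 0 2 (by decide) ?_ ?_ h
    · rw [psB_0]; rfl
    · rw [psB_2]; rfl
  refine congrArg Multiplicative.ofAdd ?_
  ext q
  change Multiplicative.toAdd ((psB (w : GridGroup)).left q) = 0
  rw [h1]
  rfl

/-- The coordinates of an element in terms of words. -/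
theorem coords (d : gD) (α β : FreeGroup F2) (h : QuotientGroup.mk' gN (d : GridGroup) =
      QuotientGroup.mk' gN (gA α) * QuotientGroup.mk' gN (gB β)) :
    Multiplicative.toAdd (gth psA hA_Fin0 d) = Multiplicative.toAdd (abX F2 α) +
      Finsupp.single (1 : F2) (augX F2 (Multiplicative.toAdd (abX F2 β))) ∧
    Multiplicative.toAdd (gth psB hB_Fin0 d) =
      Finsupp.single (1 : F2) (augX F2 (Multiplicative.toAdd (abX F2 α))) +
      Multiplicative.toAdd (abX F2 β) := by
  rw [← map_mul] at h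
  have h1 : (gA α * gB β)⁻¹ * (d : GridGroup) ∈ gN := QuotientGroup.eq.1 h.symm
  have h2 : d = ⟨gA α, gA_mem α⟩ * ⟨gB β, gB_mem β⟩ *
      ⟨(gA α * gB β)⁻¹ * (d : GridGroup), gN_le_gD h1⟩ := by
    apply Subtype.ext
    change (d : GridGroup) = gA α * gB β * ((gA α * gB β)⁻¹ * (d : GridGroup))
    group
  constructor
  · rw [h2, map_mul (gth psA hA_Fin0), map_mul (gth psA hA_Fin0), gth_gA_A, gth_gB_A,
      gth_gN_A _ h1, mul_one]
    rfl
  · rw [h2, map_mul (gth psB hB_Fin0), map_mul (gth psB hB_Fin0), gth_gA_B, gth_gB_B,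
      gth_gN_B _ h1, mul_one]
    rfl

theorem gTh_ker (d : gD) (h : gTh d = 1) : (d : GridGroup) ∈ gN := by
  obtain ⟨α, β, hab⟩ := exists_AB (d : GridGroup) d.2
  obtain ⟨h1, h2⟩ := coords d α β hab
  have hA : Multiplicative.toAdd (gth psA hA_Fin0 d) = 0 :=
    congrArg (fun x => (Multiplicative.toAdd x).1) h
  have hB : Multiplicative.toAdd (gth psB hB_Fin0 d) = 0 :=
    congrArg (fun x => (Multiplicative.toAdd x).2) h
  rw [hA] at h1
  rw [hB] at h2
  set a := Multiplicative.toAdd (abX F2 α) with ha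
  set b := Multiplicative.toAdd (abX F2 β) with hb
  have h3 : a = Finsupp.single (1 : F2) (-(augX F2 b)) := by
    rw [Finsupp.single_neg]
    exact eq_neg_of_add_eq_zero_left h1.symm
  have h4 : b = Finsupp.single (1 : F2) (-(augX F2 a)) := by
    rw [Finsupp.single_neg]
    exact eq_neg_of_add_eq_zero_right h2.symm
  have h5 : augX F2 a = -(augX F2 b) := by
    have := congrArg (augX F2) h3
    rwa [augX_single] at this
  -- the words are powers of the trivial letter modulo commutators
  have key : ∀ (γ : FreeGroup F2) (n : ℤ), Multiplicative.toAdd (abX F2 γ) =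
      Finsupp.single (1 : F2) n → γ * (FreeGroup.of 1 ^ n)⁻¹ ∈ commutator (FreeGroup F2) := by
    intro γ n hγ
    refine abX_ker _ ?_
    rw [map_mul, map_inv, map_zpow, abX_of]
    have h6 : abX F2 γ = Multiplicative.ofAdd (Finsupp.single (1 : F2) n) := hγ
    rw [h6, ← ofAdd_zsmul, mul_inv_eq_one]
    congr 1
    simp
  have k1 := gA_comm_mem _ (key α _ h3)
  have k2 := gB_comm_mem _ (key β _ h4)
  rw [map_mul, map_inv, map_zpow, gA_of, map_one, one_mul, inv_one, mul_one] at k1
  rw [map_mul, map_inv, map_zpow, gB_of, map_one, one_mul, inv_one, mul_one] at k2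
  have k3 : QuotientGroup.mk' gN (gA α) = QuotientGroup.mk' gN (gw ^ (-(augX F2 b))) := by
    have : QuotientGroup.mk' gN (gA α * (gw ^ (-(augX F2 b)))⁻¹) = 1 :=
      (QuotientGroup.eq_one_iff _).2 k1
    rwa [map_mul, map_inv, mul_inv_eq_one] at this
  have k4 : QuotientGroup.mk' gN (gB β) = QuotientGroup.mk' gN (gw ^ (-(augX F2 a))) := by
    have : QuotientGroup.mk' gN (gB β * (gw ^ (-(augX F2 a)))⁻¹) = 1 :=
      (QuotientGroup.eq_one_iff _).2 k2
    rwa [map_mul, map_inv, mul_inv_eq_one] at this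
  refine (QuotientGroup.eq_one_iff _).1 ?_
  change QuotientGroup.mk' gN (d : GridGroup) = 1
  rw [hab, k3, k4, ← map_mul, ← zpow_add, h5]
  have : -(augX F2 b) + -(-(augX F2 b)) = 0 := by ring
  rw [this, zpow_zero, map_one]

/-- The pairs of elements of the group rings with equal augmentations. -/
def gK : AddSubgroup ((F2 →₀ ℤ) × (F2 →₀ ℤ)) where
  carrier := {x | (x.1.sum fun _ n => n) = (x.2.sum fun _ n => n)}
  zero_mem' := by simp
  add_mem' := by
    intro x y hx hy
    change augX F2 (x.1 + y.1) = augX F2 (x.2 + y.2)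
    rw [map_add, map_add, show augX F2 x.1 = augX F2 x.2 from hx,
      show augX F2 y.1 = augX F2 y.2 from hy]
  neg_mem' := by
    intro x hx
    change augX F2 (-x.1) = augX F2 (-x.2)
    rw [map_neg, map_neg, show augX F2 x.1 = augX F2 x.2 from hx]

theorem gTh_range : gTh.range = AddSubgroup.toSubgroup gK := by
  ext n
  constructor
  · rintro ⟨d, rfl⟩
    obtain ⟨α, β, hab⟩ := exists_AB (d : GridGroup) d.2
    obtain ⟨h1, h2⟩ := coords d α β hab
    change augX F2 (Multiplicative.toAdd (gth psA hA_Fin0 d)) =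
      augX F2 (Multiplicative.toAdd (gth psB hB_Fin0 d))
    rw [h1, h2, map_add, map_add, augX_single, augX_single]
  · intro hn
    have hn' : augX F2 (Multiplicative.toAdd n).1 = augX F2 (Multiplicative.toAdd n).2 := hn
    obtain ⟨α, hα⟩ := abX_surjective F2 (Multiplicative.ofAdd (Multiplicative.toAdd n).1)
    obtain ⟨β, hβ⟩ := abX_surjective F2 (Multiplicative.ofAdd ((Multiplicative.toAdd n).2 -
      Finsupp.single (1 : F2) (augX F2 (Multiplicative.toAdd n).2)))
    have ha : Multiplicative.toAdd (abX F2 α) = (Multiplicative.toAdd n).1 :=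
      congrArg Multiplicative.toAdd hα
    have hb : Multiplicative.toAdd (abX F2 β) = (Multiplicative.toAdd n).2 -
      Finsupp.single (1 : F2) (augX F2 (Multiplicative.toAdd n).2) :=
      congrArg Multiplicative.toAdd hβ
    let d : gD := ⟨gA α * gB β, mul_mem (gA_mem α) (gB_mem β)⟩
    obtain ⟨h1, h2⟩ := coords d α β (map_mul _ _ _)
    refine ⟨d, ?_⟩
    change Multiplicative.ofAdd (Multiplicative.toAdd (gth psA hA_Fin0 d),
      Multiplicative.toAdd (gth psB hB_Fin0 d)) = n
    rw [h1, h2, ha, hb]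
    have e1 : augX F2 ((Multiplicative.toAdd n).2 -
        Finsupp.single (1 : F2) (augX F2 (Multiplicative.toAdd n).2)) = 0 := by
      rw [map_sub, augX_single, sub_self]
    rw [e1, hn', Finsupp.single_zero, add_zero, add_sub_cancel]
    rfl

/-- The coordinates on the intersection. -/
noncomputable def gThI : (⨅ i, mer gridMer i : Subgroup GridGroup) →*
    Multiplicative ((F2 →₀ ℤ) × (F2 →₀ ℤ)) :=
  gTh.comp (MulEquiv.subgroupCongr iInf_eq_gD).toMonoidHom

theorem gThI_ker : (symmetricCommutator (mer gridMer)).subgroupOf (⨅ i, mer gridMer i) =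
    gThI.ker := by
  ext w
  rw [Subgroup.mem_subgroupOf, MonoidHom.mem_ker]
  constructor
  · intro h
    change gTh (MulEquiv.subgroupCongr iInf_eq_gD w) = 1
    have h1 : ((MulEquiv.subgroupCongr iInf_eq_gD w : gD) : GridGroup) ∈ gN := h
    change Multiplicative.ofAdd (Multiplicative.toAdd (gth psA hA_Fin0 _),
      Multiplicative.toAdd (gth psB hB_Fin0 _)) = 1
    rw [gth_gN_A _ h1, gth_gN_B _ h1]
    rfl
  · intro h
    exact gTh_ker (MulEquiv.subgroupCongr iInf_eq_gD w) h

theorem gThI_range : gThI.range = AddSubgroup.toSubgroup gK := by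
  rw [← gTh_range]
  ext n
  constructor
  · rintro ⟨w, rfl⟩
    exact ⟨_, rfl⟩
  · rintro ⟨w, rfl⟩
    refine ⟨(MulEquiv.subgroupCongr iInf_eq_gD).symm w, ?_⟩
    change gTh (MulEquiv.subgroupCongr iInf_eq_gD ((MulEquiv.subgroupCongr iInf_eq_gD).symm w)) = _
    rw [MulEquiv.apply_symm_apply]

/-- The group `G(L)` of the grid link. -/
noncomputable def gridEquiv : LinkQuotient gridMer ≃* Multiplicative gK :=
  ((QuotientGroup.quotientMulEquivOfEq gThI_ker).trans
    (QuotientGroup.quotientKerEquivRange gThI)).trans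
      (MulEquiv.subgroupCongr gThI_range)

end Pool.Agent.Lib.MP_a6d6d3_gt
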