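import Pool.Agent.Lib.MP_a6d6d3_gt.Retract

/-!
Normal closures of meridians and retractions coming from meridional sections.
-/

namespace Pool.Agent.Lib.MP_a6d6d3_gt

open Subgroup
open scoped commutatorElement

set_option linter.unusedSectionVars false
set_option linter.style.haveILetI false

section
variable {G : Type*} [Group G]

/-- A homomorphism `p` moving every element inside its coset of `B` and fixing a set of normal
generators of `A` modulo `[A, B]` fixes `A` modulo `[A, B]`. -/
theorem retraction_agree (A B : Subgroup G) [hA : A.Normal] [hB : B.Normal] (Y : Set G)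
    (hY : A = Subgroup.normalClosure Y) (p : G →* G) (h1 : ∀ g, g⁻¹ * p g ∈ B)
    (h2 : ∀ y ∈ Y, y⁻¹ * p y ∈ ⁅A, B⁆) : ∀ a ∈ A, a⁻¹ * p a ∈ ⁅A, B⁆ := by
  have hle : A ≤ agree p ⁅A, B⁆ := by
    refine hY.le.trans ?_
    rw [Subgroup.normalClosure, Subgroup.closure_le]
    intro x hx
    rw [Group.mem_conjugatesOfSet_iff] at hx
    obtain ⟨y, hy, hxy⟩ := hx
    rw [isConj_iff] at hxy
    obtain ⟨g, rfl⟩ := hxy
    have hyA : y ∈ A := by rw [hY]; exact Subgroup.subset_normalClosure hy
    change QuotientGroup.mk' ⁅A, B⁆ (p (g * y * g⁻¹)) = QuotientGroup.mk' ⁅A, B⁆ (g * y * g⁻¹)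
    set q := QuotientGroup.mk' ⁅A, B⁆ with hq
    have e1 : q (p g) = q g * q (g⁻¹ * p g) := by
      rw [← map_mul]; congr 1; group
    have e2 : q (p y) = q y := by
      have := (mem_agree p ⁅A, B⁆ y).2 (h2 y hy)
      exact this
    have e3 : Commute (q y) (q (g⁻¹ * p g)) :=
      (commutator_le_iff_map A B _).1 le_rfl y hyA _ (h1 g)
    simp only [map_mul, map_inv] at e1 e3 ⊢
    rw [e2]
    set r := (q g)⁻¹ * q (p g) with hr
    have e4 : q (p g) = q g * r := by rw [hr]; group
    rw [e4]
    have e5 : r * q y * r⁻¹ = q y := by rw [← e3.eq]; group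
    calc q g * r * q y * (q g * r)⁻¹ = q g * (r * q y * r⁻¹) * (q g)⁻¹ := by group
      _ = _ := by rw [e5]
  intro a ha
  exact (mem_agree p _ a).1 (hle ha)

variable {ι : Type*}

/-- The normal closure `R_i` of the `i`-th meridian. -/
def mer (m : ι → G) (i : ι) : Subgroup G := Subgroup.normalClosure {m i}

instance (m : ι → G) (i : ι) : (mer m i).Normal := by unfold mer; infer_instance

/-- The projection `G → G / R_k` has a section carrying the image of each meridian `m_j`, `j ≠ k`,
to a conjugate of `m_j`. -/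
def MeridionalSection (m : ι → G) (k : ι) : Prop :=
  ∃ s : G ⧸ mer m k →* G, (∀ a, (QuotientGroup.mk' (mer m k)) (s a) = a) ∧
    ∀ j, j ≠ k → IsConj (m j) (s (QuotientGroup.mk' (mer m k) (m j)))

/-- `G / R_k` is free on the images of conjugates of the meridians `m_j`, `j ≠ k`. -/
def TrivialSublink (m : ι → G) (k : ι) : Prop :=
  ∃ b : {j // j ≠ k} → G, (∀ j : {j // j ≠ k}, IsConj (m j.1) (b j)) ∧
    Function.Bijective (FreeGroup.lift fun j => QuotientGroup.mk' (mer m k) (b j))

theorem mer_eq_of_isConj (m : ι → G) (i : ι) (y : G) (h : IsConj (m i) y) :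
    mer m i = Subgroup.normalClosure {y} := by
  obtain ⟨c, hc⟩ := isConj_iff.1 h
  refine le_antisymm ?_ ?_
  · refine Subgroup.normalClosure_le_normal ?_
    rw [Set.singleton_subset_iff]
    have h1 : y ∈ Subgroup.normalClosure {y} := Subgroup.subset_normalClosure rfl
    have h2 := (inferInstance : (Subgroup.normalClosure {y}).Normal).conj_mem y h1 c⁻¹
    have : c⁻¹ * y * c⁻¹⁻¹ = m i := by rw [← hc]; group
    rw [this] at h2
    exact h2
  · refine Subgroup.normalClosure_le_normal ?_
    rw [Set.singleton_subset_iff]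
    have h1 : m i ∈ mer m i := Subgroup.subset_normalClosure rfl
    rw [← hc]
    exact (inferInstance : (mer m i).Normal).conj_mem _ h1 c

theorem MeridionalSection.of_trivialSublink (m : ι → G) (k : ι) (h : TrivialSublink m k) :
    MeridionalSection m k := by
  classical
  obtain ⟨b, hb, hbij⟩ := h
  let e : FreeGroup {j // j ≠ k} ≃* G ⧸ mer m k := MulEquiv.ofBijective _ hbij
  let f : FreeGroup {j // j ≠ k} →* G := FreeGroup.lift b
  have hf : ∀ x, QuotientGroup.mk' (mer m k) (f x) = e x := by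
    intro x
    have : (QuotientGroup.mk' (mer m k)).comp f = e.toMonoidHom := by
      ext j
      simp [f, e]
    exact DFunLike.congr_fun this x
  refine ⟨f.comp e.symm.toMonoidHom, ?_, ?_⟩
  · intro a
    change QuotientGroup.mk' (mer m k) (f (e.symm a)) = a
    rw [hf]
    simp
  · intro j hj
    -- the image of `m j` is conjugate to the basis element
    have h1 : IsConj (QuotientGroup.mk' (mer m k) (m j)) (QuotientGroup.mk' (mer m k)
        (b ⟨j, hj⟩)) := MonoidHom.map_isConj _ (hb ⟨j, hj⟩)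
    have h2 : e.symm (QuotientGroup.mk' (mer m k) (b ⟨j, hj⟩)) = FreeGroup.of ⟨j, hj⟩ := by
      rw [MulEquiv.symm_apply_eq, ← hf]
      simp [f]
    have h3 : IsConj (f (e.symm (QuotientGroup.mk' (mer m k) (m j))))
        (f (e.symm (QuotientGroup.mk' (mer m k) (b ⟨j, hj⟩)))) := by
      exact MonoidHom.map_isConj f (MonoidHom.map_isConj e.symm.toMonoidHom h1)
    rw [h2] at h3
    have h4 : f (FreeGroup.of ⟨j, hj⟩) = b ⟨j, hj⟩ := by simp [f]
    rw [h4] at h3
    exact (hb ⟨j, hj⟩).trans h3.symm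

/-- The retraction given by a meridional section. -/
theorem MeridionalSection.exists_retraction (m : ι → G) (k : ι) (h : MeridionalSection m k) :
    ∃ p : G →* G, (∀ a ∈ mer m k, p a = 1) ∧ (∀ g, g⁻¹ * p g ∈ mer m k) ∧
      ∀ j, j ≠ k → ∀ a ∈ mer m j, a⁻¹ * p a ∈ ⁅mer m j, mer m k⁆ := by
  obtain ⟨s, hs, hc⟩ := h
  have h1 : ∀ g, g⁻¹ * (s.comp (QuotientGroup.mk' (mer m k))) g ∈ mer m k := by
    intro g
    refine QuotientGroup.eq.1 ?_
    change QuotientGroup.mk' (mer m k) g = QuotientGroup.mk' (mer m k) (s _)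
    rw [hs]
  refine ⟨s.comp (QuotientGroup.mk' (mer m k)), ?_, h1, ?_⟩
  · intro a ha
    have : QuotientGroup.mk' (mer m k) a = 1 := (QuotientGroup.eq_one_iff a).2 ha
    rw [MonoidHom.comp_apply, this, map_one]
  · intro j hj
    refine retraction_agree (mer m j) (mer m k) {s (QuotientGroup.mk' (mer m k) (m j))}
      (mer_eq_of_isConj m j _ (hc j hj)) _ h1 ?_
    intro y hy
    rw [Set.mem_singleton_iff] at hy
    subst hy
    rw [MonoidHom.comp_apply, hs, inv_mul_cancel]
    exact one_mem _

end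

end Pool.Agent.Lib.MP_a6d6d3_gt
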