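import Pool.Agent.Lib.MP_a6d6d3_gt.Comm

/-!
The retraction argument: intersections of normal subgroups and symmetric commutator products.
-/

namespace Pool.Agent.Lib.MP_a6d6d3_gt

open Subgroup
open scoped commutatorElement

set_option linter.unusedSectionVars false
set_option linter.style.haveILetI false

section
variable {G : Type*} [Group G] {ι : Type*} [DecidableEq ι]

theorem comm_calc (a c s t : G) (h1 : Commute s (a * t)) (h2 : Commute t c) :
    ⁅c * s, a * t⁆ = ⁅c, a⁆ := by
  have e1 : s * (a * t) * s⁻¹ = a * t := by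
    rw [h1.eq]; group
  have e2 : t * c⁻¹ * t⁻¹ = c⁻¹ := by
    have := h2.inv_right
    rw [this.eq]; group
  calc ⁅c * s, a * t⁆ = c * (s * (a * t) * s⁻¹) * c⁻¹ * (a * t)⁻¹ := by
        rw [commutatorElement_def]; group
    _ = c * (a * t) * c⁻¹ * (a * t)⁻¹ := by rw [e1]
    _ = c * a * (t * c⁻¹ * t⁻¹) * a⁻¹ := by group
    _ = c * a * c⁻¹ * a⁻¹ := by rw [e2]
    _ = ⁅c, a⁆ := by rw [commutatorElement_def]

/-- The elements `w` with `w⁻¹ p(w) ∈ N` form a subgroup. -/
def agree (p : G →* G) (N : Subgroup G) [N.Normal] : Subgroup G :=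
  MonoidHom.eqLocus ((QuotientGroup.mk' N).comp p) (QuotientGroup.mk' N)

theorem mem_agree (p : G →* G) (N : Subgroup G) [N.Normal] (w : G) :
    w ∈ agree p N ↔ w⁻¹ * p w ∈ N := by
  change QuotientGroup.mk' N (p w) = QuotientGroup.mk' N w ↔ _
  rw [eq_comm]
  exact QuotientGroup.eq

/-- The commutator of the symmetric commutator product over `I` with `R j`, `j ∉ I`. -/
theorem ss_comm_le (R : ι → Subgroup G) [h : ∀ i, (R i).Normal] (I : Finset ι) (hI : I.Nonempty)
    (j : ι) (hj : j ∉ I) : ⁅ss R I, R j⁆ ≤ ss R (insert j I) := by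
  haveI := ss_normal R (insert j I)
  refine iSup_commutator_le _ _ _ ?_
  rintro ⟨l, hl1, hl2⟩
  have hne : l ≠ [] := by
    rintro rfl
    simp at hl2
    exact hI.ne_empty hl2.symm
  have hjl : j ∉ l := by
    rw [← List.mem_toFinset, hl2]; exact hj
  change ⁅cc R l, R j⁆ ≤ _
  rw [← cc_snoc R l hne j]
  refine cc_le_ss R _ _ ?_ ?_
  · rw [List.nodup_append]
    refine ⟨hl1, List.nodup_singleton j, ?_⟩
    intro a ha b hb hab
    rw [List.mem_singleton] at hb
    subst hb
    subst hab
    exact hjl ha
  · ext x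
    simp [← hl2]

theorem nodup_snoc (l : List ι) (j : ι) (h1 : l.Nodup) (h2 : j ∉ l) : (l ++ [j]).Nodup := by
  rw [List.nodup_append]
  refine ⟨h1, List.nodup_singleton j, ?_⟩
  intro a ha b hb hab
  rw [List.mem_singleton] at hb
  subst hb
  subst hab
  exact h2 ha

/-- The key lemma: a retraction `p` killing `R k` and agreeing with the identity on `R j` up to
`[R j, R k]` agrees with the identity on the left-normed commutator subgroups up to the symmetric
commutator product with `R k`. -/
theorem cc_le_agree (R : ι → Subgroup G) [h : ∀ i, (R i).Normal] (k : ι) (p : G →* G)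
    (l : List ι) (hb : ∀ j ∈ l, ∀ a ∈ R j, a⁻¹ * p a ∈ ⁅R j, R k⁆)
    (hne : l ≠ []) (hnd : l.Nodup) (hk : k ∉ l) :
    ∀ c ∈ cc R l, c⁻¹ * p c ∈ ss R (insert k l.toFinset) := by
  induction l using List.reverseRecOn with
  | nil => exact absurd rfl hne
  | append_singleton l j ih =>
    have hjk : j ≠ k := by
      rintro rfl
      exact hk (by simp)
    have hkl : k ∉ l := fun hh => hk (by simp [hh])
    have hjl : j ∉ l := by
      intro hh
      rw [List.nodup_append] at hnd
      exact hnd.2.2 j hh j (by simp) rfl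
    have hnl : l.Nodup := (List.nodup_append.1 hnd).1
    by_cases hl : l = []
    · subst hl
      intro c hc
      simp only [List.nil_append, cc_single] at hc
      have h1 := hb j (by simp) c hc
      refine (?_ : ⁅R j, R k⁆ ≤ _) h1
      have h2 : cc R ([j] ++ [k]) = ⁅R j, R k⁆ := by
        rw [cc_snoc R [j] (by simp) k, cc_single]
      rw [← h2]
      refine cc_le_ss R _ _ (nodup_snoc _ _ (List.nodup_singleton j) (by simp [hjk.symm])) ?_
      ext x
      simp
      tauto
    · have ih' := ih (fun j hj => hb j (by simp [hj])) hl hnl hkl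
      haveI hN : (ss R (insert k (l ++ [j]).toFinset)).Normal := ss_normal R _
      haveI hcc : (cc R l).Normal := cc_normal R l
      -- the commutators of the previous corrections with `R j`
      have hs : ⁅ss R (insert k l.toFinset), R j⁆ ≤ ss R (insert k (l ++ [j]).toFinset) := by
        have h1 := ss_comm_le R (insert k l.toFinset) (Finset.insert_nonempty _ _) j (by
          simp [hjk, hjl])
        refine h1.trans (le_of_eq ?_)
        congr 1
        ext x
        simp
        tauto
      have ht : ⁅⁅R j, R k⁆, cc R l⁆ ≤ ss R (insert k (l ++ [j]).toFinset) := by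
        refine three_subgroups (R j) (R k) (cc R l) _ ?_ ?_
        · rw [commutator_comm (R k) (cc R l), ← cc_snoc R l hl k,
            ← cc_snoc R (l ++ [k]) (by simp) j]
          refine cc_le_ss R _ _ (nodup_snoc _ _ (nodup_snoc _ _ hnl hkl) ?_) ?_
          · simp [hjk, hjl]
          · ext x
            simp
        · rw [← cc_snoc R l hl j, ← cc_snoc R (l ++ [j]) (by simp) k]
          refine cc_le_ss R _ _ (nodup_snoc _ _ hnd hk) ?_
          ext x
          simp
          tauto
      intro c hc
      rw [← mem_agree p]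
      revert c
      change cc R (l ++ [j]) ≤ _
      rw [cc_snoc R l hl j, commutator_le]
      intro c hc a ha
      have hs1 := ih' c hc
      have ht1 := hb j (by simp) a ha
      change QuotientGroup.mk' _ (p ⁅c, a⁆) = QuotientGroup.mk' _ ⁅c, a⁆
      set q := QuotientGroup.mk' (ss R (insert k (l ++ [j]).toFinset)) with hq
      rw [map_commutatorElement p, map_commutatorElement q, map_commutatorElement q]
      have e1 : q (p c) = q c * q (c⁻¹ * p c) := by
        rw [← map_mul]; congr 1; group
      have e2 : q (p a) = q a * q (a⁻¹ * p a) := by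
        rw [← map_mul]; congr 1; group
      rw [e1, e2]
      refine comm_calc _ _ _ _ ?_ ?_
      · rw [← map_mul]
        refine (commutator_le_iff_map _ _ _).1 hs _ hs1 _ ?_
        exact mul_mem ha ((commutator_le_left (R j) (R k)) ht1)
      · exact (commutator_le_iff_map _ _ _).1 ht _ ht1 _ hc

theorem ss_le_agree (R : ι → Subgroup G) [h : ∀ i, (R i).Normal] (k : ι) (p : G →* G)
    (I : Finset ι) (hI : I.Nonempty) (hk : k ∉ I)
    (hb : ∀ j ∈ I, ∀ a ∈ R j, a⁻¹ * p a ∈ ⁅R j, R k⁆) :
    ∀ c ∈ ss R I, c⁻¹ * p c ∈ ss R (insert k I) := by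
  haveI hN : (ss R (insert k I)).Normal := ss_normal R _
  have hle : ss R I ≤ agree p (ss R (insert k I)) := by
    refine ss_le R _ _ ?_
    intro l hl1 hl2 c hc
    rw [mem_agree]
    have hne : l ≠ [] := by
      rintro rfl
      rw [← hl2] at hI
      simp at hI
    have hkl : k ∉ l := by
      rw [← List.mem_toFinset, hl2]; exact hk
    have := cc_le_agree R k p l
      (fun j hj => hb j (by rw [← hl2]; exact List.mem_toFinset.2 hj)) hne hl1 hkl c hc
    rwa [hl2] at this
  intro c hc
  exact (mem_agree p _ c).1 (hle hc)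

theorem cc_le_erase (R : ι → Subgroup G) [h : ∀ i, (R i).Normal] (k : ι) (l : List ι)
    (hnd : l.Nodup) (hk : k ∈ l) (hne : l.erase k ≠ []) : cc R l ≤ cc R (l.erase k) := by
  induction l using List.reverseRecOn with
  | nil => simp at hk
  | append_singleton l j ih =>
    have hnl : l.Nodup := (List.nodup_append.1 hnd).1
    have hjl : j ∉ l := by
      intro hh
      rw [List.nodup_append] at hnd
      exact hnd.2.2 j hh j (by simp) rfl
    by_cases hkl : k ∈ l
    · have hl : l ≠ [] := List.ne_nil_of_mem hkl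
      rw [List.erase_append_left _ hkl] at hne ⊢
      rw [cc_snoc R l hl j]
      haveI := cc_normal R l
      by_cases hle : l.erase k = []
      · rw [hle, List.nil_append, cc_single]
        exact commutator_le_right _ _
      · rw [cc_snoc R _ hle j]
        exact commutator_mono (ih hnl hkl hle) le_rfl
    · have hkj : k = j := by
        rw [List.mem_append, List.mem_singleton] at hk
        tauto
      subst hkj
      rw [List.erase_append_right _ hkl] at hne ⊢
      simp only [List.erase_cons_head, List.append_nil] at hne ⊢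
      rw [cc_snoc R l hne k]
      haveI := cc_normal R l
      exact commutator_le_left _ _

theorem ss_insert_le (R : ι → Subgroup G) [h : ∀ i, (R i).Normal] (k : ι)
    (I : Finset ι) (hI : I.Nonempty) (hk : k ∉ I) : ss R (insert k I) ≤ ss R I ⊓ R k := by
  refine ss_le R _ _ ?_
  intro l hl1 hl2
  have hkl : k ∈ l := by
    rw [← List.mem_toFinset, hl2]; simp
  have h1 : (l.erase k).toFinset = I := by
    ext x
    rw [List.mem_toFinset, hl1.mem_erase_iff, ← List.mem_toFinset, hl2, Finset.mem_insert]
    constructor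
    · rintro ⟨h1, h2⟩
      exact h2.resolve_left h1
    · intro h1
      exact ⟨fun h2 => hk (h2 ▸ h1), Or.inr h1⟩
  refine le_inf ?_ (cc_le R l k hkl)
  refine (cc_le_erase R k l hl1 hkl ?_).trans (cc_le_ss R I _ (hl1.erase k) h1)
  intro h2
  rw [h2] at h1
  rw [← h1] at hI
  simp at hI

/-- The retraction identity: the symmetric commutator product over `I` and `k` is the intersection
of the one over `I` with `R k`. -/
theorem ss_insert_eq (R : ι → Subgroup G) [h : ∀ i, (R i).Normal] (k : ι) (p : G →* G)
    (I : Finset ι) (hI : I.Nonempty) (hk : k ∉ I) (hp : ∀ a ∈ R k, p a = 1)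
    (hb : ∀ j ∈ I, ∀ a ∈ R j, a⁻¹ * p a ∈ ⁅R j, R k⁆) :
    ss R (insert k I) = ss R I ⊓ R k := by
  refine le_antisymm (ss_insert_le R k I hI hk) ?_
  rintro w ⟨hw1, hw2⟩
  have := ss_le_agree R k p I hI hk hb w hw1
  rw [hp w hw2, mul_one] at this
  exact inv_mem_iff.1 this

/-- The intersection is contained in the symmetric commutator product, for every nonempty set of
indices, as soon as retractions exist for all indices but one. -/
theorem iInf_le_ss (R : ι → Subgroup G) [h : ∀ i, (R i).Normal] (k₀ : ι)
    (hp : ∀ k, k ≠ k₀ → ∃ p : G →* G, (∀ a ∈ R k, p a = 1) ∧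
      ∀ j, j ≠ k → ∀ a ∈ R j, a⁻¹ * p a ∈ ⁅R j, R k⁆)
    (N : ℕ) : ∀ I : Finset ι, I.card = N + 1 → ∀ w, (∀ i ∈ I, w ∈ R i) → w ∈ ss R I := by
  induction N with
  | zero =>
    intro I hI w hw
    rw [zero_add, Finset.card_eq_one] at hI
    obtain ⟨i, rfl⟩ := hI
    refine cc_le_ss R _ [i] (List.nodup_singleton i) (by simp) ?_
    rw [cc_single]
    exact hw i (by simp)
  | succ N ih =>
    intro I hI w hw
    obtain ⟨k, hkI, hk0⟩ : ∃ k ∈ I, k ≠ k₀ := by
      by_contra hcon
      push Not at hcon
      have : I ⊆ {k₀} := fun x hx => by simpa using hcon x hx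
      have := Finset.card_le_card this
      rw [Finset.card_singleton, hI] at this
      omega
    obtain ⟨p, hp1, hp2⟩ := hp k hk0
    have hJ : (I.erase k).card = N + 1 := by
      rw [Finset.card_erase_of_mem hkI, hI]; rfl
    have hwJ := ih (I.erase k) hJ w (fun i hi => hw i (Finset.mem_of_mem_erase hi))
    haveI hN : (ss R I).Normal := ss_normal R I
    have hle : ss R (I.erase k) ≤ agree p (ss R I) := by
      refine ss_le R _ _ ?_
      intro l hl1 hl2 c hc
      rw [mem_agree]
      have hne : l ≠ [] := by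
        rintro rfl
        rw [← hl2] at hJ
        simp at hJ
      have hkl : k ∉ l := by
        rw [← List.mem_toFinset, hl2]; simp
      have := cc_le_agree R k p l (fun j hj => hp2 j (by rintro rfl; exact hkl hj)) hne hl1 hkl
        c hc
      rwa [hl2, Finset.insert_erase hkI] at this
    have := hle hwJ
    rw [mem_agree, hp1 w (hw k hkI), mul_one] at this
    exact inv_mem_iff.1 this

theorem leftNormed_ofFn {n : ℕ} (R : Fin n → Subgroup G) (σ : Equiv.Perm (Fin n)) :
    leftNormed (List.ofFn fun i => R (σ i)) = cc R (List.ofFn σ) := by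
  unfold cc
  rw [List.map_ofFn]
  rfl

theorem ss_univ_le {n : ℕ} (R : Fin n → Subgroup G) :
    ss R Finset.univ ≤ symmetricCommutator R := by
  refine ss_le R _ _ ?_
  intro l hl1 hl2
  have hlen : l.length = n := by
    rw [← List.toFinset_card_of_nodup hl1, hl2, Finset.card_univ, Fintype.card_fin]
  have hinj : Function.Injective (fun i : Fin n => l.get (Fin.cast hlen.symm i)) :=
    (List.nodup_iff_injective_get.1 hl1).comp (Fin.cast_injective _)
  let σ : Equiv.Perm (Fin n) :=
    Equiv.ofBijective (fun i => l.get (Fin.cast hlen.symm i))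
      (Finite.injective_iff_bijective.1 hinj)
  have h1 : List.ofFn σ = l := by
    apply List.ext_get
    · simp [hlen]
    · intro i h1 h2
      simp [σ]
  refine le_trans (le_of_eq ?_) (le_iSup
    (fun σ : Equiv.Perm (Fin n) => leftNormed (List.ofFn fun i => R (σ i))) σ)
  rw [leftNormed_ofFn, h1]

theorem symmetricCommutator_le {n : ℕ} (R : Fin n → Subgroup G) [h : ∀ i, (R i).Normal]
    (i : Fin n) : symmetricCommutator R ≤ R i := by
  refine iSup_le fun σ => ?_
  rw [leftNormed_ofFn]
  refine cc_le R _ i ?_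
  rw [List.mem_ofFn]
  exact ⟨σ.symm i, by simp⟩

/-- The intersection equals the symmetric commutator product. -/
theorem iInf_eq_symmetricCommutator {n : ℕ} (R : Fin n → Subgroup G) [h : ∀ i, (R i).Normal]
    (k₀ : Fin n)
    (hp : ∀ k, k ≠ k₀ → ∃ p : G →* G, (∀ a ∈ R k, p a = 1) ∧
      ∀ j, j ≠ k → ∀ a ∈ R j, a⁻¹ * p a ∈ ⁅R j, R k⁆) :
    ⨅ i, R i = symmetricCommutator R := by
  refine le_antisymm ?_ (le_iInf fun i => symmetricCommutator_le R i)
  intro w hw
  rw [Subgroup.mem_iInf] at hw
  refine ss_univ_le R ?_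
  obtain ⟨N, hN⟩ : ∃ N, n = N + 1 := ⟨n - 1, by have := k₀.2; omega⟩
  refine iInf_le_ss R k₀ hp N Finset.univ ?_ w (fun i _ => hw i)
  rw [Finset.card_univ, Fintype.card_fin, hN]

end

end Pool.Agent.Lib.MP_a6d6d3_gt
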