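import Pool.Agent.Lib.MP_a6d6d3_gt.Wreath

/-!
Split unions: the group `G(L)` of a split union `L₀ ⊔ L₁` with `G(L₀)` nontrivial is not
finitely generated.
-/

namespace Pool.Agent.Lib.MP_a6d6d3_gt

open Subgroup
open scoped commutatorElement

set_option linter.unusedSectionVars false
set_option linter.style.haveILetI false

section
variable {A Q D : Type*} [Group A] [Group Q] [Group D]

/-- The meridians of a split union: the group is the free product. -/
def splitUnion {p r : ℕ} (m : Fin p → A) (t : Fin r → Q) : Fin (p + r) → Monoid.Coprod A Q :=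
  Fin.append (fun i => Monoid.Coprod.inl (m i)) (fun j => Monoid.Coprod.inr (t j))

/-- The homomorphism to the wreath product. -/
noncomputable def toWreath (A : Type*) [Group A] (δ : Q →* D) : Monoid.Coprod A Q →* A ≀ᵣ D :=
  Monoid.Coprod.lift wbase (RegularWreathProduct.inl.comp δ)

theorem toWreath_inl (δ : Q →* D) (a : A) :
    toWreath A δ (Monoid.Coprod.inl a) = wbase a := by
  simp [toWreath]

theorem toWreath_inr (δ : Q →* D) (q : Q) :
    toWreath A δ (Monoid.Coprod.inr q) = RegularWreathProduct.inl (δ q) := by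
  simp [toWreath]

theorem toWreath_mem_fsupp (δ : Q →* D) (x : Monoid.Coprod A Q) :
    toWreath A δ x ∈ fsupp A D := by
  induction x using Monoid.Coprod.induction_on with
  | inl a => rw [toWreath_inl]; exact wbase_mem_fsupp a
  | inr q => rw [toWreath_inr]; exact winl_mem_fsupp _
  | mul x y hx hy => rw [map_mul]; exact mul_mem hx hy

theorem wbase_mem_pw (N : Subgroup A) (a : A) (ha : a ∈ N) : (wbase a : A ≀ᵣ D) ∈ pw D N := by
  classical
  refine ⟨rfl, fun q => ?_⟩
  rw [wbase_left]
  split_ifs
  · exact ha
  · exact one_mem _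

variable {p r : ℕ}

theorem mer_split_le (δ : Q →* D) (m : Fin p → A) (t : Fin r → Q) (i : Fin p) :
    mer (splitUnion m t) (Fin.castAdd r i) ≤ (pw D (mer m i)).comap (toWreath A δ) := by
  haveI : ((pw D (mer m i)).comap (toWreath A δ)).Normal := inferInstance
  refine Subgroup.normalClosure_le_normal ?_
  rw [Set.singleton_subset_iff]
  change toWreath A δ (splitUnion m t (Fin.castAdd r i)) ∈ pw D (mer m i)
  rw [splitUnion, Fin.append_left, toWreath_inl]
  exact wbase_mem_pw _ _ (Subgroup.subset_normalClosure rfl)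

theorem ss_mono {G ι : Type*} [Group G] [DecidableEq ι] (R : ι → Subgroup G)
    [h : ∀ i, (R i).Normal] (I J : Finset ι) (hI : I.Nonempty) (hIJ : I ⊆ J) :
    ss R J ≤ ss R I := by
  have key : ∀ K : Finset ι, Disjoint K I → ss R (K ∪ I) ≤ ss R I := by
    intro K
    induction K using Finset.induction_on with
    | empty => intro _; simp
    | insert k K hk ih =>
      intro hd
      rw [Finset.disjoint_insert_left] at hd
      rw [Finset.insert_union]
      have h1 : k ∉ K ∪ I := by
        rw [Finset.mem_union]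
        tauto
      have h2 : (K ∪ I).Nonempty := hI.mono Finset.subset_union_right
      exact ((ss_insert_le R k (K ∪ I) h2 h1).trans inf_le_left).trans (ih hd.2)
  have h3 := key (J \ I) Finset.sdiff_disjoint
  rwa [Finset.sdiff_union_of_subset hIJ] at h3

/-- The symmetric commutator product of the split union maps to the symmetric commutator product of
the first link, coordinatewise. -/
theorem sym_split_le (δ : Q →* D) (m : Fin (p + 1) → A) (t : Fin r → Q) :
    symmetricCommutator (mer (splitUnion m t)) ≤
      (pw D (symmetricCommutator (mer m))).comap (toWreath A δ) := by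
  have h1 : symmetricCommutator (mer (splitUnion m t)) ≤
      symmetricCommutator (fun i => mer (splitUnion m t) (Fin.castAdd r i)) := by
    rw [symmetricCommutator_eq_ss, symmetricCommutator_comp (mer (splitUnion m t))
      (fun i => Fin.castAdd r i) (Fin.castAdd_injective _ _)
      (Finset.univ.image (fun i => Fin.castAdd r i)) (by simp)]
    refine ss_mono _ _ _ ?_ (Finset.subset_univ _)
    exact ⟨Fin.castAdd r 0, by simp⟩
  refine h1.trans (iSup_le fun σ => ?_)
  rw [leftNormed_ofFn' (fun i => mer (splitUnion m t) (Fin.castAdd r i)) σ]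
  refine (cc_le_pw (toWreath A δ) _ (mer m) _ (fun i _ => mer_split_le δ m t i) ?_).trans ?_
  · intro h
    have := congrArg List.length h
    simp at this
  · refine Subgroup.comap_mono (pw_mono ?_)
    rw [symmetricCommutator_eq_ss]
    refine cc_le_ss _ _ _ ?_ ?_
    · rw [List.nodup_ofFn]; exact σ.injective
    · ext x
      simp only [List.mem_toFinset, List.mem_ofFn, Finset.mem_univ, iff_true]
      exact σ.surjective x

theorem linkQuotient_exists (m : Fin p → A) (h : ¬ Subsingleton (LinkQuotient m)) :
    ∃ w, w ∈ (⨅ i, mer m i) ∧ w ∉ symmetricCommutator (mer m) := by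
  by_contra hcon
  push Not at hcon
  apply h
  have h1 : (symmetricCommutator (mer m)).subgroupOf (⨅ i, mer m i) = ⊤ :=
    Subgroup.subgroupOf_eq_top.2 hcon
  unfold LinkQuotient
  rw [h1]
  exact QuotientGroup.subsingleton_quotient_top

theorem exists_deep (δ : Q →* Multiplicative ℤ) (m : Fin p → A) (t : Fin (r + 1) → Q)
    (hδ : ∀ j, δ (t j) = Multiplicative.ofAdd 1) (w₀ : A) (hw : ∀ i, w₀ ∈ mer m i) (k : ℤ)
    (J : Finset (Fin (r + 1))) :
    ∃ w, (∀ i, w ∈ mer (splitUnion m t) (Fin.castAdd (r + 1) i)) ∧
      (∀ j ∈ J, w ∈ mer (splitUnion m t) (Fin.natAdd p j)) ∧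
      (toWreath A δ w).right = 1 ∧
      (∀ z < k, (toWreath A δ w).left (Multiplicative.ofAdd z) = 1) ∧
      (toWreath A δ w).left (Multiplicative.ofAdd k) = w₀ := by
  classical
  induction J using Finset.induction_on with
  | empty =>
    have e : ∀ z : ℤ, ((toWreath A δ) (Monoid.Coprod.inr (t 0 ^ k) * Monoid.Coprod.inl w₀ *
        (Monoid.Coprod.inr (t 0 ^ k))⁻¹)).left (Multiplicative.ofAdd z) =
          if z = k then w₀ else 1 := by
      intro z
      rw [map_mul, map_mul, map_inv, toWreath_inr, toWreath_inl, map_zpow, hδ]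
      simp only [RegularWreathProduct.mul_left, RegularWreathProduct.inv_left, Pi.mul_apply,
        RegularWreathProduct.left_inl, RegularWreathProduct.right_inl, Pi.one_apply, one_mul,
        inv_one, mul_one, wbase_left]
      have h1 : ((Multiplicative.ofAdd (1 : ℤ) ^ k)⁻¹ * Multiplicative.ofAdd z = 1) ↔ z = k := by
        rw [← ofAdd_zsmul, inv_mul_eq_one]
        simp [eq_comm]
      simp only [h1]
    refine ⟨Monoid.Coprod.inr (t 0 ^ k) * Monoid.Coprod.inl w₀ *
      (Monoid.Coprod.inr (t 0 ^ k))⁻¹, ?_, by simp, ?_, ?_, ?_⟩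
    · intro i
      have hn : (mer (splitUnion m t) (Fin.castAdd (r + 1) i)).Normal := inferInstance
      refine hn.conj_mem _ ?_ _
      have h1 : mer m i ≤ (mer (splitUnion m t) (Fin.castAdd (r + 1) i)).comap
          Monoid.Coprod.inl := by
        haveI := hn
        refine Subgroup.normalClosure_le_normal ?_
        rw [Set.singleton_subset_iff]
        change (Monoid.Coprod.inl (m i) : Monoid.Coprod A Q) ∈
          mer (splitUnion m t) (Fin.castAdd (r + 1) i)
        have h2 : (Monoid.Coprod.inl (m i) : Monoid.Coprod A Q) =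
            splitUnion m t (Fin.castAdd (r + 1) i) := by
          rw [splitUnion, Fin.append_left]
        rw [h2]
        exact Subgroup.subset_normalClosure rfl
      exact h1 (hw i)
    · rw [map_mul, map_mul, map_inv, toWreath_inr, toWreath_inl]
      simp [wbase_right]
    · intro z hz
      rw [e, if_neg hz.ne]
    · rw [e, if_pos rfl]
  | insert j J hj ih =>
    obtain ⟨w, h1, h2, h3, h4, h5⟩ := ih
    have e : ∀ z : ℤ, ((toWreath A δ) (w * (Monoid.Coprod.inr (t j) * w⁻¹ *
        (Monoid.Coprod.inr (t j))⁻¹))).left (Multiplicative.ofAdd z) =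
          (toWreath A δ w).left (Multiplicative.ofAdd z) *
            ((toWreath A δ w).left (Multiplicative.ofAdd (z - 1)))⁻¹ := by
      intro z
      rw [map_mul, map_mul, map_mul, map_inv, map_inv, toWreath_inr, hδ]
      simp only [RegularWreathProduct.mul_left, RegularWreathProduct.inv_left, Pi.mul_apply,
        RegularWreathProduct.left_inl, RegularWreathProduct.right_inl, Pi.one_apply, one_mul,
        inv_one, mul_one, h3, Pi.inv_apply]
      have h6 : (Multiplicative.ofAdd (1 : ℤ))⁻¹ * Multiplicative.ofAdd z =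
          Multiplicative.ofAdd (z - 1) := by
        rw [← ofAdd_neg, ← ofAdd_add]
        congr 1
        ring
      rw [h6]
    refine ⟨w * (Monoid.Coprod.inr (t j) * w⁻¹ * (Monoid.Coprod.inr (t j))⁻¹), ?_, ?_, ?_, ?_, ?_⟩
    · intro i
      have hn : (mer (splitUnion m t) (Fin.castAdd (r + 1) i)).Normal := inferInstance
      exact mul_mem (h1 i) (hn.conj_mem _ (inv_mem (h1 i)) _)
    · intro j' hj'
      have hn : (mer (splitUnion m t) (Fin.natAdd p j')).Normal := inferInstance
      rw [Finset.mem_insert] at hj'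
      rcases hj' with rfl | hj'
      · have h6 : Monoid.Coprod.inr (t j') ∈ mer (splitUnion m t) (Fin.natAdd p j') := by
          have h2 : Monoid.Coprod.inr (t j') = splitUnion m t (Fin.natAdd p j') := by
            rw [splitUnion, Fin.append_right]
          rw [h2]
          exact Subgroup.subset_normalClosure rfl
        have h7 : w * (Monoid.Coprod.inr (t j') * w⁻¹ * (Monoid.Coprod.inr (t j'))⁻¹) =
            (w * Monoid.Coprod.inr (t j') * w⁻¹) * (Monoid.Coprod.inr (t j'))⁻¹ := by group
        rw [h7]
        exact mul_mem (hn.conj_mem _ h6 _) (inv_mem h6)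
      · exact mul_mem (h2 j' hj') (hn.conj_mem _ (inv_mem (h2 j' hj')) _)
    · rw [map_mul, map_mul, map_mul, map_inv, map_inv]
      simp [h3]
    · intro z hz
      rw [e, h4 z hz, h4 (z - 1) (by omega)]
      simp
    · rw [e, h5, h4 (k - 1) (by omega)]
      simp

/-- The group `G(L₀ ⊔ L₁)` of a split union is not finitely generated if `G(L₀)` is nontrivial and
`L₁` is nonempty. -/
theorem not_fg_split (δ : Q →* Multiplicative ℤ) (m : Fin p → A) (t : Fin (r + 1) → Q)
    (hδ : ∀ j, δ (t j) = Multiplicative.ofAdd 1) (h : ¬ Subsingleton (LinkQuotient m)) :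
    ¬ Group.FG (LinkQuotient (splitUnion m t)) := by
  classical
  obtain ⟨w₀, hw₀, hw₁⟩ := linkQuotient_exists m h
  rw [Subgroup.mem_iInf] at hw₀
  -- `p` is positive
  obtain ⟨p, rfl⟩ : ∃ p', p = p' + 1 := by
    rcases p with _ | p
    · exfalso
      apply hw₁
      have : symmetricCommutator (mer m) = ⊤ := by
        refine eq_top_iff.2 (le_trans ?_ (le_iSup _ 1))
        simp [leftNormed]
      rw [this]
      exact Subgroup.mem_top _
    · exact ⟨p, rfl⟩
  intro hfg
  rw [Group.fg_iff] at hfg
  obtain ⟨S, hS1, hS2⟩ := hfg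
  set M : Subgroup (Monoid.Coprod A Q) := ⨅ i, mer (splitUnion m t) i with hM
  set N : Subgroup M := (symmetricCommutator (mer (splitUnion m t))).subgroupOf M with hN
  let ψ := toWreath A δ
  -- the elements with coordinates in the symmetric product outside of a finite set
  let F : Finset (Multiplicative ℤ) → Subgroup M := fun T =>
    { carrier := {w | (ψ w).right = 1 ∧ ∀ z ∉ T, (ψ w).left z ∈ symmetricCommutator (mer m)}
      one_mem' := by
        refine ⟨by simp, fun z _ => ?_⟩
        simp only [OneMemClass.coe_one, map_one, RegularWreathProduct.one_left, Pi.one_apply]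
        exact one_mem _
      mul_mem' := by
        rintro x y ⟨hx1, hx2⟩ ⟨hy1, hy2⟩
        refine ⟨by simp [hx1, hy1], fun z hz => ?_⟩
        simp only [Subgroup.coe_mul, map_mul, RegularWreathProduct.mul_left, Pi.mul_apply, hx1,
          inv_one, one_mul]
        exact mul_mem (hx2 z hz) (hy2 z hz)
      inv_mem' := by
        rintro x ⟨hx1, hx2⟩
        refine ⟨by simp [hx1], fun z hz => ?_⟩
        simp only [InvMemClass.coe_inv, map_inv, RegularWreathProduct.inv_left, Pi.inv_apply, hx1,
          one_mul]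
        exact inv_mem (hx2 z hz) }
  have hright : ∀ w : M, (ψ w).right = 1 := by
    intro w
    have h1 : (w : Monoid.Coprod A Q) ∈ mer (splitUnion m t) (Fin.castAdd (r + 1) 0) :=
      (Subgroup.mem_iInf.1 w.2) _
    exact (mer_split_le δ m t 0 h1).1
  have hFmono : ∀ T T' : Finset (Multiplicative ℤ), T ⊆ T' → F T ≤ F T' := by
    intro T T' hT w hw
    exact ⟨hw.1, fun z hz => hw.2 z (fun h => hz (hT h))⟩
  -- every element lies in some `F T`
  have hFex : ∀ w : M, ∃ T, w ∈ F T := by
    intro w
    have h1 : {q | (ψ w).left q ≠ 1}.Finite := toWreath_mem_fsupp δ (w : Monoid.Coprod A Q)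
    refine ⟨h1.toFinset, hright w, fun z hz => ?_⟩
    rw [Set.Finite.mem_toFinset, Set.mem_ofPred_eq, not_not] at hz
    rw [hz]
    exact one_mem _
  have hNF : ∀ T, N ≤ F T := by
    intro T w hw
    have h1 := sym_split_le δ m t (Subgroup.mem_subgroupOf.1 hw)
    exact ⟨h1.1, fun z _ => h1.2 z⟩
  -- a finite set `T` with all generators in the image of `F T`
  have hT : ∃ T, ∀ s ∈ S, s ∈ (F T).map (QuotientGroup.mk' N) := by
    refine hS2.induction_on_subset _ ⟨∅, by simp⟩ ?_
    rintro a s ha hs - ⟨T, hT⟩
    obtain ⟨w, hw⟩ := QuotientGroup.mk'_surjective N a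
    obtain ⟨T', hT'⟩ := hFex w
    refine ⟨T ∪ T', ?_⟩
    intro x hx
    rcases Set.mem_insert_iff.1 hx with rfl | hx
    · exact ⟨w, hFmono _ _ Finset.subset_union_right hT', hw⟩
    · exact Subgroup.map_mono (hFmono _ _ Finset.subset_union_left) (hT x hx)
  obtain ⟨T, hT⟩ := hT
  have htop : (F T).map (QuotientGroup.mk' N) = ⊤ := by
    rw [eq_top_iff, ← hS1, Subgroup.closure_le]
    exact hT
  have hall : ∀ w : M, w ∈ F T := by
    intro w
    have h1 : QuotientGroup.mk' N w ∈ (F T).map (QuotientGroup.mk' N) := by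
      rw [htop]; exact Subgroup.mem_top _
    obtain ⟨w', hw', he⟩ := h1
    have h2 : w'⁻¹ * w ∈ N := QuotientGroup.eq.1 he
    have h3 : w = w' * (w'⁻¹ * w) := by group
    rw [h3]
    exact mul_mem hw' (hNF T h2)
  -- but the lowest coordinate can be anywhere
  obtain ⟨k, hk⟩ : ∃ k : ℤ, Multiplicative.ofAdd k ∉ T := by
    by_contra hcon
    push Not at hcon
    have : (Set.univ : Set (Multiplicative ℤ)) ⊆ T := by
      intro x _
      exact hcon x
    exact Set.infinite_univ ((Finset.finite_toSet T).subset this)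
  obtain ⟨w, h1, h2, h3, h4, h5⟩ := exists_deep δ m t hδ w₀ hw₀ k Finset.univ
  have hwM : w ∈ M := by
    rw [hM, Subgroup.mem_iInf]
    intro i
    refine Fin.addCases (fun i => h1 i) (fun j => h2 j (Finset.mem_univ j)) i
  have h6 := (hall ⟨w, hwM⟩).2 _ hk
  exact hw₁ (h5 ▸ h6)

end

end Pool.Agent.Lib.MP_a6d6d3_gt
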