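import Pool.Agent.Lib.MP_a6d6d3_gt.Meridian

/-!
Symmetric commutator products of subfamilies, and the group `G(L)`.
-/

namespace Pool.Agent.Lib.MP_a6d6d3_gt

open Subgroup
open scoped commutatorElement

set_option linter.unusedSectionVars false
set_option linter.style.haveILetI false

section
variable {G : Type*} [Group G] {ι : Type*} [DecidableEq ι]

theorem leftNormed_ofFn' {n : ℕ} (R : ι → Subgroup G) (e : Fin n → ι) :
    leftNormed (List.ofFn fun i => R (e i)) = cc R (List.ofFn e) := by
  unfold cc
  rw [List.map_ofFn]
  rfl

/-- The symmetric commutator product of a subfamily. -/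
theorem symmetricCommutator_comp {n : ℕ} (R : ι → Subgroup G) (e : Fin n → ι)
    (he : Function.Injective e) (I : Finset ι) (hI : ∀ x, x ∈ I ↔ ∃ i, e i = x) :
    symmetricCommutator (fun i => R (e i)) = ss R I := by
  have hcard : I.card = n := by
    have : I = Finset.univ.image e := by
      ext x
      rw [hI, Finset.mem_image]
      simp
    rw [this, Finset.card_image_of_injective _ he, Finset.card_univ, Fintype.card_fin]
  refine le_antisymm ?_ ?_
  · refine iSup_le fun σ => ?_
    have := leftNormed_ofFn' R (fun i => e (σ i))
    rw [this]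
    refine cc_le_ss R _ _ ?_ ?_
    · rw [List.nodup_ofFn]
      exact he.comp σ.injective
    · ext x
      rw [List.mem_toFinset, List.mem_ofFn, hI]
      constructor
      · rintro ⟨i, hi⟩
        exact ⟨σ i, hi⟩
      · rintro ⟨i, hi⟩
        exact ⟨σ.symm i, by simpa using hi⟩
  · refine ss_le R _ _ ?_
    intro l hl1 hl2
    have hlen : l.length = n := by
      rw [← List.toFinset_card_of_nodup hl1, hl2, hcard]
    have hmem : ∀ i : Fin n, ∃ j, e j = l.get (Fin.cast hlen.symm i) := by
      intro i
      rw [← hI, ← hl2, List.mem_toFinset]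
      exact List.get_mem _ _
    choose f hf using hmem
    have hinj : Function.Injective f := by
      intro i j hij
      have h1 : l.get (Fin.cast hlen.symm i) = l.get (Fin.cast hlen.symm j) := by
        rw [← hf, ← hf, hij]
      have h2 := List.nodup_iff_injective_get.1 hl1 h1
      exact Fin.cast_injective _ h2
    let σ : Equiv.Perm (Fin n) := Equiv.ofBijective f (Finite.injective_iff_bijective.1 hinj)
    have h1 : List.ofFn (fun i => e (σ i)) = l := by
      apply List.ext_get
      · simp [hlen]
      · intro i h1 h2
        simp only [List.get_ofFn]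
        exact hf _
    refine le_trans (le_of_eq ?_) (le_iSup
      (fun σ : Equiv.Perm (Fin n) => leftNormed (List.ofFn fun i => R (e (σ i)))) σ)
    rw [leftNormed_ofFn' R (fun i => e (σ i)), h1]

theorem symmetricCommutator_eq_ss {n : ℕ} (R : Fin n → Subgroup G) :
    symmetricCommutator R = ss R Finset.univ :=
  symmetricCommutator_comp R id Function.injective_id Finset.univ (by simp)

theorem symmetricCommutator_le_iInf {n : ℕ} (R : Fin n → Subgroup G) [h : ∀ i, (R i).Normal] :
    symmetricCommutator R ≤ ⨅ i, R i :=
  le_iInf fun i => symmetricCommutator_le R i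

instance symmetricCommutator_normal {n : ℕ} (R : Fin n → Subgroup G) [h : ∀ i, (R i).Normal] :
    (symmetricCommutator R).Normal := by
  rw [symmetricCommutator_eq_ss]
  exact ss_normal R _

/-- The group `G(L)` of a tuple of meridians: the intersection of the normal closures of the
meridians modulo their symmetric commutator product. -/
abbrev LinkQuotient {n : ℕ} (m : Fin n → G) : Type _ :=
  (⨅ i, mer m i : Subgroup G) ⧸
    (symmetricCommutator (mer m)).subgroupOf (⨅ i, mer m i)

example {n : ℕ} (m : Fin n → G) : Group (LinkQuotient m) := inferInstance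

theorem linkQuotient_subsingleton {n : ℕ} (m : Fin n → G)
    (h : ⨅ i, mer m i = symmetricCommutator (mer m)) : Subsingleton (LinkQuotient m) := by
  unfold LinkQuotient
  have h1 : (symmetricCommutator (mer m)).subgroupOf (⨅ i, mer m i) = ⊤ :=
    Subgroup.subgroupOf_eq_top.2 h.le
  rw [h1]
  exact QuotientGroup.subsingleton_quotient_top

/-- The retraction identity for meridians. -/
theorem symmetricCommutator_eq_inf {n : ℕ} (m : Fin (n + 2) → G) (k : Fin (n + 2))
    (h : MeridionalSection m k) :
    symmetricCommutator (mer m) =
      symmetricCommutator (fun i : Fin (n + 1) => mer m (k.succAbove i)) ⊓ mer m k := by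
  obtain ⟨p, hp1, -, hp2⟩ := h.exists_retraction
  have h1 : symmetricCommutator (fun i : Fin (n + 1) => mer m (k.succAbove i)) =
      ss (mer m) (Finset.univ.erase k) := by
    refine symmetricCommutator_comp (mer m) (fun i => k.succAbove i)
      Fin.succAbove_right_injective _ ?_
    intro x
    rw [Finset.mem_erase]
    constructor
    · rintro ⟨h1, -⟩
      exact Fin.exists_succAbove_eq h1
    · rintro ⟨i, rfl⟩
      exact ⟨Fin.succAbove_ne k i, Finset.mem_univ _⟩
  rw [h1, symmetricCommutator_eq_ss]
  have h2 := ss_insert_eq (mer m) k p (Finset.univ.erase k) ?_ (Finset.notMem_erase _ _) hp1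
    (fun j hj => hp2 j (Finset.ne_of_mem_erase hj))
  · rw [Finset.insert_erase (Finset.mem_univ k)] at h2
    exact h2
  · rw [← Finset.card_pos, Finset.card_erase_of_mem (Finset.mem_univ k)]
    simp

theorem linkQuotient_trivial {n : ℕ} (m : Fin n → G) (k₀ : Fin n)
    (h : ∀ k, k ≠ k₀ → MeridionalSection m k) :
    ⨅ i, mer m i = symmetricCommutator (mer m) := by
  refine iInf_eq_symmetricCommutator (mer m) k₀ ?_
  intro k hk
  obtain ⟨p, hp1, -, hp2⟩ := (h k hk).exists_retraction
  exact ⟨p, hp1, hp2⟩

end

end Pool.Agent.Lib.MP_a6d6d3_gt
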