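import Pool.Agent.Lib.MP_a6d6d3_gt.Split

/-!
The group of the torus link `T(3,3)` (three fibres of the Hopf fibration) and some homomorphisms.
-/

namespace Pool.Agent.Lib.MP_a6d6d3_gt

open Subgroup
open scoped commutatorElement

set_option linter.unusedSectionVars false
set_option linter.style.haveILetI false

/-- The relators `x₀x₁x₂ = x₁x₂x₀ = x₂x₀x₁`. -/
def torusRels : Set (FreeGroup (Fin 3)) :=
  {FreeGroup.of 0 * FreeGroup.of 1 * FreeGroup.of 2 *
      (FreeGroup.of 1 * FreeGroup.of 2 * FreeGroup.of 0)⁻¹,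
   FreeGroup.of 1 * FreeGroup.of 2 * FreeGroup.of 0 *
      (FreeGroup.of 2 * FreeGroup.of 0 * FreeGroup.of 1)⁻¹}

/-- The group of the torus link `T(3,3)`. -/
abbrev TorusGroup : Type := PresentedGroup torusRels

/-- The meridians of the torus link `T(3,3)`. -/
def torusMer : Fin 3 → TorusGroup := PresentedGroup.of

section
variable {G : Type*} [Group G]

theorem torusMer_rel1 :
    torusMer 0 * torusMer 1 * torusMer 2 = torusMer 1 * torusMer 2 * torusMer 0 := by
  have h : PresentedGroup.mk torusRels (FreeGroup.of 0 * FreeGroup.of 1 * FreeGroup.of 2 *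
      (FreeGroup.of 1 * FreeGroup.of 2 * FreeGroup.of 0)⁻¹) = 1 := by
    refine (QuotientGroup.eq_one_iff _).2 (Subgroup.subset_normalClosure ?_)
    exact Or.inl rfl
  rw [map_mul, map_inv, mul_inv_eq_one] at h
  simp only [map_mul] at h
  exact h

theorem torusMer_rel2 :
    torusMer 1 * torusMer 2 * torusMer 0 = torusMer 2 * torusMer 0 * torusMer 1 := by
  have h : PresentedGroup.mk torusRels (FreeGroup.of 1 * FreeGroup.of 2 * FreeGroup.of 0 *
      (FreeGroup.of 2 * FreeGroup.of 0 * FreeGroup.of 1)⁻¹) = 1 := by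
    refine (QuotientGroup.eq_one_iff _).2 (Subgroup.subset_normalClosure ?_)
    exact Or.inr rfl
  rw [map_mul, map_inv, mul_inv_eq_one] at h
  simp only [map_mul] at h
  exact h

theorem torus_lift_aux (f : Fin 3 → G) (h1 : f 0 * f 1 * f 2 = f 1 * f 2 * f 0)
    (h2 : f 1 * f 2 * f 0 = f 2 * f 0 * f 1) : ∀ r ∈ torusRels, FreeGroup.lift f r = 1 := by
  rintro r (rfl | rfl)
  · simp only [map_mul, map_inv, FreeGroup.lift_apply_of]
    rw [h1, mul_inv_cancel]
  · simp only [map_mul, map_inv, FreeGroup.lift_apply_of]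
    rw [h2, mul_inv_cancel]

/-- The universal property. -/
def torusLift (f : Fin 3 → G) (h1 : f 0 * f 1 * f 2 = f 1 * f 2 * f 0)
    (h2 : f 1 * f 2 * f 0 = f 2 * f 0 * f 1) : TorusGroup →* G :=
  PresentedGroup.toGroup (torus_lift_aux f h1 h2)

theorem torusLift_mer (f : Fin 3 → G) (h1 : f 0 * f 1 * f 2 = f 1 * f 2 * f 0)
    (h2 : f 1 * f 2 * f 0 = f 2 * f 0 * f 1) (i : Fin 3) :
    torusLift f h1 h2 (torusMer i) = f i :=
  PresentedGroup.toGroup.of _

theorem torus_hom_ext {f g : TorusGroup →* G} (h : ∀ i, f (torusMer i) = g (torusMer i)) :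
    f = g := PresentedGroup.ext h

end

/-- The integral Heisenberg group. -/
@[ext]
structure Heis where
  /-- first coordinate -/
  x : ℤ
  /-- second coordinate -/
  y : ℤ
  /-- central coordinate -/
  z : ℤ

namespace Heis

instance : Mul Heis := ⟨fun a b => ⟨a.x + b.x, a.y + b.y, a.z + b.z + a.x * b.y⟩⟩
instance : One Heis := ⟨⟨0, 0, 0⟩⟩
instance : Inv Heis := ⟨fun a => ⟨-a.x, -a.y, -a.z + a.x * a.y⟩⟩

@[simp] theorem mul_x (a b : Heis) : (a * b).x = a.x + b.x := rfl
@[simp] theorem mul_y (a b : Heis) : (a * b).y = a.y + b.y := rfl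
@[simp] theorem mul_z (a b : Heis) : (a * b).z = a.z + b.z + a.x * b.y := rfl
@[simp] theorem one_x : (1 : Heis).x = 0 := rfl
@[simp] theorem one_y : (1 : Heis).y = 0 := rfl
@[simp] theorem one_z : (1 : Heis).z = 0 := rfl
@[simp] theorem inv_x (a : Heis) : (a⁻¹).x = -a.x := rfl
@[simp] theorem inv_y (a : Heis) : (a⁻¹).y = -a.y := rfl
@[simp] theorem inv_z (a : Heis) : (a⁻¹).z = -a.z + a.x * a.y := rfl

instance : Group Heis where
  mul_assoc a b c := by
    ext <;> simp only [mul_x, mul_y, mul_z] <;> ring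
  one_mul a := by ext <;> simp
  mul_one a := by ext <;> simp
  inv_mul_cancel a := by
    ext <;> simp

/-- Triple commutators in the Heisenberg group are trivial. -/
theorem triple : ⁅⁅(⊤ : Subgroup Heis), (⊤ : Subgroup Heis)⁆, (⊤ : Subgroup Heis)⁆ = ⊥ := by
  rw [eq_bot_iff]
  -- the centre-like subgroup
  let Z : Subgroup Heis :=
    { carrier := {a | a.x = 0 ∧ a.y = 0}
      one_mem' := ⟨rfl, rfl⟩
      mul_mem' := by
        rintro a b ⟨h1, h2⟩ ⟨h3, h4⟩
        exact ⟨by simp [h1, h3], by simp [h2, h4]⟩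
      inv_mem' := by
        rintro a ⟨h1, h2⟩
        exact ⟨by simp [h1], by simp [h2]⟩ }
  have h1 : ⁅(⊤ : Subgroup Heis), (⊤ : Subgroup Heis)⁆ ≤ Z := by
    rw [commutator_le]
    intro a _ b _
    refine ⟨?_, ?_⟩
    · simp [commutatorElement_def]
    · simp [commutatorElement_def]
  rw [commutator_le]
  intro a ha b _
  obtain ⟨h3, h4⟩ := h1 ha
  rw [Subgroup.mem_bot]
  ext
  · simp [commutatorElement_def]
  · simp [commutatorElement_def]
  · simp only [commutatorElement_def, mul_x, mul_z, inv_x, inv_y, inv_z, h3, h4, one_z]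
    ring

end Heis

/-- The homomorphism to the Heisenberg group. -/
def torusHeis : TorusGroup →* Heis :=
  torusLift ![⟨1, 0, 0⟩, ⟨0, 1, 0⟩, (⟨1, 0, 0⟩ * ⟨0, 1, 0⟩ : Heis)⁻¹]
    (by ext <;> simp) (by ext <;> simp)

theorem torusHeis_0 : torusHeis (torusMer 0) = ⟨1, 0, 0⟩ := torusLift_mer _ _ _ 0
theorem torusHeis_1 : torusHeis (torusMer 1) = ⟨0, 1, 0⟩ := torusLift_mer _ _ _ 1

theorem torusHeis_comm : torusHeis ⁅torusMer 0, torusMer 1⁆ = ⟨0, 0, 1⟩ := by
  rw [map_commutatorElement, torusHeis_0, torusHeis_1]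
  ext <;> simp [commutatorElement_def]

/-- The commutator of the first two meridians lies in all the normal closures of meridians. -/
theorem torus_comm_mem (i : Fin 3) : ⁅torusMer 0, torusMer 1⁆ ∈ mer torusMer i := by
  have hm : ∀ i, torusMer i ∈ mer torusMer i := fun i => Subgroup.subset_normalClosure rfl
  fin_cases i
  · exact (commutator_le_left (mer torusMer 0) ⊤)
      (commutator_mem_commutator (hm 0) (Subgroup.mem_top _))
  · exact (commutator_le_right ⊤ (mer torusMer 1))
      (commutator_mem_commutator (Subgroup.mem_top _) (hm 1))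
  · have h1 : QuotientGroup.mk' (mer torusMer 2) (torusMer 2) = 1 :=
      (QuotientGroup.eq_one_iff _).2 (hm 2)
    have h2 := congrArg (QuotientGroup.mk' (mer torusMer 2)) torusMer_rel1
    rw [map_mul, map_mul, map_mul, map_mul, h1, mul_one, mul_one] at h2
    refine (QuotientGroup.eq_one_iff _).1 ?_
    change QuotientGroup.mk' (mer torusMer 2) ⁅torusMer 0, torusMer 1⁆ = 1
    rw [map_commutatorElement, commutatorElement_eq_one_iff_mul_comm]
    exact h2

theorem torus_comm_not_mem : ⁅torusMer 0, torusMer 1⁆ ∉ symmetricCommutator (mer torusMer) := by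
  intro h
  have h1 : symmetricCommutator (mer torusMer) ≤ torusHeis.ker := by
    refine iSup_le fun σ => ?_
    rw [← Subgroup.map_eq_bot_iff, eq_bot_iff]
    have h2 : leftNormed (List.ofFn fun i => mer torusMer (σ i)) =
        ⁅⁅mer torusMer (σ 0), mer torusMer (σ 1)⁆, mer torusMer (σ 2)⁆ := by
      simp [leftNormed, List.ofFn_succ]
    rw [h2, Subgroup.map_commutator, Subgroup.map_commutator, ← Heis.triple]
    exact commutator_mono (commutator_mono le_top le_top) le_top
  have h3 := h1 h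
  rw [MonoidHom.mem_ker, torusHeis_comm] at h3
  have := congrArg Heis.z h3
  simp at this

theorem torus_nontrivial : ¬ Subsingleton (LinkQuotient torusMer) := by
  intro h
  have h1 : ∀ x : LinkQuotient torusMer, x = 1 := fun x => Subsingleton.elim _ _
  have h2 := h1 (QuotientGroup.mk ⟨⁅torusMer 0, torusMer 1⁆,
    (Subgroup.mem_iInf).2 torus_comm_mem⟩)
  rw [QuotientGroup.eq_one_iff, Subgroup.mem_subgroupOf] at h2
  exact torus_comm_not_mem h2

end Pool.Agent.Lib.MP_a6d6d3_gt
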