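import Pool.Agent.Lib.MP_a6d6d3_gt.TorusRho

/-!
The group `G(T(3,3) ⊔ L₁)`.
-/

namespace Pool.Agent.Lib.MP_a6d6d3_gt

open Subgroup
open scoped commutatorElement

set_option linter.unusedSectionVars false
set_option linter.style.haveILetI false

variable {Q : Type*} [Group Q] {r : ℕ}

/-- The retraction data on `Q` given by a meridional section. -/
theorem MeridionalSection.exists_endo (t : Fin r → Q) (j : Fin r) (h : MeridionalSection t j) :
    ∃ (s : Q ⧸ mer t j →* Q),
      (∀ x, x⁻¹ * s (QuotientGroup.mk' (mer t j) x) ∈ mer t j) ∧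
      ∀ i, i ≠ j → ∃ y, IsConj (t i) y ∧ s (QuotientGroup.mk' (mer t j) y) = y := by
  obtain ⟨s, hs, hc⟩ := h
  refine ⟨s, ?_, ?_⟩
  · intro x
    refine QuotientGroup.eq.1 ?_
    exact (hs _).symm
  · intro i hi
    exact ⟨_, hc i hi, by rw [hs]⟩

theorem mer_torus (t : Fin r → Q) (i : Fin 3) :
    mer (splitUnion torusMer t) (Fin.castAdd r i) = mer (mm Q) i := by
  rw [mer, splitUnion, Fin.append_left]
  rfl

theorem mer_inr_le (t : Fin r → Q) (j : Fin r) :
    mer t j ≤ (mer (splitUnion torusMer t) (Fin.natAdd 3 j)).comap Monoid.Coprod.inr := by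
  refine Subgroup.normalClosure_le_normal ?_
  rw [Set.singleton_subset_iff]
  change (Monoid.Coprod.inr (t j) : Monoid.Coprod TorusGroup Q) ∈
    mer (splitUnion torusMer t) (Fin.natAdd 3 j)
  have h2 : (Monoid.Coprod.inr (t j) : Monoid.Coprod TorusGroup Q) =
      splitUnion torusMer t (Fin.natAdd 3 j) := by
    rw [splitUnion, Fin.append_right]
  rw [h2]
  exact Subgroup.subset_normalClosure rfl

theorem mer_natAdd_le_ker (t : Fin r → Q) (j : Fin r) {Q' : Type*} [Group Q'] (φ : Q →* Q')
    (h : φ (t j) = 1) :
    mer (splitUnion torusMer t) (Fin.natAdd 3 j) ≤ (mapP φ).ker := by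
  refine Subgroup.normalClosure_le_normal ?_
  rw [Set.singleton_subset_iff]
  change splitUnion torusMer t (Fin.natAdd 3 j) ∈ (mapP φ).ker
  rw [MonoidHom.mem_ker, splitUnion, Fin.append_right, mapP_inr, h, map_one]

/-- The retraction on the free product. -/
theorem exists_retraction_split (t : Fin r → Q) (j : Fin r) (h : MeridionalSection t j) :
    ∃ (s : Q ⧸ mer t j →* Q),
      (∀ a ∈ mer (splitUnion torusMer t) (Fin.natAdd 3 j),
        mapP (s.comp (QuotientGroup.mk' (mer t j))) a = 1) ∧
      (∀ g, g⁻¹ * mapP (s.comp (QuotientGroup.mk' (mer t j))) g ∈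
        mer (splitUnion torusMer t) (Fin.natAdd 3 j)) ∧
      ∀ i, i ≠ Fin.natAdd 3 j → ∀ a ∈ mer (splitUnion torusMer t) i,
        a⁻¹ * mapP (s.comp (QuotientGroup.mk' (mer t j))) a ∈
          ⁅mer (splitUnion torusMer t) i, mer (splitUnion torusMer t) (Fin.natAdd 3 j)⁆ := by
  obtain ⟨s, hs1, hs2⟩ := h.exists_endo
  have hg : ∀ g, g⁻¹ * mapP (s.comp (QuotientGroup.mk' (mer t j))) g ∈
        mer (splitUnion torusMer t) (Fin.natAdd 3 j) := by
    intro g
    have h : (QuotientGroup.mk' (mer (splitUnion torusMer t) (Fin.natAdd 3 j))).comp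
        (mapP (s.comp (QuotientGroup.mk' (mer t j)))) =
        QuotientGroup.mk' (mer (splitUnion torusMer t) (Fin.natAdd 3 j)) := by
      refine Monoid.Coprod.hom_ext rfl ?_
      refine MonoidHom.ext fun x => ?_
      have h1 := mer_inr_le t j (hs1 x)
      change QuotientGroup.mk' _ (mapP (s.comp (QuotientGroup.mk' (mer t j)))
        (Monoid.Coprod.inr x)) = QuotientGroup.mk' _ (Monoid.Coprod.inr x)
      rw [mapP_inr]
      refine (QuotientGroup.eq.2 ?_).symm
      have h2 := Subgroup.mem_comap.1 h1
      rw [map_mul, map_inv] at h2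
      exact h2
    refine QuotientGroup.eq.1 ?_
    exact (DFunLike.congr_fun h g).symm
  refine ⟨s, ?_, hg, ?_⟩
  · intro a ha
    refine mer_natAdd_le_ker t j _ ?_ ha
    have : QuotientGroup.mk' (mer t j) (t j) = 1 :=
      (QuotientGroup.eq_one_iff _).2 (Subgroup.subset_normalClosure rfl)
    rw [MonoidHom.comp_apply, this, map_one]
  · intro i hi
    -- a fixed normal generator
    obtain ⟨y, hy1, hy2⟩ : ∃ y, IsConj (splitUnion torusMer t i) y ∧
        mapP (s.comp (QuotientGroup.mk' (mer t j))) y = y := by
      revert hi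
      refine Fin.addCases (fun i _ => ?_) (fun i hi => ?_) i
      · refine ⟨_, IsConj.refl _, ?_⟩
        rw [splitUnion, Fin.append_left]
        rfl
      · have hij : i ≠ j := by
          rintro rfl
          exact hi rfl
        obtain ⟨y, hy1, hy2⟩ := hs2 i hij
        refine ⟨Monoid.Coprod.inr y, ?_, ?_⟩
        · rw [splitUnion, Fin.append_right]
          exact MonoidHom.map_isConj _ hy1
        · rw [mapP_inr, MonoidHom.comp_apply, hy2]
    refine retraction_agree _ _ {y} (mer_eq_of_isConj _ _ _ hy1) _ hg ?_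
    intro y' hy'
    rw [Set.mem_singleton_iff] at hy'
    subst hy'
    rw [hy2, inv_mul_cancel]
    exact one_mem _

/-- The symmetric commutator product of the split union. -/
theorem mem_sym_iff (t : Fin r → Q) (ht : ∀ j, MeridionalSection t j)
    (w : Monoid.Coprod TorusGroup Q) :
    w ∈ symmetricCommutator (mer (splitUnion torusMer t)) ↔
      w ∈ NN Q ∧ ∀ j, w ∈ mer (splitUnion torusMer t) (Fin.natAdd 3 j) := by
  classical
  have key : ∀ J : Finset (Fin r),
      w ∈ ss (mer (splitUnion torusMer t))
        (J.image (Fin.natAdd 3) ∪ Finset.univ.image (Fin.castAdd r)) ↔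
      w ∈ NN Q ∧ ∀ j ∈ J, w ∈ mer (splitUnion torusMer t) (Fin.natAdd 3 j) := by
    intro J
    induction J using Finset.induction_on with
    | empty =>
      have h1 : NN Q = ss (mer (splitUnion torusMer t)) (Finset.univ.image (Fin.castAdd r)) := by
        rw [← symmetricCommutator_comp (mer (splitUnion torusMer t)) (Fin.castAdd r)
          (Fin.castAdd_injective _ _) _ (by simp)]
        rw [NN]
        congr 1
        funext i
        exact (mer_torus t i).symm
      rw [Finset.image_empty, Finset.empty_union, ← h1]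
      simp
    | insert j J hj ih =>
      obtain ⟨s, h1, h2, h3⟩ := exists_retraction_split t j (ht j)
      have hnm : Fin.natAdd 3 j ∉ J.image (Fin.natAdd 3) ∪ Finset.univ.image (Fin.castAdd r) := by
        rw [Finset.mem_union, Finset.mem_image, Finset.mem_image]
        rintro (⟨j', hj', he⟩ | ⟨i, -, he⟩)
        · have := (Fin.natAdd_injective r 3) he
          subst this
          exact hj hj'
        · have := congrArg Fin.val he
          simp at this
          omega
      have hne : (J.image (Fin.natAdd 3) ∪ Finset.univ.image (Fin.castAdd r)).Nonempty := by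
        refine ⟨Fin.castAdd r 0, ?_⟩
        simp
      rw [Finset.image_insert, Finset.insert_union,
        ss_insert_eq (mer (splitUnion torusMer t)) (Fin.natAdd 3 j) _ _ hne hnm h1
          (fun i hi => h3 i (fun he => hnm (he ▸ hi))), Subgroup.mem_inf, ih]
      constructor
      · rintro ⟨⟨h4, h5⟩, h6⟩
        refine ⟨h4, fun j' hj' => ?_⟩
        rcases Finset.mem_insert.1 hj' with rfl | hj'
        · exact h6
        · exact h5 j' hj'
      · rintro ⟨h4, h5⟩
        exact ⟨⟨h4, fun j' hj' => h5 j' (Finset.mem_insert_of_mem hj')⟩,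
          h5 j (Finset.mem_insert_self _ _)⟩
  have h := key Finset.univ
  have h2 : Finset.univ.image (Fin.natAdd 3) ∪ Finset.univ.image (Fin.castAdd r) =
      (Finset.univ : Finset (Fin (3 + r))) := by
    rw [Finset.eq_univ_iff_forall]
    intro i
    rw [Finset.mem_union]
    refine Fin.addCases (fun i => Or.inr (by simp)) (fun i => Or.inl (by simp)) i
  rw [h2] at h
  rw [symmetricCommutator_eq_ss, h]
  simp

/-- The elements of the integral group ring (as finitely supported functions) which vanish in the
group rings of all quotients by the normal closures of the meridians. -/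
noncomputable def groupRingKer (t : Fin r → Q) : AddSubgroup (Q →₀ ℤ) :=
  ⨅ j, (Finsupp.mapDomain.addMonoidHom (M := ℤ)
    (fun q : Q => (QuotientGroup.mk q : Q ⧸ mer t j))).ker

theorem mem_groupRingKer (t : Fin r → Q) (f : Q →₀ ℤ) : f ∈ groupRingKer t ↔
    ∀ j, Finsupp.mapDomain (fun q : Q => (QuotientGroup.mk q : Q ⧸ mer t j)) f = 0 := by
  rw [groupRingKer, AddSubgroup.mem_iInf]
  rfl

theorem mem_iInf_split (t : Fin r → Q) (w : Monoid.Coprod TorusGroup Q) :
    w ∈ (⨅ i, mer (splitUnion torusMer t) i) ↔
      w ∈ M3 Q ∧ ∀ j, w ∈ mer (splitUnion torusMer t) (Fin.natAdd 3 j) := by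
  rw [Subgroup.mem_iInf]
  constructor
  · intro h
    refine ⟨⟨⟨?_, ?_⟩, ?_⟩, fun j => h _⟩
    · have := h (Fin.castAdd r 0)
      rwa [mer_torus] at this
    · have := h (Fin.castAdd r 1)
      rwa [mer_torus] at this
    · have := h (Fin.castAdd r 2)
      rwa [mer_torus] at this
  · rintro ⟨⟨⟨h0, h1⟩, h2⟩, h3⟩ i
    refine Fin.addCases (fun i => ?_) (fun j => h3 j) i
    rw [mer_torus]
    fin_cases i
    · exact h0
    · exact h1
    · exact h2

/-- The homomorphism from the intersection to the integral group ring. -/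
noncomputable def Theta (t : Fin r → Q) :
    (⨅ i, mer (splitUnion torusMer t) i : Subgroup (Monoid.Coprod TorusGroup Q)) →*
      Multiplicative (Q →₀ ℤ) where
  toFun w := Multiplicative.ofAdd (rho (w : Monoid.Coprod TorusGroup Q))
  map_one' := by
    rw [OneMemClass.coe_one, rho_NN 1 (one_mem _)]
    rfl
  map_mul' w w' := by
    rw [Subgroup.coe_mul, rho_mul _ _ ((mem_iInf_split t _).1 w.2).1]
    rfl

theorem Theta_ker (t : Fin r → Q) (ht : ∀ j, MeridionalSection t j) :
    (symmetricCommutator (mer (splitUnion torusMer t))).subgroupOf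
      (⨅ i, mer (splitUnion torusMer t) i) = (Theta t).ker := by
  ext w
  rw [Subgroup.mem_subgroupOf, MonoidHom.mem_ker, mem_sym_iff t ht]
  have hw := (mem_iInf_split t _).1 w.2
  constructor
  · rintro ⟨h1, -⟩
    exact congrArg Multiplicative.ofAdd (rho_NN _ h1)
  · intro h
    exact ⟨mem_NN_of_rho _ hw.1 h, hw.2⟩

theorem Theta_range (t : Fin r → Q) (ht : ∀ j, MeridionalSection t j) :
    (Theta t).range = AddSubgroup.toSubgroup (groupRingKer t) := by
  classical
  ext n
  constructor
  · rintro ⟨w, rfl⟩
    change rho (w : Monoid.Coprod TorusGroup Q) ∈ groupRingKer t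
    have hw := (mem_iInf_split t _).1 w.2
    rw [mem_groupRingKer]
    intro j
    have h1 := rho_mapP (QuotientGroup.mk' (mer t j)) _ hw.1
    have h2 : mapP (QuotientGroup.mk' (mer t j)) (w : Monoid.Coprod TorusGroup Q) = 1 := by
      refine mer_natAdd_le_ker t j _ ?_ (hw.2 j)
      exact (QuotientGroup.eq_one_iff _).2 (Subgroup.subset_normalClosure rfl)
    rw [h2, rho_NN 1 (one_mem _)] at h1
    exact h1.symm
  · intro hn
    have hn' : ∀ j, Finsupp.mapDomain (fun q : Q => (QuotientGroup.mk q : Q ⧸ mer t j))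
        (Multiplicative.toAdd n) = 0 := (mem_groupRingKer t _).1 hn
    have key : ∀ J : Finset (Fin r), ∃ w, w ∈ M3 Q ∧ rho w = Multiplicative.toAdd n ∧
        ∀ j ∈ J, w ∈ mer (splitUnion torusMer t) (Fin.natAdd 3 j) := by
      intro J
      induction J using Finset.induction_on with
      | empty =>
        obtain ⟨f, hf⟩ := rhoF_surjective n
        exact ⟨eh Q f, TT_le_M3 (eh_mem_TT f), congrArg Multiplicative.toAdd hf, by simp⟩
      | insert j J hj ih =>
        obtain ⟨w, hw1, hw2, hw3⟩ := ih
        obtain ⟨s, h1, h2, h3⟩ := exists_retraction_split t j (ht j)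
        set P := mapP (s.comp (QuotientGroup.mk' (mer t j))) with hP
        have hmem : ∀ i, i ≠ Fin.natAdd 3 j → w ∈ mer (splitUnion torusMer t) i →
            P w ∈ mer (splitUnion torusMer t) i := by
          intro i hi hw
          have h4 := commutator_le_left _ _ (h3 i hi w hw)
          have e : P w = w * (w⁻¹ * P w) := by group
          rw [e]
          exact mul_mem hw h4
        have hPM : P w ∈ M3 Q := mapP_M3 _ w hw1
        have hrho : rho (P w) = 0 := by
          rw [hP, rho_mapP _ w hw1, hw2]
          have e : (⇑(s.comp (QuotientGroup.mk' (mer t j))) : Q → Q) =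
              s ∘ (fun q : Q => (QuotientGroup.mk q : Q ⧸ mer t j)) := rfl
          rw [e, Finsupp.mapDomain_comp, hn' j, Finsupp.mapDomain_zero]
        refine ⟨w * (P w)⁻¹, mul_mem hw1 (inv_mem hPM), ?_, ?_⟩
        · rw [rho_mul _ _ hw1, rho_inv _ hPM, hrho, neg_zero, add_zero, hw2]
        · intro j' hj'
          rcases Finset.mem_insert.1 hj' with rfl | hj2
          · have h5 := inv_mem (h2 w)
            have e : w * (P w)⁻¹ = w * (w⁻¹ * P w)⁻¹ * w⁻¹ := by group
            rw [e]
            exact (inferInstance : (mer (splitUnion torusMer t) (Fin.natAdd 3 j')).Normal).conj_mem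
              _ h5 _
          · have hne : Fin.natAdd 3 j' ≠ Fin.natAdd 3 j := by
              intro he
              have := (Fin.natAdd_injective r 3) he
              subst this
              exact hj hj2
            exact mul_mem (hw3 j' hj2) (inv_mem (hmem _ hne (hw3 j' hj2)))
    obtain ⟨w, hw1, hw2, hw3⟩ := key Finset.univ
    refine ⟨⟨w, (mem_iInf_split t w).2 ⟨hw1, fun j => hw3 j (Finset.mem_univ j)⟩⟩, ?_⟩
    exact congrArg Multiplicative.ofAdd hw2

/-- The group `G(T(3,3) ⊔ L₁)` when all sublinks of `L₁` obtained by deleting one component admit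
meridional sections. -/
noncomputable def torusSplitEquiv (t : Fin r → Q) (ht : ∀ j, MeridionalSection t j) :
    LinkQuotient (splitUnion torusMer t) ≃* Multiplicative (groupRingKer t) :=
  ((QuotientGroup.quotientMulEquivOfEq (Theta_ker t ht)).trans
    (QuotientGroup.quotientKerEquivRange (Theta t))).trans
      (MulEquiv.subgroupCongr (Theta_range t ht))

end Pool.Agent.Lib.MP_a6d6d3_gt
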