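import Pool.Agent.Lib.MP_a6d6d3_gt.TorusGen

/-!
Freeness: the intersection of the three normal closures modulo the symmetric product is generated
by the conjugates of one commutator.
-/

namespace Pool.Agent.Lib.MP_a6d6d3_gt

open Subgroup
open scoped commutatorElement

set_option linter.unusedSectionVars false
set_option linter.style.haveILetI false

variable {Q : Type*} [Group Q]

/-- A group acting on a set acts on the free group of the set. -/
def actFree (G S : Type*) [Group G] [MulAction G S] : G →* MulAut (FreeGroup S) where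
  toFun g := FreeGroup.freeGroupCongr (MulAction.toPerm g)
  map_one' := by
    refine MulEquiv.toMonoidHom_injective ?_
    ext x
    simp
  map_mul' g h := by
    refine MulEquiv.toMonoidHom_injective ?_
    ext x
    simp [mul_smul]

@[simp] theorem actFree_of {G S : Type*} [Group G] [MulAction G S] (g : G) (s : S) :
    actFree G S g (FreeGroup.of s) = FreeGroup.of (g • s) := by
  simp [actFree]

/-- The left cosets of the infinite cyclic factor. -/
abbrev SS (Q : Type*) [Group Q] : Type _ := BB Q ⧸ Subgroup.zpowers (bb Q)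

/-- The coset of `q`. -/
def io (q : Q) : SS Q := QuotientGroup.mk (Monoid.Coprod.inr q)

/-- The semidirect product of the free group on the cosets with `BB`. -/
abbrev EE (Q : Type*) [Group Q] : Type _ := FreeGroup (SS Q) ⋊[actFree (BB Q) (SS Q)] (BB Q)

theorem bb_smul_io_one : bb Q • (io (1 : Q)) = io 1 := by
  change (QuotientGroup.mk (bb Q * Monoid.Coprod.inr 1) : SS Q) =
    QuotientGroup.mk (Monoid.Coprod.inr 1)
  rw [QuotientGroup.eq]
  simp only [map_one, mul_one]
  exact inv_mem (Subgroup.mem_zpowers _)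

/-- The images of the meridians of the torus link. -/
def thf (Q : Type*) [Group Q] : Fin 3 → EE Q :=
  ![SemidirectProduct.inl (FreeGroup.of (io 1)), SemidirectProduct.inr (bb Q), 1]

theorem thf_comm : thf Q 0 * thf Q 1 = thf Q 1 * thf Q 0 := by
  simp only [thf, Matrix.cons_val_zero, Matrix.cons_val_one]
  have h := SemidirectProduct.inl_aut (φ := actFree (BB Q) (SS Q)) (bb Q)
    (FreeGroup.of (io (1 : Q)))
  rw [actFree_of, bb_smul_io_one] at h
  rw [eq_comm, ← mul_inv_eq_iff_eq_mul, ← map_inv]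
  exact h.symm

theorem thf_two : thf Q 2 = 1 := rfl

/-- The homomorphism `θ` killing the third meridian. -/
def th (Q : Type*) [Group Q] : Monoid.Coprod TorusGroup Q →* EE Q :=
  Monoid.Coprod.lift
    (torusLift (thf Q) (by rw [thf_two, mul_one, mul_one, thf_comm])
      (by rw [thf_two, mul_one, one_mul, thf_comm]))
    (SemidirectProduct.inr.comp Monoid.Coprod.inr)

theorem th_mm (i : Fin 3) : th Q (mm Q i) = thf Q i := by
  simp only [th, mm, Monoid.Coprod.lift_apply_inl]
  exact torusLift_mer _ _ _ _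

theorem th_inr (q : Q) : th Q (Monoid.Coprod.inr q) =
    SemidirectProduct.inr (Monoid.Coprod.inr q) := by
  simp [th]

theorem th_jj (g : BB Q) : th Q (jj Q g) = SemidirectProduct.inr g := by
  have h : (th Q).comp (jj Q) = SemidirectProduct.inr := by
    refine bb_hom_ext ?_ ?_
    · rw [MonoidHom.comp_apply, jj_bb, th_mm]
      rfl
    · intro q
      rw [MonoidHom.comp_apply, jj_inr, th_inr]
  exact DFunLike.congr_fun h g

theorem th_mm0 : th Q (mm Q 0) = SemidirectProduct.inl (FreeGroup.of (io 1)) := th_mm 0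

theorem smul_io_one (g : BB Q) : g • (io (1 : Q)) = (QuotientGroup.mk g : SS Q) := by
  change (QuotientGroup.mk (g * Monoid.Coprod.inr 1) : SS Q) = _
  simp

theorem th_conj (g : BB Q) : th Q (jj Q g * mm Q 0 * (jj Q g)⁻¹) =
    SemidirectProduct.inl (FreeGroup.of (QuotientGroup.mk g : SS Q)) := by
  rw [map_mul, map_mul, map_inv, th_jj, th_mm0, ← map_inv]
  have h := SemidirectProduct.inl_aut (φ := actFree (BB Q) (SS Q)) g (FreeGroup.of (io (1 : Q)))
  rw [actFree_of, smul_io_one] at h
  exact h.symm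

theorem th_aq (q : Q) : th Q (aq q) = SemidirectProduct.inl (FreeGroup.of (io q)) := by
  have h := th_conj (Monoid.Coprod.inr q : BB Q)
  rwa [jj_inr] at h

theorem th_uu (g : BB Q) : th Q (uu g) = SemidirectProduct.inl
    (FreeGroup.of (QuotientGroup.mk g : SS Q) * (FreeGroup.of (io (sq Q g)))⁻¹) := by
  rw [uu, map_mul, map_inv, th_conj, th_aq, ← map_inv, ← map_mul]

theorem th_ll (f : FreeGroup Q) : th Q (ll Q f) = SemidirectProduct.inl (FreeGroup.map io f) := by
  have h : (th Q).comp (ll Q) = SemidirectProduct.inl.comp (FreeGroup.map io) := by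
    refine FreeGroup.ext_hom _ _ fun q => ?_
    rw [MonoidHom.comp_apply, ll_of, th_aq]
    simp
  exact DFunLike.congr_fun h f

theorem mer2_le_ker : mer (mm Q) 2 ≤ (th Q).ker := by
  refine Subgroup.normalClosure_le_normal ?_
  rw [Set.singleton_subset_iff]
  change mm Q 2 ∈ (th Q).ker
  rw [MonoidHom.mem_ker, th_mm]
  rfl

theorem NN_le_mer (i : Fin 3) : NN Q ≤ mer (mm Q) i := symmetricCommutator_le _ i

theorem M0_le_ker : M0 Q ≤ (th Q).ker := by
  refine sup_le ?_ ((NN_le_mer 2).trans mer2_le_ker)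
  refine Subgroup.normalClosure_le_normal ?_
  rw [Set.singleton_subset_iff]
  change ee Q ∈ (th Q).ker
  rw [MonoidHom.mem_ker, ee, map_commutatorElement, th_mm, th_mm,
    commutatorElement_eq_one_iff_mul_comm]
  exact thf_comm

/-- The retraction of the cosets onto `Q`. -/
noncomputable def rt (s : SS Q) : Q := sq Q (Quotient.out s)

theorem rt_mk (g : BB Q) : rt (QuotientGroup.mk g : SS Q) = sq Q g := by
  have h := QuotientGroup.mk_out_eq_mul (Subgroup.zpowers (bb Q)) g
  obtain ⟨⟨x, k, rfl⟩, hx⟩ := h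
  rw [rt, hx]
  simp [sq_bb]

theorem rt_io (q : Q) : rt (io q) = q := by
  rw [io, rt_mk, sq_inr]

/-- Powers of the second meridian do not change `u_g` modulo `M0`. -/
theorem uu_mul_bb (g : BB Q) (k : ℤ) : uu (g * bb Q ^ k) * (uu g)⁻¹ ∈ M0 Q := by
  have e : uu (g * bb Q ^ k) * (uu g)⁻¹ =
      jj Q g * ((mm Q 1) ^ k * mm Q 0 * ((mm Q 1) ^ k)⁻¹ * (mm Q 0)⁻¹) * (jj Q g)⁻¹ := by
    simp only [uu, map_mul, map_zpow, jj_bb, sq_bb, one_zpow, mul_one, aq]
    group
  rw [e]
  refine (inferInstance : (M0 Q).Normal).conj_mem _ ?_ _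
  refine (QuotientGroup.eq_one_iff _).1 ?_
  change QuotientGroup.mk' (M0 Q) ((mm Q 1) ^ k * mm Q 0 * ((mm Q 1) ^ k)⁻¹ * (mm Q 0)⁻¹) = 1
  have h1 : Commute (QuotientGroup.mk' (M0 Q) (mm Q 0)) (QuotientGroup.mk' (M0 Q) (mm Q 1)) := by
    have h2 : QuotientGroup.mk' (M0 Q) (ee Q) = 1 := (QuotientGroup.eq_one_iff _).2 ee_mem_M0
    rw [ee, map_commutatorElement, commutatorElement_eq_one_iff_commute] at h2
    exact h2
  have h3 := (h1.zpow_right k).eq
  rw [map_mul, map_mul, map_mul, map_inv, map_inv, map_zpow, ← h3]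
  group

open Classical in
/-- The generators indexed by cosets, with the trivial ones removed. -/
noncomputable def xf (x : SS Q × FreeGroup Q) : Monoid.Coprod TorusGroup Q :=
  if x.1 = io (rt x.1) then 1 else ll Q x.2 * uu (Quotient.out x.1) * (ll Q x.2)⁻¹

/-- The homomorphism from the free group on the generators. -/
noncomputable def Xi (Q : Type*) [Group Q] :
    FreeGroup (SS Q × FreeGroup Q) →* Monoid.Coprod TorusGroup Q :=
  FreeGroup.lift xf

theorem HH_le_Xi : HH Q ≤ M0 Q ⊔ (Xi Q).range := by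
  classical
  refine HH_le_of fun g f => ?_
  have hn : (M0 Q).Normal := inferInstance
  -- pass to the representative
  obtain ⟨⟨x, k, rfl⟩, hx⟩ := QuotientGroup.mk_out_eq_mul (Subgroup.zpowers (bb Q)) g
  have h1 : uu g * (uu (Quotient.out (QuotientGroup.mk g : SS Q)))⁻¹ ∈ M0 Q := by
    have h2 := uu_mul_bb g k
    rw [hx]
    have e : uu g * (uu (g * bb Q ^ k))⁻¹ = (uu (g * bb Q ^ k) * (uu g)⁻¹)⁻¹ := by group
    change uu g * (uu (g * bb Q ^ k))⁻¹ ∈ M0 Q
    rw [e]
    exact inv_mem h2
  by_cases hs : (QuotientGroup.mk g : SS Q) = io (rt (QuotientGroup.mk g : SS Q))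
  · -- `u_g` lies in `M0`
    refine (le_sup_left : M0 Q ≤ _) (hn.conj_mem _ ?_ _)
    rw [rt_mk, io, QuotientGroup.eq] at hs
    obtain ⟨k', hk'⟩ := hs
    have h3 : Monoid.Coprod.inr (sq Q g) = g * bb Q ^ k' := by
      change bb Q ^ k' = _ at hk'
      rw [hk']; group
    have h4 := uu_mul_bb g k'
    rw [← h3] at h4
    have h5 : uu (Monoid.Coprod.inr (sq Q g) : BB Q) = 1 := by
      rw [uu, jj_inr, sq_inr, aq]
      group
    rw [h5, one_mul] at h4
    exact inv_mem_iff.1 h4
  · have h6 : ll Q f * uu g * (ll Q f)⁻¹ =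
        (ll Q f * (uu g * (uu (Quotient.out (QuotientGroup.mk g : SS Q)))⁻¹) * (ll Q f)⁻¹) *
        Xi Q (FreeGroup.of ((QuotientGroup.mk g : SS Q), f)) := by
      rw [Xi, FreeGroup.lift_apply_of, xf, if_neg hs]
      group
    rw [h6]
    exact mul_mem ((le_sup_left : M0 Q ≤ _) (hn.conj_mem _ h1 _))
      ((le_sup_right : (Xi Q).range ≤ M0 Q ⊔ (Xi Q).range) ⟨_, rfl⟩)

open Classical in
/-- The images of the generators in the free group on the cosets. -/
noncomputable def vf (x : SS Q × FreeGroup Q) : FreeGroup (SS Q) :=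
  if x.1 = io (rt x.1) then 1 else
    FreeGroup.map io x.2 * (FreeGroup.of x.1 * (FreeGroup.of (io (rt x.1)))⁻¹) *
      (FreeGroup.map io x.2)⁻¹

/-- The homomorphism `V`. -/
noncomputable def VV (Q : Type*) [Group Q] :
    FreeGroup (SS Q × FreeGroup Q) →* FreeGroup (SS Q) := FreeGroup.lift vf

theorem th_Xi (w : FreeGroup (SS Q × FreeGroup Q)) :
    th Q (Xi Q w) = SemidirectProduct.inl (VV Q w) := by
  have h : (th Q).comp (Xi Q) = SemidirectProduct.inl.comp (VV Q) := by
    refine FreeGroup.ext_hom _ _ fun x => ?_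
    rw [MonoidHom.comp_apply, MonoidHom.comp_apply, Xi, VV, FreeGroup.lift_apply_of,
      FreeGroup.lift_apply_of, xf, vf]
    split_ifs with hs
    · simp
    · rw [map_mul, map_mul, map_inv, th_ll, th_uu, ← map_inv, ← map_mul, ← map_mul]
      have h1 : (QuotientGroup.mk (Quotient.out x.1) : SS Q) = x.1 := Quotient.out_eq x.1
      rw [h1]
      rfl
  exact DFunLike.congr_fun h w

/-- The free group on `Q` acts on the pairs. -/
instance pairAction (S : Type*) : MulAction (FreeGroup Q) (S × FreeGroup Q) where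
  smul f x := (x.1, f * x.2)
  one_smul x := by
    change (x.1, 1 * x.2) = x
    rw [one_mul]
  mul_smul f f' x := by
    change (x.1, f * f' * x.2) = (x.1, f * (f' * x.2))
    rw [mul_assoc]

theorem pair_smul {S : Type*} (f f' : FreeGroup Q) (s : S) :
    f • (s, f') = (s, f * f') := rfl

/-- The second semidirect product. -/
abbrev FF (Q : Type*) [Group Q] : Type _ :=
  FreeGroup (SS Q × FreeGroup Q) ⋊[actFree (FreeGroup Q) (SS Q × FreeGroup Q)] (FreeGroup Q)

open Classical in
/-- The first component of `κ`. -/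
noncomputable def dd (s : SS Q) : FreeGroup (SS Q × FreeGroup Q) :=
  if s = io (rt s) then 1 else FreeGroup.of (s, 1)

/-- The homomorphism `κ`. -/
noncomputable def ka (Q : Type*) [Group Q] : FreeGroup (SS Q) →* FF Q :=
  FreeGroup.lift fun s => SemidirectProduct.inl (dd s) * SemidirectProduct.inr (FreeGroup.of (rt s))

theorem ka_map (f : FreeGroup Q) : ka Q (FreeGroup.map io f) = SemidirectProduct.inr f := by
  have h : (ka Q).comp (FreeGroup.map io) = SemidirectProduct.inr := by
    refine FreeGroup.ext_hom _ _ fun q => ?_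
    rw [MonoidHom.comp_apply, FreeGroup.map.of, ka, FreeGroup.lift_apply_of, rt_io, dd, rt_io,
      if_pos rfl, map_one, one_mul]
  exact DFunLike.congr_fun h f

open Classical in
/-- The homomorphism removing the trivial generators. -/
noncomputable def ep (Q : Type*) [Group Q] :
    FreeGroup (SS Q × FreeGroup Q) →* FreeGroup (SS Q × FreeGroup Q) :=
  FreeGroup.lift fun x => if x.1 = io (rt x.1) then 1 else FreeGroup.of x

theorem ka_VV (w : FreeGroup (SS Q × FreeGroup Q)) :
    ka Q (VV Q w) = SemidirectProduct.inl (ep Q w) := by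
  classical
  have h : (ka Q).comp (VV Q) = SemidirectProduct.inl.comp (ep Q) := by
    refine FreeGroup.ext_hom _ _ fun x => ?_
    obtain ⟨s, f⟩ := x
    rw [MonoidHom.comp_apply, MonoidHom.comp_apply, VV, ep, FreeGroup.lift_apply_of,
      FreeGroup.lift_apply_of, vf]
    split_ifs with hs
    · simp
    · have h1 : ka Q (FreeGroup.of (io (rt s))) = SemidirectProduct.inr (FreeGroup.of (rt s)) := by
        have := ka_map (FreeGroup.of (rt s))
        rwa [FreeGroup.map.of] at this
      have h2 : ka Q (FreeGroup.of s) =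
          SemidirectProduct.inl (FreeGroup.of (s, 1)) *
            SemidirectProduct.inr (FreeGroup.of (rt s)) := by
        rw [ka, FreeGroup.lift_apply_of, dd, if_neg hs]
      have h3 := SemidirectProduct.inl_aut (φ := actFree (FreeGroup Q) (SS Q × FreeGroup Q)) f
        (FreeGroup.of (s, 1))
      rw [actFree_of, pair_smul, mul_one] at h3
      simp only [map_mul, map_inv, ka_map, h1, h2]
      rw [h3, map_inv]
      group
  exact DFunLike.congr_fun h w

theorem Xi_ep (w : FreeGroup (SS Q × FreeGroup Q)) : Xi Q (ep Q w) = Xi Q w := by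
  classical
  have h : (Xi Q).comp (ep Q) = Xi Q := by
    refine FreeGroup.ext_hom _ _ fun x => ?_
    rw [MonoidHom.comp_apply, ep, FreeGroup.lift_apply_of]
    split_ifs with hs
    · rw [map_one, Xi, FreeGroup.lift_apply_of, xf, if_pos hs]
    · rfl
  exact DFunLike.congr_fun h w

/-- Elements of `[R₀, R₁] ∩ R₂` lie in `M0`. -/
theorem comm_inf_le_M0 (w : Monoid.Coprod TorusGroup Q)
    (h1 : w ∈ ⁅mer (mm Q) 0, mer (mm Q) 1⁆) (h2 : w ∈ mer (mm Q) 2) : w ∈ M0 Q := by
  have h3 : w ∈ M0 Q ⊔ (Xi Q).range := by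
    have h4 : YY Q ≤ M0 Q ⊔ (Xi Q).range := sup_le HH_le_Xi le_sup_left
    exact h4 (comm_le_YY h1)
  rw [Subgroup.mem_sup_of_normal_left] at h3
  obtain ⟨x, hx, _, ⟨W, rfl⟩, rfl⟩ := h3
  have h4 : th Q (x * Xi Q W) = 1 := mer2_le_ker h2
  have h5 : th Q x = 1 := M0_le_ker hx
  rw [map_mul, h5, one_mul, th_Xi] at h4
  have h6 : VV Q W = 1 := by
    have := congrArg SemidirectProduct.left h4
    simpa using this
  have h7 := ka_VV W
  rw [h6, map_one] at h7
  have h8 : ep Q W = 1 := by
    have := congrArg SemidirectProduct.left h7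
    simpa using this.symm
  rw [← Xi_ep, h8, map_one, mul_one]
  exact hx

end Pool.Agent.Lib.MP_a6d6d3_gt
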