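import Pool.Agent.Lib.MP_a6d6d3_gt.TorusSplit

/-!
`[R₀, R₁]` is contained in the subgroup `YY`.
-/

namespace Pool.Agent.Lib.MP_a6d6d3_gt

open Subgroup
open scoped commutatorElement

set_option linter.unusedSectionVars false
set_option linter.style.haveILetI false

variable {Q : Type*} [Group Q]

/-- The conjugate of the second meridian by an element of `Q`. -/
def bq (q : Q) : Monoid.Coprod TorusGroup Q :=
  Monoid.Coprod.inr q * mm Q 1 * (Monoid.Coprod.inr q)⁻¹

/-- The homomorphism from the free group on `Q`. -/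
def lb (Q : Type*) [Group Q] : FreeGroup Q →* Monoid.Coprod TorusGroup Q :=
  FreeGroup.lift bq

theorem lb_of (q : Q) : lb Q (FreeGroup.of q) = bq q := by simp [lb]

theorem bq_mem (q : Q) : bq q ∈ mer (mm Q) 1 :=
  (inferInstance : (mer (mm Q) 1).Normal).conj_mem _ (mm_mem 1) _

theorem lb_mem (f : FreeGroup Q) : lb Q f ∈ mer (mm Q) 1 := by
  have h : (lb Q).range ≤ mer (mm Q) 1 := by
    rw [lb, FreeGroup.range_lift_eq_closure, Subgroup.closure_le]
    rintro x ⟨q, rfl⟩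
    exact bq_mem q
  exact h ⟨f, rfl⟩

theorem inr_conj_lb (q : Q) (f : FreeGroup Q) :
    Monoid.Coprod.inr q * lb Q f * (Monoid.Coprod.inr q)⁻¹ =
      lb Q (FreeGroup.map (fun x => q * x) f) := by
  have h : (MulAut.conj (Monoid.Coprod.inr q : Monoid.Coprod TorusGroup Q)).toMonoidHom.comp
      (lb Q) = (lb Q).comp (FreeGroup.map (fun x => q * x)) := by
    ext x
    simp [lb, bq, mul_assoc]
  exact DFunLike.congr_fun h f

theorem comm_bq_aq (q q' : Q) : ⁅bq q', aq q⁆ ∈ YY Q := by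
  have h := uu_mem_HH (Monoid.Coprod.inr q' * bb Q * (Monoid.Coprod.inr q')⁻¹ *
    Monoid.Coprod.inr q)
  have e : uu (Monoid.Coprod.inr q' * bb Q * (Monoid.Coprod.inr q')⁻¹ *
    Monoid.Coprod.inr q) = ⁅bq q', aq q⁆ := by
    simp only [uu, map_mul, map_inv, jj_bb, sq_bb, jj_inr, sq_inr, mul_one, mul_inv_cancel,
      one_mul, commutatorElement_def, aq, bq]
    group
  rw [e] at h
  exact HH_le_YY h

/-- The `a`-words and the `b`-words commute modulo `YY`. -/
theorem comm_ll_lb (f f' : FreeGroup Q) :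
    Commute (QuotientGroup.mk' (YY Q) (ll Q f)) (QuotientGroup.mk' (YY Q) (lb Q f')) := by
  have h1 : ∀ q q' : Q, Commute (QuotientGroup.mk' (YY Q) (aq q))
      (QuotientGroup.mk' (YY Q) (bq q')) := by
    intro q q'
    have h2 : QuotientGroup.mk' (YY Q) ⁅bq q', aq q⁆ = 1 :=
      (QuotientGroup.eq_one_iff _).2 (comm_bq_aq q q')
    rw [map_commutatorElement, commutatorElement_eq_one_iff_commute] at h2
    exact h2.symm
  have h3 : ∀ (q : Q) (f' : FreeGroup Q), Commute (QuotientGroup.mk' (YY Q) (aq q))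
      (QuotientGroup.mk' (YY Q) (lb Q f')) := by
    intro q f'
    have h4 : (lb Q).range ≤ (Subgroup.centralizer {QuotientGroup.mk' (YY Q) (aq q)}).comap
        (QuotientGroup.mk' (YY Q)) := by
      rw [lb, FreeGroup.range_lift_eq_closure, Subgroup.closure_le]
      rintro x ⟨q', rfl⟩
      change QuotientGroup.mk' (YY Q) (bq q') ∈ Subgroup.centralizer _
      rw [Subgroup.mem_centralizer_singleton_iff]
      exact (h1 q q').symm.eq
    have h5 := h4 ⟨f', rfl⟩
    rw [Subgroup.mem_comap, Subgroup.mem_centralizer_singleton_iff] at h5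
    exact Commute.symm h5
  have h4 : (ll Q).range ≤ (Subgroup.centralizer {QuotientGroup.mk' (YY Q) (lb Q f')}).comap
      (QuotientGroup.mk' (YY Q)) := by
    rw [ll, FreeGroup.range_lift_eq_closure, Subgroup.closure_le]
    rintro x ⟨q, rfl⟩
    change QuotientGroup.mk' (YY Q) (aq q) ∈ Subgroup.centralizer _
    rw [Subgroup.mem_centralizer_singleton_iff]
    exact (h3 q f').eq
  have h5 := h4 ⟨f, rfl⟩
  rw [Subgroup.mem_comap, Subgroup.mem_centralizer_singleton_iff] at h5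
  exact h5

theorem NN_le_YY : NN Q ≤ YY Q := NN_le_M0.trans M0_le_YY

/-- `R₀` is contained in the product of the `a`-words, `[R₀, R₂]` and `YY`. -/
theorem R0_le : mer (mm Q) 0 ≤ (ll Q).range ⊔ (⁅mer (mm Q) 2, mer (mm Q) 0⁆ ⊔ YY Q) := by
  haveI hn : ((ll Q).range ⊔ (⁅mer (mm Q) 2, mer (mm Q) 0⁆ ⊔ YY Q)).Normal := by
    refine normal_of_conjSub _ (top_of_gen _ ?_ ?_)
    · intro i
      change mm Q i ∈ conjSub _
      fin_cases i
      · have h1 : ∀ k : ℤ, ∀ x ∈ (ll Q).range, (mm Q 0) ^ k * x * ((mm Q 0) ^ k)⁻¹ ∈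
            (ll Q).range ⊔ (⁅mer (mm Q) 2, mer (mm Q) 0⁆ ⊔ YY Q) := by
          intro k x hx
          have h2 : (mm Q 0) ^ k ∈ (ll Q).range := by
            refine ⟨(FreeGroup.of 1) ^ k, ?_⟩
            rw [map_zpow, ll_of]
            simp [aq]
          exact (le_sup_left : (ll Q).range ≤ _) (mul_mem (mul_mem h2 hx) (inv_mem h2))
        refine ⟨sup_conj _ _ _ ?_, ?_⟩
        · simpa using h1 1
        · have := sup_conj _ _ _ (h1 (-1))
          simpa using this
      · have h1 : ∀ k : ℤ, ∀ x ∈ (ll Q).range, (mm Q 1) ^ k * x * ((mm Q 1) ^ k)⁻¹ ∈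
            (ll Q).range ⊔ (⁅mer (mm Q) 2, mer (mm Q) 0⁆ ⊔ YY Q) := by
          rintro k x ⟨f, rfl⟩
          have h2 := b_comm_ll k f
          have e : (mm Q 1) ^ k * ll Q f * ((mm Q 1) ^ k)⁻¹ =
            ((mm Q 1) ^ k * ll Q f * ((mm Q 1) ^ k)⁻¹ * (ll Q f)⁻¹) * ll Q f := by group
          rw [e]
          refine mul_mem ?_ ((le_sup_left : (ll Q).range ≤ _) ⟨f, rfl⟩)
          exact (le_sup_right : _ ≤ (ll Q).range ⊔ _) ((le_sup_right : YY Q ≤ _) (HH_le_YY h2))
        refine ⟨sup_conj _ _ _ ?_, ?_⟩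
        · simpa using h1 1
        · have := sup_conj _ _ _ (h1 (-1))
          simpa using this
      · have h1 : ∀ g ∈ mer (mm Q) 2, ∀ x ∈ (ll Q).range, g * x * g⁻¹ ∈
            (ll Q).range ⊔ (⁅mer (mm Q) 2, mer (mm Q) 0⁆ ⊔ YY Q) := by
          rintro g hg x ⟨f, rfl⟩
          have e : g * ll Q f * g⁻¹ = ⁅g, ll Q f⁆ * ll Q f := by
            rw [commutatorElement_def]; group
          rw [e]
          refine mul_mem ?_ ((le_sup_left : (ll Q).range ≤ _) ⟨f, rfl⟩)
          exact (le_sup_right : _ ≤ (ll Q).range ⊔ _) ((le_sup_left : _ ≤ _ ⊔ YY Q)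
            (commutator_mem_commutator hg (ll_mem f)))
        refine ⟨sup_conj _ _ _ (h1 _ (mm_mem 2)), ?_⟩
        have := sup_conj _ _ _ (h1 _ (inv_mem (mm_mem 2)))
        simpa using this
    · intro q
      have h1 : ∀ q : Q, ∀ x ∈ (ll Q).range,
          Monoid.Coprod.inr q * x * (Monoid.Coprod.inr q)⁻¹ ∈
            (ll Q).range ⊔ (⁅mer (mm Q) 2, mer (mm Q) 0⁆ ⊔ YY Q) := by
        rintro q x ⟨f, rfl⟩
        rw [inr_conj_ll]
        exact (le_sup_left : (ll Q).range ≤ _) ⟨_, rfl⟩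
      refine ⟨sup_conj _ _ _ (h1 q), ?_⟩
      have := sup_conj _ _ _ (h1 q⁻¹)
      simpa using this
  refine Subgroup.normalClosure_le_normal ?_
  rw [Set.singleton_subset_iff]
  refine (le_sup_left : (ll Q).range ≤ _) ⟨FreeGroup.of 1, ?_⟩
  rw [ll_of]
  simp [aq]

/-- `R₁` is contained in the product of the `b`-words, `[R₁, R₂]` and `YY`. -/
theorem R1_le : mer (mm Q) 1 ≤ (lb Q).range ⊔ (⁅mer (mm Q) 2, mer (mm Q) 1⁆ ⊔ YY Q) := by
  haveI hn : ((lb Q).range ⊔ (⁅mer (mm Q) 2, mer (mm Q) 1⁆ ⊔ YY Q)).Normal := by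
    refine normal_of_conjSub _ (top_of_gen _ ?_ ?_)
    · intro i
      change mm Q i ∈ conjSub _
      fin_cases i
      · have h1 : ∀ k : ℤ, ∀ x ∈ (lb Q).range, (mm Q 0) ^ k * x * ((mm Q 0) ^ k)⁻¹ ∈
            (lb Q).range ⊔ (⁅mer (mm Q) 2, mer (mm Q) 1⁆ ⊔ YY Q) := by
          rintro k x ⟨f, rfl⟩
          have h3 : (mm Q 0) ^ k = ll Q (FreeGroup.of 1 ^ k) := by
            rw [map_zpow, ll_of]
            simp [aq]
          have h2 : (mm Q 0) ^ k * lb Q f * ((mm Q 0) ^ k)⁻¹ * (lb Q f)⁻¹ ∈ YY Q := by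
            refine (QuotientGroup.eq_one_iff _).1 ?_
            change QuotientGroup.mk' (YY Q)
              ((mm Q 0) ^ k * lb Q f * ((mm Q 0) ^ k)⁻¹ * (lb Q f)⁻¹) = 1
            have h4 := comm_ll_lb (FreeGroup.of (1 : Q) ^ k) f
            rw [← h3] at h4
            rw [map_mul, map_mul, map_mul, map_inv, map_inv, h4.eq]
            group
          have e : (mm Q 0) ^ k * lb Q f * ((mm Q 0) ^ k)⁻¹ =
            ((mm Q 0) ^ k * lb Q f * ((mm Q 0) ^ k)⁻¹ * (lb Q f)⁻¹) * lb Q f := by group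
          rw [e]
          refine mul_mem ?_ ((le_sup_left : (lb Q).range ≤ _) ⟨f, rfl⟩)
          exact (le_sup_right : _ ≤ (lb Q).range ⊔ _) ((le_sup_right : YY Q ≤ _) h2)
        refine ⟨sup_conj _ _ _ ?_, ?_⟩
        · simpa using h1 1
        · have := sup_conj _ _ _ (h1 (-1))
          simpa using this
      · have h1 : ∀ k : ℤ, ∀ x ∈ (lb Q).range, (mm Q 1) ^ k * x * ((mm Q 1) ^ k)⁻¹ ∈
            (lb Q).range ⊔ (⁅mer (mm Q) 2, mer (mm Q) 1⁆ ⊔ YY Q) := by
          intro k x hx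
          have h2 : (mm Q 1) ^ k ∈ (lb Q).range := by
            refine ⟨(FreeGroup.of 1) ^ k, ?_⟩
            rw [map_zpow, lb_of]
            simp [bq]
          exact (le_sup_left : (lb Q).range ≤ _) (mul_mem (mul_mem h2 hx) (inv_mem h2))
        refine ⟨sup_conj _ _ _ ?_, ?_⟩
        · simpa using h1 1
        · have := sup_conj _ _ _ (h1 (-1))
          simpa using this
      · have h1 : ∀ g ∈ mer (mm Q) 2, ∀ x ∈ (lb Q).range, g * x * g⁻¹ ∈
            (lb Q).range ⊔ (⁅mer (mm Q) 2, mer (mm Q) 1⁆ ⊔ YY Q) := by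
          rintro g hg x ⟨f, rfl⟩
          have e : g * lb Q f * g⁻¹ = ⁅g, lb Q f⁆ * lb Q f := by
            rw [commutatorElement_def]; group
          rw [e]
          refine mul_mem ?_ ((le_sup_left : (lb Q).range ≤ _) ⟨f, rfl⟩)
          exact (le_sup_right : _ ≤ (lb Q).range ⊔ _) ((le_sup_left : _ ≤ _ ⊔ YY Q)
            (commutator_mem_commutator hg (lb_mem f)))
        refine ⟨sup_conj _ _ _ (h1 _ (mm_mem 2)), ?_⟩
        have := sup_conj _ _ _ (h1 _ (inv_mem (mm_mem 2)))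
        simpa using this
    · intro q
      have h1 : ∀ q : Q, ∀ x ∈ (lb Q).range,
          Monoid.Coprod.inr q * x * (Monoid.Coprod.inr q)⁻¹ ∈
            (lb Q).range ⊔ (⁅mer (mm Q) 2, mer (mm Q) 1⁆ ⊔ YY Q) := by
        rintro q x ⟨f, rfl⟩
        rw [inr_conj_lb]
        exact (le_sup_left : (lb Q).range ≤ _) ⟨_, rfl⟩
      refine ⟨sup_conj _ _ _ (h1 q), ?_⟩
      have := sup_conj _ _ _ (h1 q⁻¹)
      simpa using this
  refine Subgroup.normalClosure_le_normal ?_
  rw [Set.singleton_subset_iff]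
  refine (le_sup_left : (lb Q).range ≤ _) ⟨FreeGroup.of 1, ?_⟩
  rw [lb_of]
  simp [bq]

/-- The commutator of the first two normal closures is contained in `YY`. -/
theorem comm_le_YY : ⁅mer (mm Q) 0, mer (mm Q) 1⁆ ≤ YY Q := by
  have hcent : ∀ (H K : Subgroup (Monoid.Coprod TorusGroup Q)) (y : Monoid.Coprod TorusGroup Q),
      (∀ x ∈ H, Commute (QuotientGroup.mk' (YY Q) x) (QuotientGroup.mk' (YY Q) y)) →
      (∀ x ∈ K, Commute (QuotientGroup.mk' (YY Q) x) (QuotientGroup.mk' (YY Q) y)) →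
      ∀ x ∈ H ⊔ K, Commute (QuotientGroup.mk' (YY Q) x) (QuotientGroup.mk' (YY Q) y) := by
    intro H K y h1 h2
    have h3 : H ⊔ K ≤ (Subgroup.centralizer {QuotientGroup.mk' (YY Q) y}).comap
        (QuotientGroup.mk' (YY Q)) := by
      refine sup_le ?_ ?_
      · intro x hx
        rw [Subgroup.mem_comap, Subgroup.mem_centralizer_singleton_iff]
        exact (h1 x hx).eq
      · intro x hx
        rw [Subgroup.mem_comap, Subgroup.mem_centralizer_singleton_iff]
        exact (h2 x hx).eq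
    intro x hx
    have := h3 hx
    rw [Subgroup.mem_comap, Subgroup.mem_centralizer_singleton_iff] at this
    exact this
  have hY : ∀ x ∈ YY Q, ∀ y, Commute (QuotientGroup.mk' (YY Q) x) (QuotientGroup.mk' (YY Q) y) := by
    intro x hx y
    have h1 : QuotientGroup.mk' (YY Q) x = 1 := (QuotientGroup.eq_one_iff _).2 hx
    rw [h1]
    exact Commute.one_left _
  rw [commutator_le_iff_map]
  intro x hx y hy
  have hx' := R0_le hx
  have hy' := R1_le hy
  -- the commutators of the pieces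
  have c1 : ∀ x ∈ ⁅mer (mm Q) 2, mer (mm Q) 0⁆, ∀ y ∈ mer (mm Q) 1,
      Commute (QuotientGroup.mk' (YY Q) x) (QuotientGroup.mk' (YY Q) y) := by
    intro x hx y hy
    exact (commutator_le_iff_map _ _ _).1
      ((tri_le (mer (mm Q)) 2 0 1 (by decide) (by decide) (by decide)).trans NN_le_YY) x hx y hy
  have c2 : ∀ x ∈ ⁅mer (mm Q) 2, mer (mm Q) 1⁆, ∀ y ∈ mer (mm Q) 0,
      Commute (QuotientGroup.mk' (YY Q) x) (QuotientGroup.mk' (YY Q) y) := by
    intro x hx y hy
    exact (commutator_le_iff_map _ _ _).1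
      ((tri_le (mer (mm Q)) 2 1 0 (by decide) (by decide) (by decide)).trans NN_le_YY) x hx y hy
  refine hcent _ _ y ?_ ?_ x hx'
  · rintro _ ⟨f, rfl⟩
    refine Commute.symm ?_
    refine hcent _ _ _ ?_ ?_ y hy'
    · rintro _ ⟨f', rfl⟩
      exact (comm_ll_lb f f').symm
    · refine hcent _ _ _ ?_ ?_
      · intro z hz
        exact c2 z hz _ (ll_mem f)
      · intro z hz
        exact hY z hz _
  · refine hcent _ _ _ ?_ ?_
    · intro z hz
      exact c1 z hz y hy
    · intro z hz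
      exact hY z hz _

end Pool.Agent.Lib.MP_a6d6d3_gt
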