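import Pool.Agent.Lib.MP_a6d6d3_gt.TorusFree

/-!
The coordinates of elements of the intersection in the integral group ring.
-/

namespace Pool.Agent.Lib.MP_a6d6d3_gt

open Subgroup
open scoped commutatorElement

set_option linter.unusedSectionVars false
set_option linter.style.haveILetI false

variable {Q : Type*} [Group Q]

theorem zeta_comm1 : torusMer 1 * (torusMer 0 * torusMer 1 * torusMer 2) =
    (torusMer 0 * torusMer 1 * torusMer 2) * torusMer 1 := by
  have h1 := torusMer_rel1
  have h2 := torusMer_rel2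
  calc torusMer 1 * (torusMer 0 * torusMer 1 * torusMer 2)
      = torusMer 1 * (torusMer 2 * torusMer 0 * torusMer 1) := by rw [h1, h2]
    _ = (torusMer 1 * torusMer 2 * torusMer 0) * torusMer 1 := by group
    _ = _ := by rw [← h1]

/-- The endomorphism of the torus link group killing the first meridian and fixing the second
meridian and the central element. -/
def pA : TorusGroup →* TorusGroup :=
  torusLift ![1, torusMer 1, (torusMer 1)⁻¹ * (torusMer 0 * torusMer 1 * torusMer 2)]
    (by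
      change 1 * torusMer 1 * ((torusMer 1)⁻¹ * (torusMer 0 * torusMer 1 * torusMer 2)) =
        torusMer 1 * ((torusMer 1)⁻¹ * (torusMer 0 * torusMer 1 * torusMer 2)) * 1
      group)
    (by
      change torusMer 1 * ((torusMer 1)⁻¹ * (torusMer 0 * torusMer 1 * torusMer 2)) * 1 =
        (torusMer 1)⁻¹ * (torusMer 0 * torusMer 1 * torusMer 2) * 1 * torusMer 1
      have h := zeta_comm1
      rw [mul_one, mul_one, mul_assoc _ _ (torusMer 1), ← h]
      group)

theorem pA_0 : pA (torusMer 0) = 1 := torusLift_mer _ _ _ 0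
theorem pA_1 : pA (torusMer 1) = torusMer 1 := torusLift_mer _ _ _ 1
theorem pA_2 : pA (torusMer 2) = (torusMer 1)⁻¹ * (torusMer 0 * torusMer 1 * torusMer 2) :=
  torusLift_mer _ _ _ 2

/-- The induced endomorphism of the free product. -/
def pP (Q : Type*) [Group Q] : Monoid.Coprod TorusGroup Q →* Monoid.Coprod TorusGroup Q :=
  Monoid.Coprod.map pA (MonoidHom.id Q)

theorem pP_mem (g : Monoid.Coprod TorusGroup Q) : g⁻¹ * pP Q g ∈ mer (mm Q) 0 := by
  have h : (QuotientGroup.mk' (mer (mm Q) 0)).comp (pP Q) = QuotientGroup.mk' (mer (mm Q) 0) := by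
    have h0 : QuotientGroup.mk' (mer (mm Q) 0) (mm Q 0) = 1 :=
      (QuotientGroup.eq_one_iff _).2 (mm_mem 0)
    refine Monoid.Coprod.hom_ext ?_ ?_
    · refine torus_hom_ext fun i => ?_
      change QuotientGroup.mk' (mer (mm Q) 0) (pP Q (mm Q i)) =
        QuotientGroup.mk' (mer (mm Q) 0) (mm Q i)
      fin_cases i
      · change QuotientGroup.mk' (mer (mm Q) 0) (pP Q (mm Q 0)) =
          QuotientGroup.mk' (mer (mm Q) 0) (mm Q 0)
        rw [h0, pP, mm, Monoid.Coprod.map_apply_inl, pA_0, map_one, map_one]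
      · change QuotientGroup.mk' (mer (mm Q) 0) (pP Q (mm Q 1)) =
          QuotientGroup.mk' (mer (mm Q) 0) (mm Q 1)
        rw [pP, mm, Monoid.Coprod.map_apply_inl, pA_1]
      · change QuotientGroup.mk' (mer (mm Q) 0) (pP Q (mm Q 2)) =
          QuotientGroup.mk' (mer (mm Q) 0) (mm Q 2)
        have e : pP Q (mm Q 2) = (mm Q 1)⁻¹ * (mm Q 0 * mm Q 1 * mm Q 2) := by
          rw [pP, mm, Monoid.Coprod.map_apply_inl, pA_2]
          simp only [map_mul, map_inv, mm]
        rw [e, map_mul, map_mul, map_mul, h0, map_inv]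
        group
    · rfl
  refine QuotientGroup.eq.1 ?_
  exact (DFunLike.congr_fun h g).symm

/-- The intersection of the first two normal closures is their commutator. -/
theorem inf01_le : mer (mm Q) 0 ⊓ mer (mm Q) 1 ≤ ⁅mer (mm Q) 0, mer (mm Q) 1⁆ := by
  rintro w ⟨hw0, hw1⟩
  rw [commutator_comm]
  have h := retraction_agree (mer (mm Q) 1) (mer (mm Q) 0) {mm Q 1} rfl (pP Q) pP_mem ?_ w hw1
  · have h0 : pP Q w = 1 := by
      have : mer (mm Q) 0 ≤ (pP Q).ker := by
        refine Subgroup.normalClosure_le_normal ?_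
        rw [Set.singleton_subset_iff]
        change mm Q 0 ∈ (pP Q).ker
        rw [MonoidHom.mem_ker, pP, mm, Monoid.Coprod.map_apply_inl, pA_0, map_one]
      exact this hw0
    rw [h0, mul_one] at h
    exact inv_mem_iff.1 h
  · intro y hy
    rw [Set.mem_singleton_iff] at hy
    subst hy
    have : pP Q (mm Q 1) = mm Q 1 := by
      rw [pP, mm, Monoid.Coprod.map_apply_inl, pA_1]
    rw [this, inv_mul_cancel]
    exact one_mem _

/-- The intersection of the three normal closures. -/
def M3 (Q : Type*) [Group Q] : Subgroup (Monoid.Coprod TorusGroup Q) :=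
  mer (mm Q) 0 ⊓ mer (mm Q) 1 ⊓ mer (mm Q) 2

theorem M3_le_M0 : M3 Q ≤ M0 Q := by
  rintro w ⟨h01, h2⟩
  exact comm_inf_le_M0 w (inf01_le h01) h2

/-- The conjugates of the commutator by elements of `Q`. -/
def eq (q : Q) : Monoid.Coprod TorusGroup Q :=
  Monoid.Coprod.inr q * ee Q * (Monoid.Coprod.inr q)⁻¹

/-- The homomorphism from the free group on `Q` to the group generated by these conjugates. -/
def eh (Q : Type*) [Group Q] : FreeGroup Q →* Monoid.Coprod TorusGroup Q :=
  FreeGroup.lift eq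

theorem eh_of (q : Q) : eh Q (FreeGroup.of q) = eq q := by simp [eh]

theorem eh_mem_TT (f : FreeGroup Q) : eh Q f ∈ TT Q := by
  have h : (eh Q).range ≤ TT Q := by
    rw [eh, FreeGroup.range_lift_eq_closure, Subgroup.closure_le]
    rintro x ⟨q, rfl⟩
    exact (inferInstance : (TT Q).Normal).conj_mem _ ee_mem_TT _
  exact h ⟨f, rfl⟩

theorem TT_le_M3 : TT Q ≤ M3 Q := by
  rintro x ⟨⟨h1, -⟩, h3⟩
  exact ⟨⟨commutator_le_left _ _ h1, commutator_le_right _ _ h1⟩, commutator_le_left _ _ h3⟩

theorem inr_conj_eh (q : Q) (f : FreeGroup Q) :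
    Monoid.Coprod.inr q * eh Q f * (Monoid.Coprod.inr q)⁻¹ =
      eh Q (FreeGroup.map (fun x => q * x) f) := by
  have h : (MulAut.conj (Monoid.Coprod.inr q : Monoid.Coprod TorusGroup Q)).toMonoidHom.comp
      (eh Q) = (eh Q).comp (FreeGroup.map (fun x => q * x)) := by
    ext x
    simp [eh, eq, mul_assoc]
  exact DFunLike.congr_fun h f

theorem M0_le_eh : M0 Q ≤ (eh Q).range ⊔ NN Q := by
  haveI hn : ((eh Q).range ⊔ NN Q).Normal := by
    refine normal_of_conjSub _ (top_of_gen _ ?_ ?_)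
    · intro i
      change mm Q i ∈ conjSub _
      have h1 : ∀ g ∈ mer (mm Q) i, ∀ x ∈ (eh Q).range, g * x * g⁻¹ ∈ (eh Q).range ⊔ NN Q := by
        rintro g hg x ⟨f, rfl⟩
        have h2 : ⁅eh Q f, g⁆ ∈ NN Q :=
          TT_comm i (commutator_mem_commutator (eh_mem_TT f) hg)
        have e : g * eh Q f * g⁻¹ = (⁅eh Q f, g⁆)⁻¹ * eh Q f := by
          rw [commutatorElement_def]; group
        rw [e]
        exact mul_mem ((le_sup_right : NN Q ≤ (eh Q).range ⊔ NN Q) (inv_mem h2))
          ((le_sup_left : (eh Q).range ≤ _) ⟨f, rfl⟩)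
      refine ⟨sup_conj _ _ _ (h1 _ (mm_mem i)), ?_⟩
      have := sup_conj _ _ _ (h1 _ (inv_mem (mm_mem i)))
      simpa using this
    · intro q
      have h1 : ∀ q : Q, ∀ x ∈ (eh Q).range,
          Monoid.Coprod.inr q * x * (Monoid.Coprod.inr q)⁻¹ ∈ (eh Q).range ⊔ NN Q := by
        rintro q x ⟨f, rfl⟩
        rw [inr_conj_eh]
        exact (le_sup_left : (eh Q).range ≤ _) ⟨_, rfl⟩
      refine ⟨sup_conj _ _ _ (h1 q), ?_⟩
      have := sup_conj _ _ _ (h1 q⁻¹)
      simpa using this
  refine sup_le ?_ le_sup_right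
  refine Subgroup.normalClosure_le_normal ?_
  rw [Set.singleton_subset_iff]
  refine (le_sup_left : (eh Q).range ≤ _) ⟨FreeGroup.of 1, ?_⟩
  rw [eh_of]
  simp [eq]

/-- Every element of the intersection is a product of conjugates of the commutator and an element
of the symmetric product. -/
theorem exists_eh (w : Monoid.Coprod TorusGroup Q) (hw : w ∈ M3 Q) :
    ∃ f : FreeGroup Q, ∃ n ∈ NN Q, w = eh Q f * n := by
  have h := M0_le_eh (M3_le_M0 hw)
  rw [Subgroup.mem_sup_of_normal_right] at h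
  obtain ⟨_, ⟨f, rfl⟩, n, hn, rfl⟩ := h
  exact ⟨f, n, hn, rfl⟩

/-- The homomorphism to the wreath product of the Heisenberg group. -/
noncomputable def Ps (Q : Type*) [Group Q] : Monoid.Coprod TorusGroup Q →* Heis ≀ᵣ Q :=
  (toWreath Heis (MonoidHom.id Q)).comp (Monoid.Coprod.map torusHeis (MonoidHom.id Q))

theorem Ps_mm (i : Fin 3) : Ps Q (mm Q i) = wbase (torusHeis (torusMer i)) := by
  rw [Ps, MonoidHom.comp_apply, mm, Monoid.Coprod.map_apply_inl, toWreath_inl]

theorem Ps_inr (q : Q) : Ps Q (Monoid.Coprod.inr q) = RegularWreathProduct.inl q := by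
  rw [Ps, MonoidHom.comp_apply, Monoid.Coprod.map_apply_inr, toWreath_inr]
  rfl

theorem Ps_fsupp (w : Monoid.Coprod TorusGroup Q) : Ps Q w ∈ fsupp Heis Q :=
  toWreath_mem_fsupp _ _

/-- Elements with vanishing second coordinate. -/
def hy : Subgroup Heis where
  carrier := {a | a.y = 0}
  one_mem' := rfl
  mul_mem' := by
    intro a b ha hb
    change a.y + b.y = 0
    rw [show a.y = 0 from ha, show b.y = 0 from hb, add_zero]
  inv_mem' := by
    intro a ha
    change -a.y = 0
    rw [show a.y = 0 from ha, neg_zero]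

/-- Elements with vanishing first coordinate. -/
def hx : Subgroup Heis where
  carrier := {a | a.x = 0}
  one_mem' := rfl
  mul_mem' := by
    intro a b ha hb
    change a.x + b.x = 0
    rw [show a.x = 0 from ha, show b.x = 0 from hb, add_zero]
  inv_mem' := by
    intro a ha
    change -a.x = 0
    rw [show a.x = 0 from ha, neg_zero]

instance : hy.Normal where
  conj_mem := by
    intro a ha g
    change (g * a * g⁻¹).y = 0
    have : a.y = 0 := ha
    simp [this]

instance : hx.Normal where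
  conj_mem := by
    intro a ha g
    change (g * a * g⁻¹).x = 0
    have : a.x = 0 := ha
    simp [this]

theorem mer0_le : mer (mm Q) 0 ≤ (pw Q hy).comap (Ps Q) := by
  refine Subgroup.normalClosure_le_normal ?_
  rw [Set.singleton_subset_iff]
  change Ps Q (mm Q 0) ∈ pw Q hy
  rw [Ps_mm, torusHeis_0]
  exact wbase_mem_pw _ _ rfl

theorem mer1_le : mer (mm Q) 1 ≤ (pw Q hx).comap (Ps Q) := by
  refine Subgroup.normalClosure_le_normal ?_
  rw [Set.singleton_subset_iff]
  change Ps Q (mm Q 1) ∈ pw Q hx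
  rw [Ps_mm, torusHeis_1]
  exact wbase_mem_pw _ _ rfl

theorem mer_le_top (i : Fin 3) : mer (mm Q) i ≤ (pw Q (⊤ : Subgroup Heis)).comap (Ps Q) := by
  refine Subgroup.normalClosure_le_normal ?_
  rw [Set.singleton_subset_iff]
  change Ps Q (mm Q i) ∈ pw Q ⊤
  rw [Ps_mm]
  exact wbase_mem_pw _ _ trivial

theorem Ps_NN (w : Monoid.Coprod TorusGroup Q) (hw : w ∈ NN Q) : Ps Q w = 1 := by
  have h : NN Q ≤ (pw Q (⊥ : Subgroup Heis)).comap (Ps Q) := by
    refine iSup_le fun σ => ?_
    rw [leftNormed_ofFn']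
    refine (cc_le_pw (Ps Q) (mer (mm Q)) (fun _ => (⊤ : Subgroup Heis)) _
      (fun i _ => mer_le_top i) ?_).trans ?_
    · intro h
      have := congrArg List.length h
      simp at this
    · refine Subgroup.comap_mono (pw_mono ?_)
      have : cc (fun _ : Fin 3 => (⊤ : Subgroup Heis)) (List.ofFn σ) =
          ⁅⁅(⊤ : Subgroup Heis), (⊤ : Subgroup Heis)⁆, (⊤ : Subgroup Heis)⁆ := by
        simp [cc, leftNormed, List.ofFn_succ]
      rw [this, Heis.triple]
  obtain ⟨h1, h2⟩ := h hw
  refine RegularWreathProduct.ext ?_ h1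
  funext q
  exact h2 q

/-- The coordinates in the integral group ring. -/
noncomputable def rho (w : Monoid.Coprod TorusGroup Q) : Q →₀ ℤ :=
  Finsupp.ofSupportFinite (fun q => ((Ps Q w).left q).z)
    ((show {q | (Ps Q w).left q ≠ 1}.Finite from Ps_fsupp w).subset (by
      intro q hq
      rw [Function.mem_support] at hq
      intro h
      exact hq (by rw [h]; rfl)))

theorem rho_apply (w : Monoid.Coprod TorusGroup Q) (q : Q) : rho w q = ((Ps Q w).left q).z := rfl

theorem rho_mul (w w' : Monoid.Coprod TorusGroup Q) (hw : w ∈ M3 Q) :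
    rho (w * w') = rho w + rho w' := by
  obtain ⟨⟨h0, h1⟩, -⟩ := hw
  obtain ⟨h2, h3⟩ := mer1_le h1
  ext q
  rw [Finsupp.add_apply, rho_apply, rho_apply, rho_apply, map_mul, RegularWreathProduct.mul_left,
    Pi.mul_apply, h2, Heis.mul_z]
  have h4 : ((Ps Q w).left q).x = 0 := h3 q
  rw [h4]
  simp

theorem rho_NN (w : Monoid.Coprod TorusGroup Q) (hw : w ∈ NN Q) : rho w = 0 := by
  ext q
  rw [rho_apply, Ps_NN w hw]
  rfl

theorem NN_le_M3 : NN Q ≤ M3 Q := le_inf (le_inf (NN_le_mer 0) (NN_le_mer 1)) (NN_le_mer 2)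

theorem rho_inv (w : Monoid.Coprod TorusGroup Q) (hw : w ∈ M3 Q) : rho w⁻¹ = - rho w := by
  have h := rho_mul w w⁻¹ hw
  rw [mul_inv_cancel, rho_NN 1 (one_mem _)] at h
  exact (neg_eq_of_add_eq_zero_right h.symm).symm

theorem rho_eq (q : Q) : rho (eq q) = Finsupp.single q 1 := by
  classical
  ext q'
  rw [rho_apply, eq, map_mul, map_mul, map_inv, Ps_inr]
  have h1 : Ps Q (ee Q) = wbase (⟨0, 0, 1⟩ : Heis) := by
    rw [ee, map_commutatorElement, Ps_mm, Ps_mm, ← map_commutatorElement, ← map_commutatorElement,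
      torusHeis_comm]
  rw [h1]
  simp only [RegularWreathProduct.mul_left, RegularWreathProduct.inv_left, Pi.mul_apply,
    RegularWreathProduct.left_inl, RegularWreathProduct.right_inl, Pi.one_apply, one_mul,
    inv_one, mul_one, wbase_left]
  rw [Finsupp.single_apply]
  have h2 : (q⁻¹ * q' = 1) ↔ q = q' := by rw [inv_mul_eq_one]
  simp only [h2]
  split_ifs <;> rfl

/-- The coordinates on the free group. -/
noncomputable def rhoF (Q : Type*) [Group Q] : FreeGroup Q →* Multiplicative (Q →₀ ℤ) where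
  toFun f := Multiplicative.ofAdd (rho (eh Q f))
  map_one' := by
    rw [map_one, rho_NN 1 (one_mem _)]
    rfl
  map_mul' f f' := by
    rw [map_mul, rho_mul _ _ (TT_le_M3 (eh_mem_TT f))]
    rfl

theorem rhoF_of (q : Q) : rhoF Q (FreeGroup.of q) =
    Multiplicative.ofAdd (Finsupp.single q 1) := by
  change Multiplicative.ofAdd (rho (eh Q (FreeGroup.of q))) = _
  rw [eh_of, rho_eq]

theorem rhoF_eq : rhoF Q = (AddMonoidHom.toMultiplicative
    (FreeAbelianGroup.equivFinsupp Q).toAddMonoidHom).comp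
      (Abelianization.of : FreeGroup Q →* Abelianization (FreeGroup Q)) := by
  refine FreeGroup.ext_hom _ _ fun q => ?_
  rw [rhoF_of]
  change _ = Multiplicative.ofAdd (FreeAbelianGroup.toFinsupp (FreeAbelianGroup.of q))
  rw [FreeAbelianGroup.toFinsupp_of]

theorem rhoF_surjective : Function.Surjective (rhoF Q) := by
  rw [rhoF_eq]
  intro x
  obtain ⟨y, hy⟩ := (FreeAbelianGroup.equivFinsupp Q).surjective (Multiplicative.toAdd x)
  obtain ⟨f, hf⟩ := QuotientGroup.mk_surjective (show Abelianization (FreeGroup Q) from y)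
  refine ⟨f, ?_⟩
  exact (congrArg (fun y : FreeAbelianGroup Q =>
    Multiplicative.ofAdd (FreeAbelianGroup.equivFinsupp Q y)) hf).trans
      (congrArg Multiplicative.ofAdd hy)

theorem rhoF_ker (f : FreeGroup Q) (hf : rhoF Q f = 1) : f ∈ commutator (FreeGroup Q) := by
  rw [rhoF_eq] at hf
  have h1 : (FreeAbelianGroup.equivFinsupp Q)
      (show FreeAbelianGroup Q from Additive.ofMul (Abelianization.of f)) = 0 := hf
  rw [map_eq_zero_iff _ (FreeAbelianGroup.equivFinsupp Q).injective] at h1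
  have h2 : (Abelianization.of f : Abelianization (FreeGroup Q)) = 1 := h1
  rw [← Abelianization.ker_of]
  exact h2

theorem eh_comm_mem (f : FreeGroup Q) (hf : f ∈ commutator (FreeGroup Q)) : eh Q f ∈ NN Q := by
  have h : commutator (FreeGroup Q) ≤ (NN Q).comap (eh Q) := by
    rw [commutator_def, commutator_le]
    intro a _ b _
    change eh Q ⁅a, b⁆ ∈ NN Q
    rw [map_commutatorElement]
    refine TT_comm 0 (commutator_mem_commutator (eh_mem_TT a) ?_)
    exact (TT_le_M3 (eh_mem_TT b)).1.1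
  exact h hf

/-- An element of the intersection with vanishing coordinates lies in the symmetric product. -/
theorem mem_NN_of_rho (w : Monoid.Coprod TorusGroup Q) (hw : w ∈ M3 Q) (h : rho w = 0) :
    w ∈ NN Q := by
  obtain ⟨f, n, hn, rfl⟩ := exists_eh w hw
  rw [rho_mul _ _ (TT_le_M3 (eh_mem_TT f)), rho_NN n hn, add_zero] at h
  refine mul_mem (eh_comm_mem f (rhoF_ker f ?_)) hn
  change Multiplicative.ofAdd (rho (eh Q f)) = 1
  rw [h]
  rfl

variable {Q' : Type*} [Group Q']

/-- The map of free products. -/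
def mapP (φ : Q →* Q') : Monoid.Coprod TorusGroup Q →* Monoid.Coprod TorusGroup Q' :=
  Monoid.Coprod.map (MonoidHom.id _) φ

theorem mapP_mm (φ : Q →* Q') (i : Fin 3) : mapP φ (mm Q i) = mm Q' i := by
  rw [mapP, mm, Monoid.Coprod.map_apply_inl]
  rfl

theorem mapP_inr (φ : Q →* Q') (q : Q) :
    mapP φ (Monoid.Coprod.inr q) = Monoid.Coprod.inr (φ q) := by
  rw [mapP, Monoid.Coprod.map_apply_inr]

theorem mapP_mer (φ : Q →* Q') (i : Fin 3) : mer (mm Q) i ≤ (mer (mm Q') i).comap (mapP φ) := by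
  refine Subgroup.normalClosure_le_normal ?_
  rw [Set.singleton_subset_iff]
  change mapP φ (mm Q i) ∈ mer (mm Q') i
  rw [mapP_mm]
  exact mm_mem i

theorem mapP_M3 (φ : Q →* Q') (w : Monoid.Coprod TorusGroup Q) (hw : w ∈ M3 Q) :
    mapP φ w ∈ M3 Q' :=
  ⟨⟨mapP_mer φ 0 hw.1.1, mapP_mer φ 1 hw.1.2⟩, mapP_mer φ 2 hw.2⟩

theorem cc_map_le {G G' ι : Type*} [Group G] [Group G'] [DecidableEq ι] (ψ : G →* G')
    (R : ι → Subgroup G) (S : ι → Subgroup G') (l : List ι)
    (h : ∀ i ∈ l, R i ≤ (S i).comap ψ) (hne : l ≠ []) : cc R l ≤ (cc S l).comap ψ := by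
  induction l using List.reverseRecOn with
  | nil => exact absurd rfl hne
  | append_singleton l j ih =>
    by_cases hl : l = []
    · subst hl
      simpa [cc_single] using h j (by simp)
    · rw [cc_snoc R l hl, cc_snoc S l hl]
      have h1 := ih (fun i hi => h i (by simp [hi])) hl
      have h2 := h j (by simp)
      rw [← Subgroup.map_le_iff_le_comap] at h1 h2 ⊢
      rw [Subgroup.map_commutator]
      exact commutator_mono h1 h2

theorem mapP_NN (φ : Q →* Q') (w : Monoid.Coprod TorusGroup Q) (hw : w ∈ NN Q) :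
    mapP φ w ∈ NN Q' := by
  have h : NN Q ≤ (NN Q').comap (mapP φ) := by
    refine iSup_le fun σ => ?_
    rw [leftNormed_ofFn']
    refine (cc_map_le (mapP φ) (mer (mm Q)) (mer (mm Q')) _ (fun i _ => mapP_mer φ i) ?_).trans ?_
    · intro h
      have := congrArg List.length h
      simp at this
    · refine Subgroup.comap_mono ?_
      rw [← leftNormed_ofFn']
      exact le_iSup (fun σ : Equiv.Perm (Fin 3) =>
        leftNormed (List.ofFn fun i => mer (mm Q') (σ i))) σ
  exact h hw

theorem mapP_eh (φ : Q →* Q') (f : FreeGroup Q) :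
    mapP φ (eh Q f) = eh Q' (FreeGroup.map φ f) := by
  have h : (mapP φ).comp (eh Q) = (eh Q').comp (FreeGroup.map φ) := by
    refine FreeGroup.ext_hom _ _ fun q => ?_
    rw [MonoidHom.comp_apply, MonoidHom.comp_apply, eh_of, FreeGroup.map.of, eh_of, eq, eq,
      map_mul, map_mul, map_inv, mapP_inr, ee, ee, map_commutatorElement, mapP_mm, mapP_mm]
  exact DFunLike.congr_fun h f

theorem rho_mapP (φ : Q →* Q') (w : Monoid.Coprod TorusGroup Q) (hw : w ∈ M3 Q) :
    rho (mapP φ w) = Finsupp.mapDomain φ (rho w) := by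
  obtain ⟨f, n, hn, rfl⟩ := exists_eh w hw
  have h1 : ∀ f : FreeGroup Q, rho (eh Q' (FreeGroup.map φ f)) =
      Finsupp.mapDomain φ (rho (eh Q f)) := by
    have h : (rhoF Q').comp (FreeGroup.map φ) =
        (AddMonoidHom.toMultiplicative (Finsupp.mapDomain.addMonoidHom φ)).comp (rhoF Q) := by
      refine FreeGroup.ext_hom _ _ fun q => ?_
      rw [MonoidHom.comp_apply, MonoidHom.comp_apply, FreeGroup.map.of, rhoF_of, rhoF_of]
      change Multiplicative.ofAdd (Finsupp.single (φ q) 1) =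
        Multiplicative.ofAdd (Finsupp.mapDomain φ (Finsupp.single q 1))
      rw [Finsupp.mapDomain_single]
    intro f
    exact DFunLike.congr_fun h f
  rw [map_mul, mapP_eh, rho_mul _ _ (TT_le_M3 (eh_mem_TT _)), rho_NN _ (mapP_NN φ n hn), add_zero,
    rho_mul _ _ (TT_le_M3 (eh_mem_TT f)), rho_NN n hn, add_zero]
  exact h1 f

end Pool.Agent.Lib.MP_a6d6d3_gt
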