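import Pool.Agent.Lib.MP_a6d6d3_gt.Torus

/-!
The group `T(3,3)` free product `Q`: generation of `[R₀, R₁]` modulo the symmetric commutator
product.
-/

namespace Pool.Agent.Lib.MP_a6d6d3_gt

open Subgroup
open scoped commutatorElement

set_option linter.unusedSectionVars false
set_option linter.style.haveILetI false

/-- Triple commutators lie in the symmetric commutator product. -/
theorem tri_le {G : Type*} [Group G] (R : Fin 3 → Subgroup G) (i j k : Fin 3) (h1 : i ≠ j)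
    (h2 : i ≠ k) (h3 : j ≠ k) : ⁅⁅R i, R j⁆, R k⁆ ≤ symmetricCommutator R := by
  rw [symmetricCommutator_eq_ss]
  have h4 : cc R [i, j, k] = ⁅⁅R i, R j⁆, R k⁆ := by
    simp [cc, leftNormed]
  rw [← h4]
  refine cc_le_ss R _ _ (by simp [h1, h2, h3]) ?_
  ext x
  simp only [List.mem_toFinset, List.mem_cons, List.not_mem_nil, or_false, Finset.mem_univ,
    iff_true]
  revert i j k x
  intro i j k h1 h2 h3 _ x
  fin_cases i <;> fin_cases j <;> fin_cases k <;> fin_cases x <;> simp_all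

section gen
variable {G : Type*} [Group G]

theorem mem_normalizer_of (H : Subgroup G) (g : G) (h1 : ∀ x ∈ H, g * x * g⁻¹ ∈ H)
    (h2 : ∀ x ∈ H, g⁻¹ * x * g ∈ H) : ∀ x, x ∈ H ↔ g * x * g⁻¹ ∈ H := by
  intro x
  refine ⟨h1 x, fun h => ?_⟩
  have := h2 _ h
  have e : g⁻¹ * (g * x * g⁻¹) * g = x := by group
  rwa [e] at this

/-- The elements conjugating `H` into itself together with their inverses. -/
def conjSub (H : Subgroup G) : Subgroup G where
  carrier := {g | (∀ x ∈ H, g * x * g⁻¹ ∈ H) ∧ (∀ x ∈ H, g⁻¹ * x * g ∈ H)}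
  one_mem' := ⟨by simp, by simp⟩
  mul_mem' := by
    rintro a b ⟨ha1, ha2⟩ ⟨hb1, hb2⟩
    refine ⟨fun x hx => ?_, fun x hx => ?_⟩
    · have := ha1 _ (hb1 x hx)
      have e : a * (b * x * b⁻¹) * a⁻¹ = a * b * x * (a * b)⁻¹ := by group
      rwa [e] at this
    · have := hb2 _ (ha2 x hx)
      have e : b⁻¹ * (a⁻¹ * x * a) * b = (a * b)⁻¹ * x * (a * b) := by group
      rwa [e] at this
  inv_mem' := by
    rintro a ⟨ha1, ha2⟩
    refine ⟨fun x hx => ?_, fun x hx => ?_⟩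
    · simpa using ha2 x hx
    · simpa using ha1 x hx

theorem normal_of_conjSub (H : Subgroup G) (h : conjSub H = ⊤) : H.Normal where
  conj_mem := by
    intro x hx g
    have : g ∈ conjSub H := by rw [h]; exact Subgroup.mem_top _
    exact this.1 x hx

end gen

variable {Q : Type*} [Group Q]

/-- A subgroup of the free product of the torus link group with `Q` containing the three meridians
and `Q` is everything. -/
theorem top_of_gen (H : Subgroup (Monoid.Coprod TorusGroup Q))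
    (h1 : ∀ i, Monoid.Coprod.inl (torusMer i) ∈ H) (h2 : ∀ q, Monoid.Coprod.inr q ∈ H) :
    H = ⊤ := by
  rw [eq_top_iff]
  intro x _
  have h3 : ∀ y : TorusGroup, y ∈ H.comap Monoid.Coprod.inl := by
    intro y
    exact PresentedGroup.generated_by torusRels _ (fun i => h1 i) y
  induction x using Monoid.Coprod.induction_on with
  | inl a => exact h3 a
  | inr q => exact h2 q
  | mul x y hx hy => exact mul_mem (hx trivial) (hy trivial)

/-- The three meridians of the torus link in the free product. -/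
def mm (Q : Type*) [Group Q] (i : Fin 3) : Monoid.Coprod TorusGroup Q :=
  Monoid.Coprod.inl (torusMer i)

/-- The symmetric commutator product of the three normal closures. -/
def NN (Q : Type*) [Group Q] : Subgroup (Monoid.Coprod TorusGroup Q) :=
  symmetricCommutator (mer (mm Q))

instance : (NN Q).Normal := by unfold NN; infer_instance

theorem mm_mem (i : Fin 3) : mm Q i ∈ mer (mm Q) i := Subgroup.subset_normalClosure rfl

theorem mm_rel1 : mm Q 0 * mm Q 1 * mm Q 2 = mm Q 1 * mm Q 2 * mm Q 0 := by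
  simp only [mm, ← map_mul]
  rw [torusMer_rel1]

theorem mm_rel2 : mm Q 1 * mm Q 2 * mm Q 0 = mm Q 2 * mm Q 0 * mm Q 1 := by
  simp only [mm, ← map_mul]
  rw [torusMer_rel2]

/-- The commutator of the first two meridians. -/
def ee (Q : Type*) [Group Q] : Monoid.Coprod TorusGroup Q := ⁅mm Q 0, mm Q 1⁆

theorem ee_mem01 : ee Q ∈ ⁅mer (mm Q) 0, mer (mm Q) 1⁆ :=
  commutator_mem_commutator (mm_mem 0) (mm_mem 1)

theorem ee_mem21 : ee Q ∈ ⁅mer (mm Q) 2, mer (mm Q) 1⁆ := by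
  have h1 : ee Q = ⁅(mm Q 2)⁻¹, mm Q 1⁆ := by
    rw [ee, commutatorElement_def, commutatorElement_def, inv_inv]
    have h := mm_rel2 (Q := Q)
    have h2 : mm Q 0 * mm Q 1 = (mm Q 2)⁻¹ * (mm Q 1 * mm Q 2 * mm Q 0) := by
      rw [h]; group
    rw [h2]; group
  rw [h1]
  exact commutator_mem_commutator (inv_mem (mm_mem 2)) (mm_mem 1)

theorem ee_mem20 : ee Q ∈ ⁅mer (mm Q) 2, mer (mm Q) 0⁆ := by
  have h1 : ee Q = mm Q 1 * ⁅mm Q 2, mm Q 0⁆ * (mm Q 1)⁻¹ := by
    rw [ee, commutatorElement_def, commutatorElement_def]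
    have h := mm_rel1 (Q := Q)
    have h2 : mm Q 2 * mm Q 0 = (mm Q 1)⁻¹ * (mm Q 0 * mm Q 1 * mm Q 2) := by
      rw [h]; group
    rw [h2]; group
  rw [h1]
  have hn : (⁅mer (mm Q) 2, mer (mm Q) 0⁆ : Subgroup _).Normal := inferInstance
  exact hn.conj_mem _ (commutator_mem_commutator (mm_mem 2) (mm_mem 0)) _

/-- The intersection of the three pairwise commutators. -/
def TT (Q : Type*) [Group Q] : Subgroup (Monoid.Coprod TorusGroup Q) :=
  ⁅mer (mm Q) 0, mer (mm Q) 1⁆ ⊓ ⁅mer (mm Q) 2, mer (mm Q) 1⁆ ⊓ ⁅mer (mm Q) 2, mer (mm Q) 0⁆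

instance : (TT Q).Normal := by unfold TT; infer_instance

theorem ee_mem_TT : ee Q ∈ TT Q := ⟨⟨ee_mem01, ee_mem21⟩, ee_mem20⟩

theorem TT_comm (i : Fin 3) : ⁅TT Q, mer (mm Q) i⁆ ≤ NN Q := by
  fin_cases i
  · refine (commutator_mono (inf_le_left.trans inf_le_right) le_rfl).trans ?_
    exact tri_le _ 2 1 0 (by decide) (by decide) (by decide)
  · refine (commutator_mono inf_le_right le_rfl).trans ?_
    exact tri_le _ 2 0 1 (by decide) (by decide) (by decide)
  · refine (commutator_mono (inf_le_left.trans inf_le_left) le_rfl).trans ?_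
    exact tri_le _ 0 1 2 (by decide) (by decide) (by decide)

/-- The group generated by the second meridian and `Q`. -/
abbrev BB (Q : Type*) [Group Q] : Type _ := Monoid.Coprod (Multiplicative ℤ) Q

/-- The generator of the infinite cyclic factor. -/
def bb (Q : Type*) [Group Q] : BB Q := Monoid.Coprod.inl (Multiplicative.ofAdd 1)

/-- The homomorphism from `BB`. -/
def jj (Q : Type*) [Group Q] : BB Q →* Monoid.Coprod TorusGroup Q :=
  Monoid.Coprod.lift (zpowersHom _ (mm Q 1)) Monoid.Coprod.inr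

theorem jj_bb : jj Q (bb Q) = mm Q 1 := by
  simp [jj, bb]

theorem jj_inr (q : Q) : jj Q (Monoid.Coprod.inr q) = Monoid.Coprod.inr q := by
  simp [jj]

/-- The retraction onto `Q`. -/
def sq (Q : Type*) [Group Q] : BB Q →* Q := Monoid.Coprod.snd

theorem sq_bb : sq Q (bb Q) = 1 := by simp [sq, bb]

theorem sq_inr (q : Q) : sq Q (Monoid.Coprod.inr q) = q := by simp [sq]

theorem bb_hom_ext {G : Type*} [Group G] {f g : BB Q →* G} (h1 : f (bb Q) = g (bb Q))
    (h2 : ∀ q, f (Monoid.Coprod.inr q) = g (Monoid.Coprod.inr q)) : f = g := by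
  refine Monoid.Coprod.hom_ext ?_ ?_
  · ext
    exact h1
  · ext q
    exact h2 q

/-- The conjugate of the first meridian by an element of `Q`. -/
def aq (q : Q) : Monoid.Coprod TorusGroup Q :=
  Monoid.Coprod.inr q * mm Q 0 * (Monoid.Coprod.inr q)⁻¹

/-- The elements `a^g (a^{q(g)})⁻¹`. -/
def uu (g : BB Q) : Monoid.Coprod TorusGroup Q :=
  jj Q g * mm Q 0 * (jj Q g)⁻¹ * (aq (sq Q g))⁻¹

/-- The homomorphism from the free group on `Q`. -/
def ll (Q : Type*) [Group Q] : FreeGroup Q →* Monoid.Coprod TorusGroup Q :=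
  FreeGroup.lift aq

theorem ll_of (q : Q) : ll Q (FreeGroup.of q) = aq q := by simp [ll]

theorem aq_mem (q : Q) : aq q ∈ mer (mm Q) 0 :=
  (inferInstance : (mer (mm Q) 0).Normal).conj_mem _ (mm_mem 0) _

theorem ll_mem (f : FreeGroup Q) : ll Q f ∈ mer (mm Q) 0 := by
  have h : (ll Q).range ≤ mer (mm Q) 0 := by
    rw [ll, FreeGroup.range_lift_eq_closure, Subgroup.closure_le]
    rintro x ⟨q, rfl⟩
    exact aq_mem q
  exact h ⟨f, rfl⟩

/-- The action of `Q` on the free group on `Q`. -/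
theorem inr_conj_ll (q : Q) (f : FreeGroup Q) :
    Monoid.Coprod.inr q * ll Q f * (Monoid.Coprod.inr q)⁻¹ =
      ll Q (FreeGroup.map (fun x => q * x) f) := by
  have h : (MulAut.conj (Monoid.Coprod.inr q : Monoid.Coprod TorusGroup Q)).toMonoidHom.comp
      (ll Q) = (ll Q).comp (FreeGroup.map (fun x => q * x)) := by
    ext x
    simp [ll, aq, mul_assoc]
  exact DFunLike.congr_fun h f

/-- Conjugates of `u_g` by elements of `Q`. -/
theorem inr_conj_uu (q : Q) (g : BB Q) :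
    Monoid.Coprod.inr q * uu g * (Monoid.Coprod.inr q)⁻¹ = uu (Monoid.Coprod.inr q * g) := by
  rw [uu, uu, map_mul, jj_inr, map_mul, sq_inr, aq, aq, map_mul]
  group

/-- Conjugates of `u_g` by powers of the second meridian. -/
theorem b_conj_uu (k : ℤ) (g : BB Q) :
    (mm Q 1) ^ k * uu g * ((mm Q 1) ^ k)⁻¹ =
      uu (bb Q ^ k * g) * (uu (bb Q ^ k * Monoid.Coprod.inr (sq Q g)))⁻¹ := by
  simp only [uu, map_mul, map_zpow, jj_bb, sq_bb, one_zpow, one_mul, jj_inr, sq_inr, aq]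
  group

/-- The subgroup `H₀` generated by the conjugates of the `u_g`. -/
def HH (Q : Type*) [Group Q] : Subgroup (Monoid.Coprod TorusGroup Q) :=
  Subgroup.closure (Set.range fun x : BB Q × FreeGroup Q => ll Q x.2 * uu x.1 * (ll Q x.2)⁻¹)

theorem HH_gen (g : BB Q) (f : FreeGroup Q) : ll Q f * uu g * (ll Q f)⁻¹ ∈ HH Q :=
  Subgroup.subset_closure ⟨(g, f), rfl⟩

theorem uu_mem_HH (g : BB Q) : uu g ∈ HH Q := by
  have := HH_gen g 1
  simpa using this

theorem HH_le_of {K : Subgroup (Monoid.Coprod TorusGroup Q)}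
    (h : ∀ g f, ll Q f * uu g * (ll Q f)⁻¹ ∈ K) : HH Q ≤ K := by
  rw [HH, Subgroup.closure_le]
  rintro x ⟨⟨g, f⟩, rfl⟩
  exact h g f

theorem ll_conj_HH (f : FreeGroup Q) (x : Monoid.Coprod TorusGroup Q) (hx : x ∈ HH Q) :
    ll Q f * x * (ll Q f)⁻¹ ∈ HH Q := by
  have h : HH Q ≤ (HH Q).comap (MulAut.conj (ll Q f)).toMonoidHom := by
    refine HH_le_of fun g f' => ?_
    change ll Q f * (ll Q f' * uu g * (ll Q f')⁻¹) * (ll Q f)⁻¹ ∈ HH Q
    have := HH_gen g (f * f')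
    rw [map_mul] at this
    have e : ll Q f * ll Q f' * uu g * (ll Q f * ll Q f')⁻¹ =
        ll Q f * (ll Q f' * uu g * (ll Q f')⁻¹) * (ll Q f)⁻¹ := by group
    rwa [e] at this
  exact h hx

/-- The commutators of powers of `b` with the `a`-words. -/
theorem b_comm_ll (k : ℤ) (f : FreeGroup Q) :
    (mm Q 1) ^ k * ll Q f * ((mm Q 1) ^ k)⁻¹ * (ll Q f)⁻¹ ∈ HH Q := by
  have hof : ∀ q : Q, (mm Q 1) ^ k * aq q * ((mm Q 1) ^ k)⁻¹ * (aq q)⁻¹ ∈ HH Q := by
    intro q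
    have h := uu_mem_HH (bb Q ^ k * Monoid.Coprod.inr q)
    have e : uu (bb Q ^ k * Monoid.Coprod.inr q) =
        (mm Q 1) ^ k * aq q * ((mm Q 1) ^ k)⁻¹ * (aq q)⁻¹ := by
      simp only [uu, map_mul, map_zpow, jj_bb, sq_bb, one_zpow, one_mul, jj_inr, sq_inr, aq]
      group
    rwa [e] at h
  -- multiplicativity
  have hmul : ∀ f f' : FreeGroup Q,
      (mm Q 1) ^ k * ll Q f * ((mm Q 1) ^ k)⁻¹ * (ll Q f)⁻¹ ∈ HH Q →
      (mm Q 1) ^ k * ll Q f' * ((mm Q 1) ^ k)⁻¹ * (ll Q f')⁻¹ ∈ HH Q →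
      (mm Q 1) ^ k * ll Q (f * f') * ((mm Q 1) ^ k)⁻¹ * (ll Q (f * f'))⁻¹ ∈ HH Q := by
    intro f f' h1 h2
    have h3 := mul_mem h1 (ll_conj_HH f _ h2)
    have e : (mm Q 1) ^ k * ll Q f * ((mm Q 1) ^ k)⁻¹ * (ll Q f)⁻¹ *
        (ll Q f * ((mm Q 1) ^ k * ll Q f' * ((mm Q 1) ^ k)⁻¹ * (ll Q f')⁻¹) * (ll Q f)⁻¹) =
        (mm Q 1) ^ k * ll Q (f * f') * ((mm Q 1) ^ k)⁻¹ * (ll Q (f * f'))⁻¹ := by
      rw [map_mul]; group
    rwa [e] at h3
  induction f using FreeGroup.induction_on with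
  | C1 => simp
  | of q => rw [ll_of]; exact hof q
  | inv_of q _ =>
    rw [map_inv, ll_of]
    have h1 := inv_mem (ll_conj_HH (FreeGroup.of q)⁻¹ _ (hof q))
    rw [map_inv, ll_of] at h1
    have e : ((aq q)⁻¹ * ((mm Q 1) ^ k * aq q * ((mm Q 1) ^ k)⁻¹ * (aq q)⁻¹) * (aq q)⁻¹⁻¹)⁻¹ =
        (mm Q 1) ^ k * (aq q)⁻¹ * ((mm Q 1) ^ k)⁻¹ * (aq q)⁻¹⁻¹ := by group
    rwa [e] at h1
  | mul f f' h1 h2 => exact hmul f f' h1 h2

theorem b_conj_HH (k : ℤ) (x : Monoid.Coprod TorusGroup Q) (hx : x ∈ HH Q) :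
    (mm Q 1) ^ k * x * ((mm Q 1) ^ k)⁻¹ ∈ HH Q := by
  have h : HH Q ≤ (HH Q).comap (MulAut.conj ((mm Q 1) ^ k)).toMonoidHom := by
    refine HH_le_of fun g f => ?_
    change (mm Q 1) ^ k * (ll Q f * uu g * (ll Q f)⁻¹) * ((mm Q 1) ^ k)⁻¹ ∈ HH Q
    have h1 := b_comm_ll k f
    have h2 : (mm Q 1) ^ k * uu g * ((mm Q 1) ^ k)⁻¹ ∈ HH Q := by
      rw [b_conj_uu]
      exact mul_mem (uu_mem_HH _) (inv_mem (uu_mem_HH _))
    have h3 := mul_mem (mul_mem h1 (ll_conj_HH f _ h2)) (inv_mem h1)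
    have e : (mm Q 1) ^ k * ll Q f * ((mm Q 1) ^ k)⁻¹ * (ll Q f)⁻¹ *
        (ll Q f * ((mm Q 1) ^ k * uu g * ((mm Q 1) ^ k)⁻¹) * (ll Q f)⁻¹) *
        ((mm Q 1) ^ k * ll Q f * ((mm Q 1) ^ k)⁻¹ * (ll Q f)⁻¹)⁻¹ =
        (mm Q 1) ^ k * (ll Q f * uu g * (ll Q f)⁻¹) * ((mm Q 1) ^ k)⁻¹ := by group
    rwa [e] at h3
  exact h hx

theorem inr_conj_HH (q : Q) (x : Monoid.Coprod TorusGroup Q) (hx : x ∈ HH Q) :
    Monoid.Coprod.inr q * x * (Monoid.Coprod.inr q)⁻¹ ∈ HH Q := by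
  have h : HH Q ≤ (HH Q).comap (MulAut.conj (Monoid.Coprod.inr q)).toMonoidHom := by
    refine HH_le_of fun g f => ?_
    change Monoid.Coprod.inr q * (ll Q f * uu g * (ll Q f)⁻¹) * (Monoid.Coprod.inr q)⁻¹ ∈ HH Q
    have h3 := HH_gen (Monoid.Coprod.inr q * g) (FreeGroup.map (fun x => q * x) f)
    rw [← inr_conj_ll, ← inr_conj_uu] at h3
    have e : Monoid.Coprod.inr q * ll Q f * (Monoid.Coprod.inr q)⁻¹ *
        (Monoid.Coprod.inr q * uu g * (Monoid.Coprod.inr q)⁻¹) *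
        (Monoid.Coprod.inr q * ll Q f * (Monoid.Coprod.inr q)⁻¹)⁻¹ =
        Monoid.Coprod.inr q * (ll Q f * uu g * (ll Q f)⁻¹) * (Monoid.Coprod.inr q)⁻¹ := by group
    rwa [e] at h3
  exact h hx

theorem jj_mul_inv_mem (g : BB Q) :
    jj Q g * (Monoid.Coprod.inr (sq Q g))⁻¹ ∈ mer (mm Q) 1 := by
  have h : (QuotientGroup.mk' (mer (mm Q) 1)).comp (jj Q) =
      ((QuotientGroup.mk' (mer (mm Q) 1)).comp Monoid.Coprod.inr).comp (sq Q) := by
    refine bb_hom_ext ?_ ?_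
    · simp only [MonoidHom.comp_apply, jj_bb, sq_bb, map_one]
      exact (QuotientGroup.eq_one_iff _).2 (mm_mem 1)
    · intro q
      simp only [MonoidHom.comp_apply, jj_inr, sq_inr]
  refine (QuotientGroup.eq_one_iff _).1 ?_
  change QuotientGroup.mk' (mer (mm Q) 1) (jj Q g * (Monoid.Coprod.inr (sq Q g))⁻¹) = 1
  rw [map_mul, map_inv, mul_inv_eq_one]
  exact DFunLike.congr_fun h g

theorem uu_mem_comm (g : BB Q) : uu g ∈ ⁅mer (mm Q) 0, mer (mm Q) 1⁆ := by
  rw [commutator_comm]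
  have h1 : uu g = ⁅jj Q g * (Monoid.Coprod.inr (sq Q g))⁻¹, aq (sq Q g)⁆ := by
    rw [uu, commutatorElement_def, aq]
    group
  rw [h1]
  exact commutator_mem_commutator (jj_mul_inv_mem g) (aq_mem _)

theorem HH_le_comm : HH Q ≤ ⁅mer (mm Q) 0, mer (mm Q) 1⁆ := by
  refine HH_le_of fun g f => ?_
  exact (inferInstance : (⁅mer (mm Q) 0, mer (mm Q) 1⁆ : Subgroup _).Normal).conj_mem _
    (uu_mem_comm g) _

/-- The normal closure of the commutator of the meridians together with the symmetric product. -/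
def M0 (Q : Type*) [Group Q] : Subgroup (Monoid.Coprod TorusGroup Q) :=
  Subgroup.normalClosure {ee Q} ⊔ NN Q

instance : (M0 Q).Normal := by unfold M0; infer_instance

theorem NN_le_M0 : NN Q ≤ M0 Q := le_sup_right

theorem ee_mem_M0 : ee Q ∈ M0 Q :=
  (le_sup_left : _ ≤ M0 Q) (Subgroup.subset_normalClosure rfl)

/-- The subgroup generating the commutator. -/
def YY (Q : Type*) [Group Q] : Subgroup (Monoid.Coprod TorusGroup Q) := HH Q ⊔ M0 Q

theorem HH_le_YY : HH Q ≤ YY Q := le_sup_left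
theorem M0_le_YY : M0 Q ≤ YY Q := le_sup_right

theorem sup_conj {G : Type*} [Group G] (H K : Subgroup G) [hK : K.Normal] (g : G)
    (h : ∀ x ∈ H, g * x * g⁻¹ ∈ H ⊔ K) : ∀ x ∈ H ⊔ K, g * x * g⁻¹ ∈ H ⊔ K := by
  have h1 : H ⊔ K ≤ (H ⊔ K).comap (MulAut.conj g).toMonoidHom := by
    refine sup_le (fun x hx => h x hx) (fun x hx => ?_)
    exact (le_sup_right : K ≤ H ⊔ K) (hK.conj_mem x hx g)
  exact fun x hx => h1 hx

instance YY_normal : (YY Q).Normal := by
  change (HH Q ⊔ M0 Q).Normal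
  refine normal_of_conjSub _ (top_of_gen _ ?_ ?_)
  · intro i
    change mm Q i ∈ conjSub (HH Q ⊔ M0 Q)
    fin_cases i
    · refine ⟨sup_conj _ _ _ fun x hx => HH_le_YY ?_, ?_⟩
      · have := ll_conj_HH (FreeGroup.of 1) x hx
        rw [ll_of] at this
        simpa [aq] using this
      · have := sup_conj (HH Q) (M0 Q) (mm Q 0)⁻¹ (fun x hx => HH_le_YY ?_)
        · simpa using this
        · have := ll_conj_HH (FreeGroup.of 1)⁻¹ x hx
          rw [map_inv, ll_of] at this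
          simpa [aq] using this
    · refine ⟨sup_conj _ _ _ fun x hx => HH_le_YY ?_, ?_⟩
      · have := b_conj_HH 1 x hx
        simpa using this
      · have := sup_conj (HH Q) (M0 Q) (mm Q 1)⁻¹ (fun x hx => HH_le_YY ?_)
        · simpa using this
        · have := b_conj_HH (-1) x hx
          simpa using this
    · have h2 : ∀ g ∈ mer (mm Q) 2, ∀ x ∈ HH Q, g * x * g⁻¹ ∈ HH Q ⊔ M0 Q := by
        intro g hg x hx
        have h1 : ⁅x, g⁆ ∈ NN Q := by
          refine (tri_le (mer (mm Q)) 0 1 2 (by decide) (by decide) (by decide)) ?_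
          exact commutator_mem_commutator (HH_le_comm hx) hg
        have e : g * x * g⁻¹ = (⁅x, g⁆)⁻¹ * x := by
          rw [commutatorElement_def]; group
        rw [e]
        exact mul_mem (inv_mem (M0_le_YY (NN_le_M0 h1))) (HH_le_YY hx)
      refine ⟨sup_conj _ _ _ (h2 _ (mm_mem 2)), ?_⟩
      have := sup_conj (HH Q) (M0 Q) (mm Q 2)⁻¹ (h2 _ (inv_mem (mm_mem 2)))
      simpa using this
  · intro q
    refine ⟨sup_conj _ _ _ fun x hx => HH_le_YY (inr_conj_HH q x hx), ?_⟩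
    have := sup_conj (HH Q) (M0 Q) (Monoid.Coprod.inr q)⁻¹ (fun x hx => HH_le_YY ?_)
    · simpa using this
    · have := inr_conj_HH q⁻¹ x hx
      rwa [map_inv] at this

end Pool.Agent.Lib.MP_a6d6d3_gt
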