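import Pool.Agent.Lib.MP_a6d6d3_gt.Sym

/-!
Maps to wreath products and the group `G(L)` of split unions.
-/

namespace Pool.Agent.Lib.MP_a6d6d3_gt

open Subgroup
open scoped commutatorElement

set_option linter.unusedSectionVars false
set_option linter.style.haveILetI false

section
variable {A Q : Type*} [Group A] [Group Q]

/-- The base group embedded at the identity coordinate of the wreath product. -/
noncomputable def wbase : A →* A ≀ᵣ Q := by
  classical
  exact
  { toFun := fun a => ⟨Pi.mulSingle 1 a, 1⟩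
    map_one' := by
      ext q
      · simp
      · rfl
    map_mul' := fun a b => by
      ext q
      · simp [Pi.mulSingle_mul]
      · simp }

theorem wbase_left (a : A) (q : Q) [Decidable (q = 1)] :
    (wbase a : A ≀ᵣ Q).left q = if q = 1 then a else 1 := by
  classical
  simp only [wbase, MonoidHom.coe_mk, OneHom.coe_mk]
  rw [Pi.mulSingle_apply]
  split_ifs <;> rfl

theorem wbase_right (a : A) : (wbase a : A ≀ᵣ Q).right = 1 := rfl

/-- Elements of the base group with all coordinates in `N`. -/
def pw (Q : Type*) [Group Q] (N : Subgroup A) : Subgroup (A ≀ᵣ Q) where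
  carrier := {x | x.right = 1 ∧ ∀ q, x.left q ∈ N}
  one_mem' := ⟨rfl, fun q => one_mem _⟩
  mul_mem' := by
    rintro x y ⟨hx1, hx2⟩ ⟨hy1, hy2⟩
    refine ⟨by simp [hx1, hy1], fun q => ?_⟩
    rw [RegularWreathProduct.mul_left]
    exact mul_mem (hx2 q) (hy2 _)
  inv_mem' := by
    rintro x ⟨hx1, hx2⟩
    refine ⟨by simp [hx1], fun q => ?_⟩
    rw [RegularWreathProduct.inv_left]
    exact inv_mem (hx2 _)

theorem mem_pw (N : Subgroup A) (x : A ≀ᵣ Q) : x ∈ pw Q N ↔ x.right = 1 ∧ ∀ q, x.left q ∈ N :=
  Iff.rfl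

instance pw_normal (N : Subgroup A) [hN : N.Normal] : (pw Q N).Normal where
  conj_mem := by
    rintro x ⟨hx1, hx2⟩ g
    refine ⟨by simp [hx1], fun q => ?_⟩
    simp only [RegularWreathProduct.mul_left, RegularWreathProduct.inv_left, Pi.mul_apply,
      RegularWreathProduct.mul_right, hx1, mul_one, Pi.inv_apply]
    have h1 : g.right * (g.right⁻¹ * q) = q := by group
    rw [h1]
    exact hN.conj_mem _ (hx2 _) _

theorem pw_mono {N N' : Subgroup A} (h : N ≤ N') : pw Q N ≤ pw Q N' :=
  fun _ hx => ⟨hx.1, fun q => h (hx.2 q)⟩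

theorem commutator_pw_le (N N' : Subgroup A) : ⁅pw Q N, pw Q N'⁆ ≤ pw Q ⁅N, N'⁆ := by
  rw [commutator_le]
  rintro x ⟨hx1, hx2⟩ y ⟨hy1, hy2⟩
  refine ⟨by simp [commutatorElement_def, hx1, hy1], fun q => ?_⟩
  have : (⁅x, y⁆ : A ≀ᵣ Q).left q = ⁅x.left q, y.left q⁆ := by
    simp only [commutatorElement_def, RegularWreathProduct.mul_left,
      RegularWreathProduct.inv_left, Pi.mul_apply, RegularWreathProduct.mul_right, hx1, hy1,
      mul_one, one_mul, Pi.inv_apply, inv_one, RegularWreathProduct.inv_right]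
  rw [this]
  exact commutator_mem_commutator (hx2 q) (hy2 q)

variable {G : Type*} [Group G] {ι : Type*} [DecidableEq ι]

theorem cc_le_pw (ψ : G →* A ≀ᵣ Q) (R : ι → Subgroup G) (S : ι → Subgroup A)
    (l : List ι) (h : ∀ i ∈ l, R i ≤ (pw Q (S i)).comap ψ) (hne : l ≠ []) :
    cc R l ≤ (pw Q (cc S l)).comap ψ := by
  induction l using List.reverseRecOn with
  | nil => exact absurd rfl hne
  | append_singleton l j ih =>
    by_cases hl : l = []
    · subst hl
      simpa [cc_single] using h j (by simp)
    · rw [cc_snoc R l hl, cc_snoc S l hl]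
      have h1 := ih (fun i hi => h i (by simp [hi])) hl
      have h2 := h j (by simp)
      rw [← Subgroup.map_le_iff_le_comap] at h1 h2 ⊢
      rw [Subgroup.map_commutator]
      exact (commutator_mono h1 h2).trans (commutator_pw_le _ _)

/-- Elements of the wreath product of finite support. -/
def fsupp (A Q : Type*) [Group A] [Group Q] : Subgroup (A ≀ᵣ Q) where
  carrier := {x | {q | x.left q ≠ 1}.Finite}
  one_mem' := by simp
  mul_mem' := by
    intro x y hx hy
    have h1 : {q | (x * y).left q ≠ 1} ⊆ {q | x.left q ≠ 1} ∪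
        (fun q => x.right * q) '' {q | y.left q ≠ 1} := by
      intro q hq
      rw [Set.mem_ofPred_eq, RegularWreathProduct.mul_left, Pi.mul_apply] at hq
      by_cases hx' : x.left q = 1
      · right
        refine ⟨x.right⁻¹ * q, ?_, by group⟩
        rw [Set.mem_ofPred_eq]
        intro h2
        exact hq (by rw [hx', h2, one_mul])
      · exact Or.inl hx'
    exact (Set.Finite.union hx (Set.Finite.image _ hy)).subset h1
  inv_mem' := by
    intro x hx
    have h1 : {q | (x⁻¹).left q ≠ 1} ⊆ (fun q => x.right⁻¹ * q) '' {q | x.left q ≠ 1} := by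
      intro q hq
      rw [Set.mem_ofPred_eq, RegularWreathProduct.inv_left] at hq
      refine ⟨x.right * q, ?_, by group⟩
      rw [Set.mem_ofPred_eq]
      intro h2
      apply hq
      simp [h2]
    exact (Set.Finite.image _ hx).subset h1

theorem wbase_mem_fsupp (a : A) : (wbase a : A ≀ᵣ Q) ∈ fsupp A Q := by
  classical
  refine (Set.finite_singleton (1 : Q)).subset ?_
  intro q hq
  rw [Set.mem_ofPred_eq, wbase_left] at hq
  by_contra h
  rw [Set.mem_singleton_iff] at h
  simp [h] at hq

theorem winl_mem_fsupp (q : Q) : (RegularWreathProduct.inl q : A ≀ᵣ Q) ∈ fsupp A Q := by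
  change {q' | (RegularWreathProduct.inl q : A ≀ᵣ Q).left q' ≠ 1}.Finite
  simp

end

end Pool.Agent.Lib.MP_a6d6d3_gt
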